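import Pool.Agent.H78.SV.Z.Z0
import Pool.Agent.H78.SV.Z.Z1

set_option linter.all false

namespace Pool.Agent.H78.SV

open Pool.Agent.H78.RT
open Pool.Agent.H78.Tie
open Pool.Agent.H78.Tie.TAp
open Pool.Agent.H81.AP (LF)


/-- `2 i = t` -/
theorem coinU {A : TAp} {T : A.Tie} {sx : ℤ} {i U S θ : ℤ} (d : ST A T sx) (hep : T.ep = -1)
    (o : OC A T i U S θ) (hθ2 : 2 * θ = th A T.t) : 2 * i = T.t ∧
    NN A ∣ 2 * U + (A.q * A.w + A.sg) ∧ NN A ∣ 2 * (U + S) + (A.sg + A.q * T.x) := by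
  have hi : 2 * i = T.t := by
    have h1 := o.c.1.th
    rw [h1, ← th_mul] at hθ2
    rcases lt_trichotomy (2 * i) T.t with h | h | h
    · have := th_lt A h; omega
    · exact h
    · have := th_lt A h; omega
  have h1 := T.tie
  have h2 := o.c.1.1
  rw [hep] at h1
  have h3 := dvd_sub h1 (h2.mul_left 2)
  have e : A.a * T.t - -1 * (A.q * A.w + A.sg) - 2 * (A.a * i - U)
      = 2 * U + (A.q * A.w + A.sg) := by
    rw [← hi]; ring
  rw [e] at h3
  refine ⟨hi, h3, ?_⟩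
  obtain ⟨s, hs, hsd⟩ := o.c.1.2.1
  have h4 := T.row
  rw [hep] at h4
  have h5 := dvd_sub h4 (hsd.mul_left 2)
  have e2 : A.e * T.t - -1 * (T.x - A.w) - 2 * (A.e * i - s) = 2 * s + (T.x - A.w) := by
    rw [← hi]; ring
  rw [e2] at h5
  obtain ⟨z, hz⟩ := h5
  have h6 := dvd_add h3 (show NN A ∣ A.q * (2 * s + (T.x - A.w)) from ⟨z, by
    rw [hz]; unfold NN; ring⟩)
  have e3 : 2 * U + (A.q * A.w + A.sg) + A.q * (2 * s + (T.x - A.w))
    = 2 * (U + S) + (A.sg + A.q * T.x) := by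
    rw [hs]; ring
  rwa [e3] at h6

theorem NN_cases2 {A : TAp} {x : ℤ} (h : NN A ∣ x) (h0 : -(2 * NN A) < x) (h1 : x < NN A) :
    x = 0 ∨ x = -NN A := by
  have := NN_cases (x := -x) (by rwa [dvd_neg]) (by linarith) (by linarith)
  omega

theorem Z_ppa {A : TAp} {T : A.Tie} {i U S θ : ℤ} (d : ST A T (1))
    (hsg : A.sg = sgv true) (hep : T.ep = sgv false) (o : OC A T i U S θ)
    (hDW : A.D < A.q * A.w) (hWH : (A.q * A.w : ℤ) ≤ A.q * A.h)
    (hUm : U + 2 ≤ 0) (hUW : U + A.q * A.w + 2 ≤ A.D)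
    (nP : θ + th A T.t ≠ A.D) (hθ2 : 2 * θ = th A T.t) : False := by
  obtain ⟨f1, f2, f3, f4, f5, f6, f7, f8, f9, f10⟩ := d.facts
  obtain ⟨hi, hd1, hd2⟩ := coinU d hep o hθ2
  have hsg' : A.sg = 1 := hsg
  have n0 := o.n0
  have u0 := o.u0
  have u1 := o.u1
  have v0 := o.v0
  have v1 := o.v1
  have hD := D_pos A
  have ht0 : θ + 2 ≤ th A T.t := by omega
  rw [hsg'] at hd1 hd2
  have hU2 : 2 * U + A.q * A.w + (1) = 0 * NN A := by
    rcases NN_cases hd1 (by omega) (by omega) with h | h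
    · linarith
    · exfalso; omega
  have hV : 2 * (U + S) + A.q * T.x + (1) = (0) * NN A ∨ 2 * (U + S) + A.q * T.x + (1) = (1) * NN A := by
    rcases NN_cases hd2 (by omega) (by omega) with h | h
    · left; linarith
    · right; linarith
  rcases hV with hV2 | hV2
  · rcases o.t1.resolve_left nP with hd0 | hd1
    · exact cppa00_c d hsg hep o hθ2 hU2 hV2 hWH hDW hUW hUm hd0 ht0 nP
    · obtain ⟨j, s, c, hj, hc, s0, s1⟩ := Pool.Agent.H23.DT.exV A (c := A.w) (by have := A.hw; omega) (by have := A.w2; omega)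
      have k0 : 1 ≤ th A j := by have := th_pos A hj.2.1; omega
      have k1 : th A j + 1 ≤ A.D := by have := th_ltD A hj.2.2; omega
      have k2 : 2 * (A.q * s) ≤ NN A := by have := mul_le_mul_of_nonneg_left s1 A.q_pos'.le; unfold NN; linarith
      have k3 : -NN A ≤ 2 * (A.q * s) := by have := mul_le_mul_of_nonneg_left s0 A.q_pos'.le; unfold NN; linarith
      rcases hc with rfl | rfl
      · exact cppa01Vw_c d hsg hep o hj k0 k1 k2 k3 hθ2 hU2 hV2 hWH hDW hUW hUm hd1 ht0 nP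
      · rw [mul_zero, sub_zero] at hj
        exact cppa01V0_c d hsg hep o hj k0 k1 k2 k3 hθ2 hU2 hV2 hWH hDW hUW hUm hd1 ht0 nP
  · rcases o.t1.resolve_left nP with hd0 | hd1
    · exact cppa10_c d hsg hep o hθ2 hU2 hV2 hWH hDW hUW hUm hd0 ht0 nP
    · obtain ⟨j, s, c, hj, hc, s0, s1⟩ := Pool.Agent.H23.DT.exV A (c := A.w) (by have := A.hw; omega) (by have := A.w2; omega)
      have k0 : 1 ≤ th A j := by have := th_pos A hj.2.1; omega
      have k1 : th A j + 1 ≤ A.D := by have := th_ltD A hj.2.2; omega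
      have k2 : 2 * (A.q * s) ≤ NN A := by have := mul_le_mul_of_nonneg_left s1 A.q_pos'.le; unfold NN; linarith
      have k3 : -NN A ≤ 2 * (A.q * s) := by have := mul_le_mul_of_nonneg_left s0 A.q_pos'.le; unfold NN; linarith
      rcases hc with rfl | rfl
      · exact cppa11Vw_c d hsg hep o hj k0 k1 k2 k3 hθ2 hU2 hV2 hWH hDW hUW hUm hd1 ht0 nP
      · rw [mul_zero, sub_zero] at hj
        exact cppa11V0_c d hsg hep o hj k0 k1 k2 k3 hθ2 hU2 hV2 hWH hDW hUW hUm hd1 ht0 nP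

theorem Z_ppb {A : TAp} {T : A.Tie} {i U S θ : ℤ} (d : ST A T (1))
    (hsg : A.sg = sgv true) (hep : T.ep = sgv false) (o : OC A T i U S θ)
    (hDW : A.D < A.q * A.w) (hWH : (A.q * A.w : ℤ) ≤ A.q * A.h)
    (hUp : 2 ≤ U) (hUD : U + 2 ≤ A.D)
    (nP : θ + th A T.t ≠ A.D) (hθ2 : 2 * θ = th A T.t) : False := by
  obtain ⟨f1, f2, f3, f4, f5, f6, f7, f8, f9, f10⟩ := d.facts
  obtain ⟨hi, hd1, hd2⟩ := coinU d hep o hθ2
  have hsg' : A.sg = 1 := hsg
  have n0 := o.n0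
  have u0 := o.u0
  have u1 := o.u1
  have v0 := o.v0
  have v1 := o.v1
  have hD := D_pos A
  have ht0 : θ + 2 ≤ th A T.t := by omega
  rw [hsg'] at hd1 hd2
  have hU2 : 2 * U + A.q * A.w + (1) = 1 * NN A := by
    rcases NN_cases hd1 (by omega) (by omega) with h | h
    · exfalso; omega
    · linarith
  have hV : 2 * (U + S) + A.q * T.x + (1) = (0) * NN A ∨ 2 * (U + S) + A.q * T.x + (1) = (1) * NN A := by
    rcases NN_cases hd2 (by omega) (by omega) with h | h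
    · left; linarith
    · right; linarith
  rcases hV with hV2 | hV2
  · rcases o.t1.resolve_left nP with hd0 | hd1
    · exact cppb00_c d hsg hep o hθ2 hU2 hV2 hWH hDW hUD hUp hd0 ht0 nP
    · exact cppb01_c d hsg hep o hθ2 hU2 hV2 hWH hDW hUD hUp hd1 ht0 nP
  · rcases o.t1.resolve_left nP with hd0 | hd1
    · exact cppb10_c d hsg hep o hθ2 hU2 hV2 hWH hDW hUD hUp hd0 ht0 nP
    · exact cppb11_c d hsg hep o hθ2 hU2 hV2 hWH hDW hUD hUp hd1 ht0 nP

theorem Z_ppc {A : TAp} {T : A.Tie} {i U S θ : ℤ} (d : ST A T (1))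
    (hsg : A.sg = sgv true) (hep : T.ep = sgv false) (o : OC A T i U S θ)
    (hDW : A.D < A.q * A.w) (hWH : (A.q * A.w : ℤ) ≤ A.q * A.h)
    (hDU : A.D + 2 ≤ U) (hVD : U + S + A.q * A.h + 2 ≤ A.D)
    (nP : θ + th A T.t ≠ A.D) (hθ2 : 2 * θ = th A T.t) : False := by
  obtain ⟨f1, f2, f3, f4, f5, f6, f7, f8, f9, f10⟩ := d.facts
  obtain ⟨hi, hd1, hd2⟩ := coinU d hep o hθ2
  have hsg' : A.sg = 1 := hsg
  have n0 := o.n0
  have u0 := o.u0
  have u1 := o.u1
  have v0 := o.v0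
  have v1 := o.v1
  have hD := D_pos A
  have ht0 : θ + 2 ≤ th A T.t := by omega
  rw [hsg'] at hd1 hd2
  have hU2 : 2 * U + A.q * A.w + (1) = 1 * NN A := by
    rcases NN_cases hd1 (by omega) (by omega) with h | h
    · exfalso; omega
    · linarith
  have hV : 2 * (U + S) + A.q * T.x + (1) = (0) * NN A ∨ 2 * (U + S) + A.q * T.x + (1) = (1) * NN A := by
    rcases NN_cases hd2 (by omega) (by omega) with h | h
    · left; linarith
    · right; linarith
  rcases hV with hV2 | hV2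
  · rcases o.t1.resolve_left nP with hd0 | hd1
    · exact cppc00_c d hsg hep o hθ2 hU2 hV2 hWH hDW hVD hDU hd0 ht0 nP
    · exact cppc01_c d hsg hep o hθ2 hU2 hV2 hWH hDW hVD hDU hd1 ht0 nP
  · exfalso; omega

theorem Z_pma {A : TAp} {T : A.Tie} {i U S θ : ℤ} (d : ST A T (-1))
    (hsg : A.sg = sgv true) (hep : T.ep = sgv false) (o : OC A T i U S θ)
    (hDW : A.D < A.q * A.w) (hWH : (A.q * A.w : ℤ) ≤ A.q * A.h)
    (hUm : U + 2 ≤ 0) (hUW : U + A.q * A.w + 2 ≤ A.D)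
    (nP : θ + th A T.t ≠ A.D) (hθ2 : 2 * θ = th A T.t) : False := by
  obtain ⟨f1, f2, f3, f4, f5, f6, f7, f8, f9, f10⟩ := d.facts
  obtain ⟨hi, hd1, hd2⟩ := coinU d hep o hθ2
  have hsg' : A.sg = 1 := hsg
  have n0 := o.n0
  have u0 := o.u0
  have u1 := o.u1
  have v0 := o.v0
  have v1 := o.v1
  have hD := D_pos A
  have ht0 : θ + 2 ≤ th A T.t := by omega
  rw [hsg'] at hd1 hd2
  have hU2 : 2 * U + A.q * A.w + (1) = 0 * NN A := by
    rcases NN_cases hd1 (by omega) (by omega) with h | h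
    · linarith
    · exfalso; omega
  have hV : 2 * (U + S) + A.q * T.x + (1) = (0) * NN A ∨ 2 * (U + S) + A.q * T.x + (1) = (-1) * NN A := by
    rcases NN_cases2 hd2 (by omega) (by omega) with h | h
    · left; linarith
    · right; linarith
  rcases hV with hV2 | hV2
  · rcases o.t1.resolve_left nP with hd0 | hd1
    · exact cpma00_c d hsg hep o hθ2 hU2 hV2 hWH hDW hUW hUm hd0 ht0 nP
    · obtain ⟨j, s, c, hj, hc, s0, s1⟩ := Pool.Agent.H23.DT.exV A (c := A.w) (by have := A.hw; omega) (by have := A.w2; omega)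
      have k0 : 1 ≤ th A j := by have := th_pos A hj.2.1; omega
      have k1 : th A j + 1 ≤ A.D := by have := th_ltD A hj.2.2; omega
      have k2 : 2 * (A.q * s) ≤ NN A := by have := mul_le_mul_of_nonneg_left s1 A.q_pos'.le; unfold NN; linarith
      have k3 : -NN A ≤ 2 * (A.q * s) := by have := mul_le_mul_of_nonneg_left s0 A.q_pos'.le; unfold NN; linarith
      rcases hc with rfl | rfl
      · exact cpma01Vw_c d hsg hep o hj k0 k1 k2 k3 hθ2 hU2 hV2 hWH hDW hUW hUm hd1 ht0 nP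
      · rw [mul_zero, sub_zero] at hj
        exact cpma01V0_c d hsg hep o hj k0 k1 k2 k3 hθ2 hU2 hV2 hWH hDW hUW hUm hd1 ht0 nP
  · rcases o.t1.resolve_left nP with hd0 | hd1
    · exact cpmam0_c d hsg hep o hθ2 hU2 hV2 hWH hDW hUW hUm hd0 ht0 nP
    · obtain ⟨j, s, c, hj, hc, s0, s1⟩ := Pool.Agent.H23.DT.exV A (c := A.h) (by have := A.hh; omega) (by have := A.h2; omega)
      have k0 : 1 ≤ th A j := by have := th_pos A hj.2.1; omega
      have k1 : th A j + 1 ≤ A.D := by have := th_ltD A hj.2.2; omega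
      have k2 : 2 * (A.q * s) ≤ NN A := by have := mul_le_mul_of_nonneg_left s1 A.q_pos'.le; unfold NN; linarith
      have k3 : -NN A ≤ 2 * (A.q * s) := by have := mul_le_mul_of_nonneg_left s0 A.q_pos'.le; unfold NN; linarith
      rcases hc with rfl | rfl
      · exact cpmam1Vh_c d hsg hep o hj k0 k1 k2 k3 hθ2 hU2 hV2 hWH hDW hUW hUm hd1 ht0 nP
      · rw [mul_zero, sub_zero] at hj
        exact cpmam1V0_c d hsg hep o hj k0 k1 k2 k3 hθ2 hU2 hV2 hWH hDW hUW hUm hd1 ht0 nP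

theorem Z_pmb {A : TAp} {T : A.Tie} {i U S θ : ℤ} (d : ST A T (-1))
    (hsg : A.sg = sgv true) (hep : T.ep = sgv false) (o : OC A T i U S θ)
    (hDW : A.D < A.q * A.w) (hWH : (A.q * A.w : ℤ) ≤ A.q * A.h)
    (hUp : 2 ≤ U) (hUD : U + 2 ≤ A.D)
    (nP : θ + th A T.t ≠ A.D) (hθ2 : 2 * θ = th A T.t) : False := by
  obtain ⟨f1, f2, f3, f4, f5, f6, f7, f8, f9, f10⟩ := d.facts
  obtain ⟨hi, hd1, hd2⟩ := coinU d hep o hθ2
  have hsg' : A.sg = 1 := hsg
  have n0 := o.n0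
  have u0 := o.u0
  have u1 := o.u1
  have v0 := o.v0
  have v1 := o.v1
  have hD := D_pos A
  have ht0 : θ + 2 ≤ th A T.t := by omega
  rw [hsg'] at hd1 hd2
  have hU2 : 2 * U + A.q * A.w + (1) = 1 * NN A := by
    rcases NN_cases hd1 (by omega) (by omega) with h | h
    · exfalso; omega
    · linarith
  have hV : 2 * (U + S) + A.q * T.x + (1) = (0) * NN A ∨ 2 * (U + S) + A.q * T.x + (1) = (-1) * NN A := by
    rcases NN_cases2 hd2 (by omega) (by omega) with h | h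
    · left; linarith
    · right; linarith
  rcases hV with hV2 | hV2
  · rcases o.t1.resolve_left nP with hd0 | hd1
    · exact cpmb00_c d hsg hep o hθ2 hU2 hV2 hWH hDW hUD hUp hd0 ht0 nP
    · exact cpmb01_c d hsg hep o hθ2 hU2 hV2 hWH hDW hUD hUp hd1 ht0 nP
  · rcases o.t1.resolve_left nP with hd0 | hd1
    · exact cpmbm0_c d hsg hep o hθ2 hU2 hV2 hWH hDW hUD hUp hd0 ht0 nP
    · exact cpmbm1_c d hsg hep o hθ2 hU2 hV2 hWH hDW hUD hUp hd1 ht0 nP

theorem Z_pmc {A : TAp} {T : A.Tie} {i U S θ : ℤ} (d : ST A T (-1))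
    (hsg : A.sg = sgv true) (hep : T.ep = sgv false) (o : OC A T i U S θ)
    (hDW : A.D < A.q * A.w) (hWH : (A.q * A.w : ℤ) ≤ A.q * A.h)
    (hDU : A.D + 2 ≤ U) (hVD : U + S + A.q * A.h + 2 ≤ A.D)
    (nP : θ + th A T.t ≠ A.D) (hθ2 : 2 * θ = th A T.t) : False := by
  obtain ⟨f1, f2, f3, f4, f5, f6, f7, f8, f9, f10⟩ := d.facts
  obtain ⟨hi, hd1, hd2⟩ := coinU d hep o hθ2
  have hsg' : A.sg = 1 := hsg
  have n0 := o.n0
  have u0 := o.u0
  have u1 := o.u1
  have v0 := o.v0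
  have v1 := o.v1
  have hD := D_pos A
  have ht0 : θ + 2 ≤ th A T.t := by omega
  rw [hsg'] at hd1 hd2
  have hU2 : 2 * U + A.q * A.w + (1) = 1 * NN A := by
    rcases NN_cases hd1 (by omega) (by omega) with h | h
    · exfalso; omega
    · linarith
  have hV : 2 * (U + S) + A.q * T.x + (1) = (0) * NN A ∨ 2 * (U + S) + A.q * T.x + (1) = (-1) * NN A := by
    rcases NN_cases2 hd2 (by omega) (by omega) with h | h
    · left; linarith
    · right; linarith
  rcases hV with hV2 | hV2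
  · exfalso; omega
  · rcases o.t1.resolve_left nP with hd0 | hd1
    · exact cpmcm0_c d hsg hep o hθ2 hU2 hV2 hWH hDW hVD hDU hd0 ht0 nP
    · exact cpmcm1_c d hsg hep o hθ2 hU2 hV2 hWH hDW hVD hDU hd1 ht0 nP

theorem Z_mpa {A : TAp} {T : A.Tie} {i U S θ : ℤ} (d : ST A T (1))
    (hsg : A.sg = sgv false) (hep : T.ep = sgv false) (o : OC A T i U S θ)
    (hDW : A.D < A.q * A.w) (hWH : (A.q * A.w : ℤ) ≤ A.q * A.h)
    (hUm : U + 2 ≤ 0) (hUW : U + A.q * A.w + 2 ≤ A.D)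
    (nP : θ + th A T.t ≠ A.D) (hθ2 : 2 * θ = th A T.t) : False := by
  obtain ⟨f1, f2, f3, f4, f5, f6, f7, f8, f9, f10⟩ := d.facts
  obtain ⟨hi, hd1, hd2⟩ := coinU d hep o hθ2
  have hsg' : A.sg = -1 := hsg
  have n0 := o.n0
  have u0 := o.u0
  have u1 := o.u1
  have v0 := o.v0
  have v1 := o.v1
  have hD := D_pos A
  have ht0 : θ + 2 ≤ th A T.t := by omega
  rw [hsg'] at hd1 hd2
  have hU2 : 2 * U + A.q * A.w + (-1) = 0 * NN A := by
    rcases NN_cases hd1 (by omega) (by omega) with h | h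
    · linarith
    · exfalso; omega
  have hV : 2 * (U + S) + A.q * T.x + (-1) = (0) * NN A ∨ 2 * (U + S) + A.q * T.x + (-1) = (1) * NN A := by
    rcases NN_cases hd2 (by omega) (by omega) with h | h
    · left; linarith
    · right; linarith
  rcases hV with hV2 | hV2
  · rcases o.t1.resolve_left nP with hd0 | hd1
    · exact cmpa00_c d hsg hep o hθ2 hU2 hV2 hWH hDW hUW hUm hd0 ht0 nP
    · obtain ⟨j, s, c, hj, hc, s0, s1⟩ := Pool.Agent.H23.DT.exV A (c := A.w) (by have := A.hw; omega) (by have := A.w2; omega)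
      have k0 : 1 ≤ th A j := by have := th_pos A hj.2.1; omega
      have k1 : th A j + 1 ≤ A.D := by have := th_ltD A hj.2.2; omega
      have k2 : 2 * (A.q * s) ≤ NN A := by have := mul_le_mul_of_nonneg_left s1 A.q_pos'.le; unfold NN; linarith
      have k3 : -NN A ≤ 2 * (A.q * s) := by have := mul_le_mul_of_nonneg_left s0 A.q_pos'.le; unfold NN; linarith
      rcases hc with rfl | rfl
      · exact cmpa01Vw_c d hsg hep o hj k0 k1 k2 k3 hθ2 hU2 hV2 hWH hDW hUW hUm hd1 ht0 nP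
      · rw [mul_zero, sub_zero] at hj
        exact cmpa01V0_c d hsg hep o hj k0 k1 k2 k3 hθ2 hU2 hV2 hWH hDW hUW hUm hd1 ht0 nP
  · rcases o.t1.resolve_left nP with hd0 | hd1
    · exact cmpa10_c d hsg hep o hθ2 hU2 hV2 hWH hDW hUW hUm hd0 ht0 nP
    · obtain ⟨j, s, c, hj, hc, s0, s1⟩ := Pool.Agent.H23.DT.exV A (c := A.w) (by have := A.hw; omega) (by have := A.w2; omega)
      have k0 : 1 ≤ th A j := by have := th_pos A hj.2.1; omega
      have k1 : th A j + 1 ≤ A.D := by have := th_ltD A hj.2.2; omega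
      have k2 : 2 * (A.q * s) ≤ NN A := by have := mul_le_mul_of_nonneg_left s1 A.q_pos'.le; unfold NN; linarith
      have k3 : -NN A ≤ 2 * (A.q * s) := by have := mul_le_mul_of_nonneg_left s0 A.q_pos'.le; unfold NN; linarith
      rcases hc with rfl | rfl
      · exact cmpa11Vw_c d hsg hep o hj k0 k1 k2 k3 hθ2 hU2 hV2 hWH hDW hUW hUm hd1 ht0 nP
      · rw [mul_zero, sub_zero] at hj
        exact cmpa11V0_c d hsg hep o hj k0 k1 k2 k3 hθ2 hU2 hV2 hWH hDW hUW hUm hd1 ht0 nP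

theorem Z_mpb {A : TAp} {T : A.Tie} {i U S θ : ℤ} (d : ST A T (1))
    (hsg : A.sg = sgv false) (hep : T.ep = sgv false) (o : OC A T i U S θ)
    (hDW : A.D < A.q * A.w) (hWH : (A.q * A.w : ℤ) ≤ A.q * A.h)
    (hUp : 2 ≤ U) (hUD : U + 2 ≤ A.D)
    (nP : θ + th A T.t ≠ A.D) (hθ2 : 2 * θ = th A T.t) : False := by
  obtain ⟨f1, f2, f3, f4, f5, f6, f7, f8, f9, f10⟩ := d.facts
  obtain ⟨hi, hd1, hd2⟩ := coinU d hep o hθ2
  have hsg' : A.sg = -1 := hsg
  have n0 := o.n0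
  have u0 := o.u0
  have u1 := o.u1
  have v0 := o.v0
  have v1 := o.v1
  have hD := D_pos A
  have ht0 : θ + 2 ≤ th A T.t := by omega
  rw [hsg'] at hd1 hd2
  have hU2 : 2 * U + A.q * A.w + (-1) = 1 * NN A := by
    rcases NN_cases hd1 (by omega) (by omega) with h | h
    · exfalso; omega
    · linarith
  have hV : 2 * (U + S) + A.q * T.x + (-1) = (0) * NN A ∨ 2 * (U + S) + A.q * T.x + (-1) = (1) * NN A := by
    rcases NN_cases hd2 (by omega) (by omega) with h | h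
    · left; linarith
    · right; linarith
  rcases hV with hV2 | hV2
  · rcases o.t1.resolve_left nP with hd0 | hd1
    · exact cmpb00_c d hsg hep o hθ2 hU2 hV2 hWH hDW hUD hUp hd0 ht0 nP
    · exact cmpb01_c d hsg hep o hθ2 hU2 hV2 hWH hDW hUD hUp hd1 ht0 nP
  · rcases o.t1.resolve_left nP with hd0 | hd1
    · exact cmpb10_c d hsg hep o hθ2 hU2 hV2 hWH hDW hUD hUp hd0 ht0 nP
    · exact cmpb11_c d hsg hep o hθ2 hU2 hV2 hWH hDW hUD hUp hd1 ht0 nP

theorem Z_mpc {A : TAp} {T : A.Tie} {i U S θ : ℤ} (d : ST A T (1))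
    (hsg : A.sg = sgv false) (hep : T.ep = sgv false) (o : OC A T i U S θ)
    (hDW : A.D < A.q * A.w) (hWH : (A.q * A.w : ℤ) ≤ A.q * A.h)
    (hDU : A.D + 2 ≤ U) (hVD : U + S + A.q * A.h + 2 ≤ A.D)
    (nP : θ + th A T.t ≠ A.D) (hθ2 : 2 * θ = th A T.t) : False := by
  obtain ⟨f1, f2, f3, f4, f5, f6, f7, f8, f9, f10⟩ := d.facts
  obtain ⟨hi, hd1, hd2⟩ := coinU d hep o hθ2
  have hsg' : A.sg = -1 := hsg
  have n0 := o.n0
  have u0 := o.u0
  have u1 := o.u1
  have v0 := o.v0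
  have v1 := o.v1
  have hD := D_pos A
  have ht0 : θ + 2 ≤ th A T.t := by omega
  rw [hsg'] at hd1 hd2
  have hU2 : 2 * U + A.q * A.w + (-1) = 1 * NN A := by
    rcases NN_cases hd1 (by omega) (by omega) with h | h
    · exfalso; omega
    · linarith
  have hV : 2 * (U + S) + A.q * T.x + (-1) = (0) * NN A ∨ 2 * (U + S) + A.q * T.x + (-1) = (1) * NN A := by
    rcases NN_cases hd2 (by omega) (by omega) with h | h
    · left; linarith
    · right; linarith
  rcases hV with hV2 | hV2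
  · rcases o.t1.resolve_left nP with hd0 | hd1
    · exact cmpc00_c d hsg hep o hθ2 hU2 hV2 hWH hDW hVD hDU hd0 ht0 nP
    · exact cmpc01_c d hsg hep o hθ2 hU2 hV2 hWH hDW hVD hDU hd1 ht0 nP
  · exfalso; omega

theorem Z_mma {A : TAp} {T : A.Tie} {i U S θ : ℤ} (d : ST A T (-1))
    (hsg : A.sg = sgv false) (hep : T.ep = sgv false) (o : OC A T i U S θ)
    (hDW : A.D < A.q * A.w) (hWH : (A.q * A.w : ℤ) ≤ A.q * A.h)
    (hUm : U + 2 ≤ 0) (hUW : U + A.q * A.w + 2 ≤ A.D)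
    (nP : θ + th A T.t ≠ A.D) (hθ2 : 2 * θ = th A T.t) : False := by
  obtain ⟨f1, f2, f3, f4, f5, f6, f7, f8, f9, f10⟩ := d.facts
  obtain ⟨hi, hd1, hd2⟩ := coinU d hep o hθ2
  have hsg' : A.sg = -1 := hsg
  have n0 := o.n0
  have u0 := o.u0
  have u1 := o.u1
  have v0 := o.v0
  have v1 := o.v1
  have hD := D_pos A
  have ht0 : θ + 2 ≤ th A T.t := by omega
  rw [hsg'] at hd1 hd2
  have hU2 : 2 * U + A.q * A.w + (-1) = 0 * NN A := by
    rcases NN_cases hd1 (by omega) (by omega) with h | h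
    · linarith
    · exfalso; omega
  have hV : 2 * (U + S) + A.q * T.x + (-1) = (0) * NN A ∨ 2 * (U + S) + A.q * T.x + (-1) = (-1) * NN A := by
    rcases NN_cases2 hd2 (by omega) (by omega) with h | h
    · left; linarith
    · right; linarith
  rcases hV with hV2 | hV2
  · rcases o.t1.resolve_left nP with hd0 | hd1
    · exact cmma00_c d hsg hep o hθ2 hU2 hV2 hWH hDW hUW hUm hd0 ht0 nP
    · obtain ⟨j, s, c, hj, hc, s0, s1⟩ := Pool.Agent.H23.DT.exV A (c := A.w) (by have := A.hw; omega) (by have := A.w2; omega)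
      have k0 : 1 ≤ th A j := by have := th_pos A hj.2.1; omega
      have k1 : th A j + 1 ≤ A.D := by have := th_ltD A hj.2.2; omega
      have k2 : 2 * (A.q * s) ≤ NN A := by have := mul_le_mul_of_nonneg_left s1 A.q_pos'.le; unfold NN; linarith
      have k3 : -NN A ≤ 2 * (A.q * s) := by have := mul_le_mul_of_nonneg_left s0 A.q_pos'.le; unfold NN; linarith
      rcases hc with rfl | rfl
      · exact cmma01Vw_c d hsg hep o hj k0 k1 k2 k3 hθ2 hU2 hV2 hWH hDW hUW hUm hd1 ht0 nP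
      · rw [mul_zero, sub_zero] at hj
        exact cmma01V0_c d hsg hep o hj k0 k1 k2 k3 hθ2 hU2 hV2 hWH hDW hUW hUm hd1 ht0 nP
  · rcases o.t1.resolve_left nP with hd0 | hd1
    · exact cmmam0_c d hsg hep o hθ2 hU2 hV2 hWH hDW hUW hUm hd0 ht0 nP
    · obtain ⟨j, s, c, hj, hc, s0, s1⟩ := Pool.Agent.H23.DT.exV A (c := A.h) (by have := A.hh; omega) (by have := A.h2; omega)
      have k0 : 1 ≤ th A j := by have := th_pos A hj.2.1; omega
      have k1 : th A j + 1 ≤ A.D := by have := th_ltD A hj.2.2; omega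
      have k2 : 2 * (A.q * s) ≤ NN A := by have := mul_le_mul_of_nonneg_left s1 A.q_pos'.le; unfold NN; linarith
      have k3 : -NN A ≤ 2 * (A.q * s) := by have := mul_le_mul_of_nonneg_left s0 A.q_pos'.le; unfold NN; linarith
      rcases hc with rfl | rfl
      · exact cmmam1Vh_c d hsg hep o hj k0 k1 k2 k3 hθ2 hU2 hV2 hWH hDW hUW hUm hd1 ht0 nP
      · rw [mul_zero, sub_zero] at hj
        exact cmmam1V0_c d hsg hep o hj k0 k1 k2 k3 hθ2 hU2 hV2 hWH hDW hUW hUm hd1 ht0 nP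

theorem Z_mmb {A : TAp} {T : A.Tie} {i U S θ : ℤ} (d : ST A T (-1))
    (hsg : A.sg = sgv false) (hep : T.ep = sgv false) (o : OC A T i U S θ)
    (hDW : A.D < A.q * A.w) (hWH : (A.q * A.w : ℤ) ≤ A.q * A.h)
    (hUp : 2 ≤ U) (hUD : U + 2 ≤ A.D)
    (nP : θ + th A T.t ≠ A.D) (hθ2 : 2 * θ = th A T.t) : False := by
  obtain ⟨f1, f2, f3, f4, f5, f6, f7, f8, f9, f10⟩ := d.facts
  obtain ⟨hi, hd1, hd2⟩ := coinU d hep o hθ2
  have hsg' : A.sg = -1 := hsg
  have n0 := o.n0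
  have u0 := o.u0
  have u1 := o.u1
  have v0 := o.v0
  have v1 := o.v1
  have hD := D_pos A
  have ht0 : θ + 2 ≤ th A T.t := by omega
  rw [hsg'] at hd1 hd2
  have hU2 : 2 * U + A.q * A.w + (-1) = 1 * NN A := by
    rcases NN_cases hd1 (by omega) (by omega) with h | h
    · exfalso; omega
    · linarith
  have hV : 2 * (U + S) + A.q * T.x + (-1) = (0) * NN A ∨ 2 * (U + S) + A.q * T.x + (-1) = (-1) * NN A := by
    rcases NN_cases2 hd2 (by omega) (by omega) with h | h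
    · left; linarith
    · right; linarith
  rcases hV with hV2 | hV2
  · rcases o.t1.resolve_left nP with hd0 | hd1
    · exact cmmb00_c d hsg hep o hθ2 hU2 hV2 hWH hDW hUD hUp hd0 ht0 nP
    · exact cmmb01_c d hsg hep o hθ2 hU2 hV2 hWH hDW hUD hUp hd1 ht0 nP
  · rcases o.t1.resolve_left nP with hd0 | hd1
    · exact cmmbm0_c d hsg hep o hθ2 hU2 hV2 hWH hDW hUD hUp hd0 ht0 nP
    · exact cmmbm1_c d hsg hep o hθ2 hU2 hV2 hWH hDW hUD hUp hd1 ht0 nP

theorem Z_mmc {A : TAp} {T : A.Tie} {i U S θ : ℤ} (d : ST A T (-1))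
    (hsg : A.sg = sgv false) (hep : T.ep = sgv false) (o : OC A T i U S θ)
    (hDW : A.D < A.q * A.w) (hWH : (A.q * A.w : ℤ) ≤ A.q * A.h)
    (hDU : A.D + 2 ≤ U) (hVD : U + S + A.q * A.h + 2 ≤ A.D)
    (nP : θ + th A T.t ≠ A.D) (hθ2 : 2 * θ = th A T.t) : False := by
  obtain ⟨f1, f2, f3, f4, f5, f6, f7, f8, f9, f10⟩ := d.facts
  obtain ⟨hi, hd1, hd2⟩ := coinU d hep o hθ2
  have hsg' : A.sg = -1 := hsg
  have n0 := o.n0
  have u0 := o.u0
  have u1 := o.u1
  have v0 := o.v0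
  have v1 := o.v1
  have hD := D_pos A
  have ht0 : θ + 2 ≤ th A T.t := by omega
  rw [hsg'] at hd1 hd2
  have hU2 : 2 * U + A.q * A.w + (-1) = 1 * NN A := by
    rcases NN_cases hd1 (by omega) (by omega) with h | h
    · exfalso; omega
    · linarith
  have hV : 2 * (U + S) + A.q * T.x + (-1) = (0) * NN A ∨ 2 * (U + S) + A.q * T.x + (-1) = (-1) * NN A := by
    rcases NN_cases2 hd2 (by omega) (by omega) with h | h
    · left; linarith
    · right; linarith
  rcases hV with hV2 | hV2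
  · exfalso; omega
  · rcases o.t1.resolve_left nP with hd0 | hd1
    · exact cmmcm0_c d hsg hep o hθ2 hU2 hV2 hWH hDW hVD hDU hd0 ht0 nP
    · exact cmmcm1_c d hsg hep o hθ2 hU2 hV2 hWH hDW hVD hDU hd1 ht0 nP

end Pool.Agent.H78.SV
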