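import Pool.Agent.H78.SV.M
import Pool.Agent.H78.SV.Q
import Pool.Agent.H78.SV.Zc

/-!
# (SV) for single ties
-/

set_option linter.all false

namespace Pool.Agent.H78.SV

open Pool.Agent.H78.RT
open Pool.Agent.H78.Tie
open Pool.Agent.H78.Tie.TAp

theorem B_ppp {A : TAp} {T : A.Tie} {i U S θ : ℤ} (d : ST A T (1))
    (hsg : A.sg = sgv true) (hep : T.ep = sgv true) (o : OC A T i U S θ)
    (hDW : A.D < A.q * A.w) (hWH : (A.q * A.w : ℤ) ≤ A.q * A.h)
    (hc : (U < 0 ∧ U + (A.q * A.w + A.sg) < A.D) ∨ (0 ≤ U ∧ U < A.D) ∨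
      (A.D < U ∧ U + S < A.D - A.q * A.h)) : False := by
  have nPi : i ≠ A.p - T.t → θ + th A T.t ≠ A.D := by
    intro hi h
    apply hi
    have h1 := o.c.1.th
    rw [h1, ← th_add, ← th_p A] at h
    rcases lt_trichotomy (i + T.t) A.p with h2 | h2 | h2
    · have := th_lt A h2; omega
    · omega
    · have := th_lt A h2; omega
  rcases hc with ⟨h0, h1⟩ | ⟨h0, h1⟩ | ⟨h0, h1⟩
  · rcases d.catA o hDW h0 h1 with ⟨hUm, hUW, hi⟩ | ⟨-, he, -⟩
    · rcases o.v with hVm | hVp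
      · exact A_spppm d hsg hep o hDW hWH hUm hUW hVm (nPi hi)
      · exact A_spppp d hsg hep o hDW hWH hUm hUW hVp (nPi hi)
    · rw [hep] at he
      exact absurd he (by decide)
  · obtain ⟨hUp, hUD, hi⟩ := d.catB o hDW h0 h1
    exact A_spppb d hsg hep o hDW hWH hUp hUD (nPi hi)
  · obtain ⟨hDU, hVD, hi⟩ := d.catC o h0 h1
    exact A_spppc d hsg hep o hDW hWH hDU hVD (nPi hi)

theorem B_ppm {A : TAp} {T : A.Tie} {i U S θ : ℤ} (d : ST A T (-1))
    (hsg : A.sg = sgv true) (hep : T.ep = sgv true) (o : OC A T i U S θ)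
    (hDW : A.D < A.q * A.w) (hWH : (A.q * A.w : ℤ) ≤ A.q * A.h)
    (hc : (U < 0 ∧ U + (A.q * A.w + A.sg) < A.D) ∨ (0 ≤ U ∧ U < A.D) ∨
      (A.D < U ∧ U + S < A.D - A.q * A.h)) : False := by
  have nPi : i ≠ A.p - T.t → θ + th A T.t ≠ A.D := by
    intro hi h
    apply hi
    have h1 := o.c.1.th
    rw [h1, ← th_add, ← th_p A] at h
    rcases lt_trichotomy (i + T.t) A.p with h2 | h2 | h2
    · have := th_lt A h2; omega
    · omega
    · have := th_lt A h2; omega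
  rcases hc with ⟨h0, h1⟩ | ⟨h0, h1⟩ | ⟨h0, h1⟩
  · rcases d.catA o hDW h0 h1 with ⟨hUm, hUW, hi⟩ | ⟨-, he, -⟩
    · rcases o.v with hVm | hVp
      · exact A_sppmm d hsg hep o hDW hWH hUm hUW hVm (nPi hi)
      · exact A_sppmp d hsg hep o hDW hWH hUm hUW hVp (nPi hi)
    · rw [hep] at he
      exact absurd he (by decide)
  · obtain ⟨hUp, hUD, hi⟩ := d.catB o hDW h0 h1
    exact A_sppmb d hsg hep o hDW hWH hUp hUD (nPi hi)
  · obtain ⟨hDU, hVD, hi⟩ := d.catC o h0 h1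
    exact A_sppmc d hsg hep o hDW hWH hDU hVD (nPi hi)

theorem B_pmp {A : TAp} {T : A.Tie} {i U S θ : ℤ} (d : ST A T (1))
    (hsg : A.sg = sgv false) (hep : T.ep = sgv true) (o : OC A T i U S θ)
    (hDW : A.D < A.q * A.w) (hWH : (A.q * A.w : ℤ) ≤ A.q * A.h)
    (hc : (U < 0 ∧ U + (A.q * A.w + A.sg) < A.D) ∨ (0 ≤ U ∧ U < A.D) ∨
      (A.D < U ∧ U + S < A.D - A.q * A.h)) : False := by
  have nPi : i ≠ A.p - T.t → θ + th A T.t ≠ A.D := by
    intro hi h
    apply hi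
    have h1 := o.c.1.th
    rw [h1, ← th_add, ← th_p A] at h
    rcases lt_trichotomy (i + T.t) A.p with h2 | h2 | h2
    · have := th_lt A h2; omega
    · omega
    · have := th_lt A h2; omega
  rcases hc with ⟨h0, h1⟩ | ⟨h0, h1⟩ | ⟨h0, h1⟩
  · rcases d.catA o hDW h0 h1 with ⟨hUm, hUW, hi⟩ | ⟨-, he, -⟩
    · rcases o.v with hVm | hVp
      · exact A_spmpm d hsg hep o hDW hWH hUm hUW hVm (nPi hi)
      · exact A_spmpp d hsg hep o hDW hWH hUm hUW hVp (nPi hi)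
    · rw [hep] at he
      exact absurd he (by decide)
  · obtain ⟨hUp, hUD, hi⟩ := d.catB o hDW h0 h1
    exact A_spmpb d hsg hep o hDW hWH hUp hUD (nPi hi)
  · obtain ⟨hDU, hVD, hi⟩ := d.catC o h0 h1
    exact A_spmpc d hsg hep o hDW hWH hDU hVD (nPi hi)

theorem B_pmm {A : TAp} {T : A.Tie} {i U S θ : ℤ} (d : ST A T (-1))
    (hsg : A.sg = sgv false) (hep : T.ep = sgv true) (o : OC A T i U S θ)
    (hDW : A.D < A.q * A.w) (hWH : (A.q * A.w : ℤ) ≤ A.q * A.h)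
    (hc : (U < 0 ∧ U + (A.q * A.w + A.sg) < A.D) ∨ (0 ≤ U ∧ U < A.D) ∨
      (A.D < U ∧ U + S < A.D - A.q * A.h)) : False := by
  have nPi : i ≠ A.p - T.t → θ + th A T.t ≠ A.D := by
    intro hi h
    apply hi
    have h1 := o.c.1.th
    rw [h1, ← th_add, ← th_p A] at h
    rcases lt_trichotomy (i + T.t) A.p with h2 | h2 | h2
    · have := th_lt A h2; omega
    · omega
    · have := th_lt A h2; omega
  rcases hc with ⟨h0, h1⟩ | ⟨h0, h1⟩ | ⟨h0, h1⟩
  · rcases d.catA o hDW h0 h1 with ⟨hUm, hUW, hi⟩ | ⟨-, he, -⟩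
    · rcases o.v with hVm | hVp
      · exact A_spmmm d hsg hep o hDW hWH hUm hUW hVm (nPi hi)
      · exact A_spmmp d hsg hep o hDW hWH hUm hUW hVp (nPi hi)
    · rw [hep] at he
      exact absurd he (by decide)
  · obtain ⟨hUp, hUD, hi⟩ := d.catB o hDW h0 h1
    exact A_spmmb d hsg hep o hDW hWH hUp hUD (nPi hi)
  · obtain ⟨hDU, hVD, hi⟩ := d.catC o h0 h1
    exact A_spmmc d hsg hep o hDW hWH hDU hVD (nPi hi)

theorem B_mpp {A : TAp} {T : A.Tie} {i U S θ : ℤ} (d : ST A T (1))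
    (hsg : A.sg = sgv true) (hep : T.ep = sgv false) (o : OC A T i U S θ)
    (hDW : A.D < A.q * A.w) (hWH : (A.q * A.w : ℤ) ≤ A.q * A.h)
    (hc : (U < 0 ∧ U + (A.q * A.w + A.sg) < A.D) ∨ (0 ≤ U ∧ U < A.D) ∨
      (A.D < U ∧ U + S < A.D - A.q * A.h)) : False := by
  have nPi : i ≠ A.p - T.t → θ + th A T.t ≠ A.D := by
    intro hi h
    apply hi
    have h1 := o.c.1.th
    rw [h1, ← th_add, ← th_p A] at h
    rcases lt_trichotomy (i + T.t) A.p with h2 | h2 | h2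
    · have := th_lt A h2; omega
    · omega
    · have := th_lt A h2; omega
  rcases hc with ⟨h0, h1⟩ | ⟨h0, h1⟩ | ⟨h0, h1⟩
  · rcases d.catA o hDW h0 h1 with ⟨hUm, hUW, hi⟩ | ⟨hi, -, hU⟩
    · have nP := nPi hi
      by_cases n2 : 2 * θ = th A T.t
      · exact Z_ppa d hsg hep o hDW hWH hUm hUW nP n2
      rcases o.v with hVm | hVp
      · rcases S_split o.qS with sN | sF | sE
        · exact A_smppn d hsg hep o hDW hWH hUm hUW hVm sN nP n2
        · exact A_smppF d hsg hep o hDW hWH hUm hUW hVm sF nP n2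
        · exact A_smppe d hsg hep o hDW hWH hUm hUW hVm (by linarith) (by linarith) nP n2
      · exact A_smppp d hsg hep o hDW hWH hUm hUW hVp nP n2
    · exact qcase_p d hsg hep o hi hU hDW hWH
  · obtain ⟨hUp, hUD, hi⟩ := d.catB o hDW h0 h1
    have nP := nPi hi
    by_cases n2 : 2 * θ = th A T.t
    · exact Z_ppb d hsg hep o hDW hWH hUp hUD nP n2
    rcases o.v with hVm | hVp
    · exact A_smppD d hsg hep o hDW hWH hUp hUD hVm nP n2
    · exact A_smppB d hsg hep o hDW hWH hUp hUD hVp nP n2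
  · obtain ⟨hDU, hVD, hi⟩ := d.catC o h0 h1
    have nP := nPi hi
    by_cases n2 : 2 * θ = th A T.t
    · exact Z_ppc d hsg hep o hDW hWH hDU hVD nP n2
    exact A_smppc d hsg hep o hDW hWH hDU hVD nP n2

theorem B_mpm {A : TAp} {T : A.Tie} {i U S θ : ℤ} (d : ST A T (-1))
    (hsg : A.sg = sgv true) (hep : T.ep = sgv false) (o : OC A T i U S θ)
    (hDW : A.D < A.q * A.w) (hWH : (A.q * A.w : ℤ) ≤ A.q * A.h)
    (hc : (U < 0 ∧ U + (A.q * A.w + A.sg) < A.D) ∨ (0 ≤ U ∧ U < A.D) ∨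
      (A.D < U ∧ U + S < A.D - A.q * A.h)) : False := by
  have nPi : i ≠ A.p - T.t → θ + th A T.t ≠ A.D := by
    intro hi h
    apply hi
    have h1 := o.c.1.th
    rw [h1, ← th_add, ← th_p A] at h
    rcases lt_trichotomy (i + T.t) A.p with h2 | h2 | h2
    · have := th_lt A h2; omega
    · omega
    · have := th_lt A h2; omega
  rcases hc with ⟨h0, h1⟩ | ⟨h0, h1⟩ | ⟨h0, h1⟩
  · rcases d.catA o hDW h0 h1 with ⟨hUm, hUW, hi⟩ | ⟨hi, -, hU⟩
    · have nP := nPi hi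
      by_cases n2 : 2 * θ = th A T.t
      · exact Z_pma d hsg hep o hDW hWH hUm hUW nP n2
      rcases o.v with hVm | hVp
      · rcases S_split o.qS with sN | sF | sE
        · exact A_smpmn d hsg hep o hDW hWH hUm hUW hVm sN nP n2
        · exact A_smpmF d hsg hep o hDW hWH hUm hUW hVm sF nP n2
        · exact A_smpme d hsg hep o hDW hWH hUm hUW hVm (by linarith) (by linarith) nP n2
      · exact A_smpmp d hsg hep o hDW hWH hUm hUW hVp nP n2
    · exact qcase_m d hsg hep o hi hU hDW hWH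
  · obtain ⟨hUp, hUD, hi⟩ := d.catB o hDW h0 h1
    have nP := nPi hi
    by_cases n2 : 2 * θ = th A T.t
    · exact Z_pmb d hsg hep o hDW hWH hUp hUD nP n2
    rcases o.v with hVm | hVp
    · exact A_smpmD d hsg hep o hDW hWH hUp hUD hVm nP n2
    · exact A_smpmB d hsg hep o hDW hWH hUp hUD hVp nP n2
  · obtain ⟨hDU, hVD, hi⟩ := d.catC o h0 h1
    have nP := nPi hi
    by_cases n2 : 2 * θ = th A T.t
    · exact Z_pmc d hsg hep o hDW hWH hDU hVD nP n2
    exact A_smpmc d hsg hep o hDW hWH hDU hVD nP n2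

theorem B_mmp {A : TAp} {T : A.Tie} {i U S θ : ℤ} (d : ST A T (1))
    (hsg : A.sg = sgv false) (hep : T.ep = sgv false) (o : OC A T i U S θ)
    (hDW : A.D < A.q * A.w) (hWH : (A.q * A.w : ℤ) ≤ A.q * A.h)
    (hc : (U < 0 ∧ U + (A.q * A.w + A.sg) < A.D) ∨ (0 ≤ U ∧ U < A.D) ∨
      (A.D < U ∧ U + S < A.D - A.q * A.h)) : False := by
  have nPi : i ≠ A.p - T.t → θ + th A T.t ≠ A.D := by
    intro hi h
    apply hi
    have h1 := o.c.1.th
    rw [h1, ← th_add, ← th_p A] at h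
    rcases lt_trichotomy (i + T.t) A.p with h2 | h2 | h2
    · have := th_lt A h2; omega
    · omega
    · have := th_lt A h2; omega
  rcases hc with ⟨h0, h1⟩ | ⟨h0, h1⟩ | ⟨h0, h1⟩
  · rcases d.catA o hDW h0 h1 with ⟨hUm, hUW, hi⟩ | ⟨hi, -, hU⟩
    · have nP := nPi hi
      by_cases n2 : 2 * θ = th A T.t
      · exact Z_mpa d hsg hep o hDW hWH hUm hUW nP n2
      rcases o.v with hVm | hVp
      · rcases S_split o.qS with sN | sF | sE
        · exact A_smmpn d hsg hep o hDW hWH hUm hUW hVm sN nP n2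
        · exact A_smmpF d hsg hep o hDW hWH hUm hUW hVm sF nP n2
        · exact A_smmpe d hsg hep o hDW hWH hUm hUW hVm (by linarith) (by linarith) nP n2
      · exact A_smmpp d hsg hep o hDW hWH hUm hUW hVp nP n2
    · exact qcase_p d hsg hep o hi hU hDW hWH
  · obtain ⟨hUp, hUD, hi⟩ := d.catB o hDW h0 h1
    have nP := nPi hi
    by_cases n2 : 2 * θ = th A T.t
    · exact Z_mpb d hsg hep o hDW hWH hUp hUD nP n2
    rcases o.v with hVm | hVp
    · exact A_smmpD d hsg hep o hDW hWH hUp hUD hVm nP n2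
    · exact A_smmpB d hsg hep o hDW hWH hUp hUD hVp nP n2
  · obtain ⟨hDU, hVD, hi⟩ := d.catC o h0 h1
    have nP := nPi hi
    by_cases n2 : 2 * θ = th A T.t
    · exact Z_mpc d hsg hep o hDW hWH hDU hVD nP n2
    exact A_smmpc d hsg hep o hDW hWH hDU hVD nP n2

theorem B_mmm {A : TAp} {T : A.Tie} {i U S θ : ℤ} (d : ST A T (-1))
    (hsg : A.sg = sgv false) (hep : T.ep = sgv false) (o : OC A T i U S θ)
    (hDW : A.D < A.q * A.w) (hWH : (A.q * A.w : ℤ) ≤ A.q * A.h)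
    (hc : (U < 0 ∧ U + (A.q * A.w + A.sg) < A.D) ∨ (0 ≤ U ∧ U < A.D) ∨
      (A.D < U ∧ U + S < A.D - A.q * A.h)) : False := by
  have nPi : i ≠ A.p - T.t → θ + th A T.t ≠ A.D := by
    intro hi h
    apply hi
    have h1 := o.c.1.th
    rw [h1, ← th_add, ← th_p A] at h
    rcases lt_trichotomy (i + T.t) A.p with h2 | h2 | h2
    · have := th_lt A h2; omega
    · omega
    · have := th_lt A h2; omega
  rcases hc with ⟨h0, h1⟩ | ⟨h0, h1⟩ | ⟨h0, h1⟩
  · rcases d.catA o hDW h0 h1 with ⟨hUm, hUW, hi⟩ | ⟨hi, -, hU⟩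
    · have nP := nPi hi
      by_cases n2 : 2 * θ = th A T.t
      · exact Z_mma d hsg hep o hDW hWH hUm hUW nP n2
      rcases o.v with hVm | hVp
      · rcases S_split o.qS with sN | sF | sE
        · exact A_smmmn d hsg hep o hDW hWH hUm hUW hVm sN nP n2
        · exact A_smmmF d hsg hep o hDW hWH hUm hUW hVm sF nP n2
        · exact A_smmme d hsg hep o hDW hWH hUm hUW hVm (by linarith) (by linarith) nP n2
      · exact A_smmmp d hsg hep o hDW hWH hUm hUW hVp nP n2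
    · exact qcase_m d hsg hep o hi hU hDW hWH
  · obtain ⟨hUp, hUD, hi⟩ := d.catB o hDW h0 h1
    have nP := nPi hi
    by_cases n2 : 2 * θ = th A T.t
    · exact Z_mmb d hsg hep o hDW hWH hUp hUD nP n2
    rcases o.v with hVm | hVp
    · exact A_smmmD d hsg hep o hDW hWH hUp hUD hVm nP n2
    · exact A_smmmB d hsg hep o hDW hWH hUp hUD hVp nP n2
  · obtain ⟨hDU, hVD, hi⟩ := d.catC o h0 h1
    have nP := nPi hi
    by_cases n2 : 2 * θ = th A T.t
    · exact Z_mmc d hsg hep o hDW hWH hDU hVD nP n2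
    exact A_smmmc d hsg hep o hDW hWH hDU hVD nP n2

theorem B_all {A : TAp} {T : A.Tie} {i U S θ sx : ℤ} (d : ST A T sx) (hx : sx = 1 ∨ sx = -1)
    (o : OC A T i U S θ) (hDW : A.D < A.q * A.w) (hWH : (A.q * A.w : ℤ) ≤ A.q * A.h)
    (hc : (U < 0 ∧ U + (A.q * A.w + A.sg) < A.D) ∨ (0 ≤ U ∧ U < A.D) ∨
      (A.D < U ∧ U + S < A.D - A.q * A.h)) : False := by
  rcases T.hep with he | he <;> rcases A.hsg with hs | hs <;> rcases hx with rfl | rfl
  · exact B_ppp d hs he o hDW hWH hc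
  · exact B_ppm d hs he o hDW hWH hc
  · exact B_pmp d hs he o hDW hWH hc
  · exact B_pmm d hs he o hDW hWH hc
  · exact B_mpp d hs he o hDW hWH hc
  · exact B_mpm d hs he o hDW hWH hc
  · exact B_mmp d hs he o hDW hWH hc
  · exact B_mmm d hs he o hDW hWH hc

/-- (SV) : thin or far overlapping classes, `d < w ≤ h` -/
theorem hSV {A : TAp} (T : A.Tie) (F : A.Fl) (hs : T.Single) (ht : T.t ≠ 1) (hx0 : T.x ≠ 0)
    (hx1 : |T.x| < A.h) : T.HSV := by
  intro hmd hwh i m f s o hc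
  have hq := A.q_pos'
  have hDW : A.D < A.q * A.w := by
    have h1 := A.D_lt
    have : (A.q : ℤ) * (A.md + 1) ≤ A.q * A.w := mul_le_mul_of_nonneg_left (by omega) hq.le
    omega
  have hWH : (A.q * A.w : ℤ) ≤ A.q * A.h :=
    mul_le_mul_of_nonneg_left (by exact_mod_cast hwh) hq.le
  rw [abs_lt] at hx1
  have f0 := o.1.2.2.1
  have f1 := o.1.2.2.2.1
  have key : ∀ sx : ℤ, (sx = 1 ∨ sx = -1) → 0 < sx * T.x → False := by
    intro sx hsx h0
    have d : ST A T sx := ⟨F, hs, ht, h0, by rcases hsx with h | h <;> rw [h] at h0 ⊢ <;> omega⟩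
    refine B_all d hsx (d.oc o) hDW hWH ?_
    have e1 : A.q * m + f + A.q * s = A.q * (m + s) + f := by ring
    rcases hc with ⟨h1, h2⟩ | ⟨h1, h2⟩ | ⟨h1, h2⟩
    · left
      refine ⟨?_, h2⟩
      have := mul_lt' hq f1 (show m < 0 from h1)
      rwa [mul_zero] at this
    · right; left
      refine ⟨?_, h2⟩
      have : 0 ≤ (A.q : ℤ) * m := mul_nonneg hq.le h1
      omega
    · right; right
      exact ⟨h1, by rw [e1]; exact h2⟩
  rcases lt_or_gt_of_ne hx0 with h | h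
  · exact key (-1) (Or.inr rfl) (by omega)
  · exact key 1 (Or.inl rfl) (by omega)

end Pool.Agent.H78.SV
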