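import Pool.Agent.H78.SV.Tri

/-!
# The triangle class of the tie itself

The rectangles of the index `0` and of the tie `t` are adjacent, two corners of the same sign lie
in a small triangle, so there is a third class with a corner of the other sign in it.
-/

namespace Pool.Agent.H78.SV

open Pool.Agent.H98.Flat
open Pool.Agent.H78.Tie
open Pool.Agent.H78.Tie.TAp
open Pool.Agent.H78.RT

variable {A : TAp}

theorem Idx.tie (T : A.Tie) :
    Idx A T.t (T.ep * (A.q * A.w + A.sg)) (A.q * (T.ep * (T.x - A.w))) :=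
  ⟨T.t0.le, T.tp, (Rec.tie T).1, (Rec.tie T).2.1⟩

theorem Idx.subs {j U S U' S' : ℤ} (h : Idx A j U S) (h' : Idx A j U' S') :
    NN A ∣ U' - U ∧ NN A ∣ S' - S := by
  obtain ⟨-, -, a1, s, hs, b1⟩ := h
  obtain ⟨-, -, a2, s', hs', b2⟩ := h'
  refine ⟨?_, ?_⟩
  · have := dvd_sub a1 a2
    rwa [sub_sub_sub_cancel_left] at this
  · obtain ⟨z, hz⟩ := b1
    obtain ⟨z', hz'⟩ := b2
    exact ⟨z - z', by rw [hs, hs']; unfold NN; linear_combination A.q * hz - A.q * hz'⟩

theorem Idx.eq_of {j j' U S U' S' : ℤ} (h : Idx A j U S) (h' : Idx A j' U' S')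
    (hU : NN A ∣ U' - U) : j' = j := by
  obtain ⟨a0, a1, a2, -⟩ := h
  obtain ⟨b0, b1, b2, -⟩ := h'
  by_contra hne
  have h1 := dvd_add (dvd_sub b2 a2) hU
  rw [show A.a * j' - U' - (A.a * j - U) + (U' - U) = A.a * (j' - j) by ring] at h1
  refine A.gen (j' - j) (by omega) ?_ ((dvd_mul_left (A.q : ℤ) A.p).trans h1)
  rw [abs_le]
  constructor <;> omega

theorem dvd_cases {n x : ℤ} (hn : 0 < n) (h : n ∣ x) : x ≤ -n ∨ x = 0 ∨ n ≤ x := by
  obtain ⟨z, rfl⟩ := h
  rcases lt_trichotomy z 0 with h | h | h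
  · left
    have : n * z ≤ n * (-1) := mul_le_mul_of_nonneg_left (by omega) hn.le
    omega
  · right; left; rw [h, mul_zero]
  · right; right
    have : n * 1 ≤ n * z := mul_le_mul_of_nonneg_left (by omega) hn.le
    omega

/-- the boxes for the third class at the tie -/
def TriBox (A : TAp) (T : A.Tie) (U S : ℤ) : Prop :=
  (T.ep = -1 → 0 < T.x →
    (2 ≤ U ∧ -(A.q * A.h : ℤ) ≤ S ∧ U + S ≤ -(A.q * T.x) - A.sg) ∨
    (-(A.q * A.w : ℤ) - A.sg + 2 ≤ U ∧ (A.q * A.w : ℤ) ≤ S ∧
      U + S ≤ A.q * A.h - A.q * T.x - A.sg)) ∧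
  (T.ep = -1 → T.x < 0 →
    (-(A.q * A.w : ℤ) - A.sg + 2 ≤ U ∧ (A.q * A.w : ℤ) - A.q * T.x - A.q * A.h ≤ S ∧
      U + S ≤ 0) ∨
    (2 ≤ U ∧ -(A.q * T.x) ≤ S ∧ U + S ≤ A.q * A.h)) ∧
  (T.ep = 1 → 0 < T.x →
    ((A.q * A.w : ℤ) + A.sg + 2 ≤ U ∧ A.q * T.x - A.q * A.w - A.q * A.h ≤ S ∧ U + S ≤ 0) ∨
    (2 ≤ U ∧ A.q * T.x ≤ S ∧ U + S ≤ A.q * A.h)) ∧
  (T.ep = 1 → T.x < 0 →
    (2 ≤ U ∧ -(A.q * A.h : ℤ) ≤ S ∧ U + S ≤ A.q * T.x + A.sg) ∨
    ((A.q * A.w : ℤ) + A.sg + 2 ≤ U ∧ -(A.q * A.w : ℤ) ≤ S ∧
      U + S ≤ A.q * A.h + A.q * T.x + A.sg))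

/-- **the third class at a tie** -/
theorem triT (F : A.Fl) (T : A.Tie) (hx0 : T.x ≠ 0) (hx1 : |T.x| < A.h)
    (hw : T.x < 0 → (A.h : ℤ) + T.x < A.w) :
    ∃ j U S, IsC A j U S (th A j) ∧ j ≠ T.t ∧ TriBox A T U S := by
  have hp := A.p_pos'
  have hq := A.q_pos'
  have hN := NN_pos A
  have hH := H2 A
  have hW := W2 A
  have hq6 := q6 A
  have hNH := NH A
  have hNW := NW A
  have hk := A.k0_cases
  have p4 : (4 : ℤ) ≤ A.p := by have := A.w2; have := A.hw; omega
  rw [abs_lt] at hx1
  have X1 : A.q * T.x + A.q ≤ A.q * A.h := by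
    have := mul_le_mul_of_nonneg_left (show T.x + 1 ≤ A.h by omega) hq.le
    rwa [mul_add, mul_one] at this
  have X2 : -(A.q * A.h : ℤ) + A.q ≤ A.q * T.x := by
    have := mul_le_mul_of_nonneg_left (show -(A.h : ℤ) + 1 ≤ T.x by omega) hq.le
    rwa [mul_add, mul_one, mul_neg] at this
  have hT := Idx.tie T
  have T0 := T.t0
  have Tp := T.tp
  have hpw := A.hpw
  have key : ∀ {j : ℤ}, j ≠ 0 → ∀ {U S : ℤ}, Idx A j U S → U ≠ 0 := by
    rintro j hj U S hI rfl
    exact (hI.isC hj _ (th_eq A j)).nd (dvd_zero _)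
  have key2 : ∀ {j U S : ℤ}, j ≠ T.t → Idx A j U S → U - T.ep * (A.q * A.w + A.sg) ≠ 0 := by
    intro j U S hj hI h0
    exact hj (hT.eq_of hI (by rw [h0]; exact dvd_zero _))
  rcases T.hep with he | he
  · -- `ep = 1`
    rw [he] at hT
    simp only [he, one_mul] at key2
    have hS : A.q * (1 * (T.x - A.w)) = A.q * T.x - A.q * A.w := by ring
    rw [hS, one_mul] at hT
    rcases lt_or_gt_of_ne hx0 with hx | hx
    · -- `x < 0`
      have X3 : A.q * T.x + A.q ≤ 0 := by
        have := mul_le_mul_of_nonneg_left (show T.x + 1 ≤ 0 by omega) hq.le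
        rwa [mul_add, mul_one, mul_zero] at this
      have X4 : A.q * A.h + A.q * T.x + A.q ≤ A.q * A.w := by
        have := mul_le_mul_of_nonneg_left (show (A.h : ℤ) + T.x + 1 ≤ A.w by
          have := hw hx; omega) hq.le
        rwa [mul_add, mul_add, mul_one] at this
      have hY : A.q * (-(A.w : ℤ) - A.h) = -(A.q * A.w) - A.q * A.h := by ring
      obtain ⟨i, i0, i1, hi⟩ := tri_pos F (u := A.q * A.w + A.sg + 1 - A.k0)
        (v := A.q * T.x + A.sg) (Y := -(A.w : ℤ) - A.h)
        (by rw [show (A.q : ℤ) * A.w + A.sg + 1 - A.k0 - 1 + A.k0 = A.q * A.w + A.sg by ring]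
            exact hpw)
        (by rw [hY]; omega) (by rw [hY]; omega) (j := 0) (j' := T.t) ⟨le_refl _, hp⟩
        ⟨T0.le, Tp⟩
        (Or.inl ⟨by omega,
          Or.inr ⟨0, 0, Idx.zero A, by omega, by rw [hY]; omega, by omega⟩,
          Or.inl ⟨_, _, hT, by rw [mul_zero]; omega, by rw [hY, mul_zero]; omega,
            by rw [mul_zero]; omega⟩⟩)
      rw [hY] at hi
      rcases hi with ⟨U', S', hI, c1, c2, c3⟩ | ⟨U', S', hI, c1, c2, c3⟩
      · rw [mul_zero] at c2 c3
        have n0 : i ≠ 0 := by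
          rintro rfl
          obtain ⟨d1, d2⟩ := hI.zero_dvd
          rcases dvd_cases hN d1 with e1 | e1 | e1 <;> rcases dvd_cases hN d2 with e2 | e2 | e2 <;>
            omega
        have nt : i ≠ T.t := by
          rintro rfl
          obtain ⟨d1, d2⟩ := hT.subs hI
          rcases dvd_cases hN d1 with e1 | e1 | e1 <;> rcases dvd_cases hN d2 with e2 | e2 | e2 <;>
            omega
        have nU := key n0 hI
        refine ⟨i, U', S', hI.isC n0 _ (th_eq A i), nt, ?_, ?_, ?_, ?_⟩
        · intro h; omega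
        · intro h; omega
        · intro _ h; omega
        · intro _ _
          left
          refine ⟨?_, by omega, by omega⟩
          rcases dvd_cases hp hI.dvd with e | e | e <;> omega
      · rw [mul_zero] at c1 c2
        have n0 : i ≠ 0 := by
          rintro rfl
          obtain ⟨d1, d2⟩ := hI.zero_dvd
          rcases dvd_cases hN d1 with e1 | e1 | e1 <;> rcases dvd_cases hN d2 with e2 | e2 | e2 <;>
            omega
        have nt : i ≠ T.t := by
          rintro rfl
          obtain ⟨d1, d2⟩ := hT.subs hI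
          rcases dvd_cases hN d1 with e1 | e1 | e1 <;> rcases dvd_cases hN d2 with e2 | e2 | e2 <;>
            omega
        have nU := key2 nt hI
        refine ⟨i, U', S', hI.isC n0 _ (th_eq A i), nt, ?_, ?_, ?_, ?_⟩
        · intro h; omega
        · intro h; omega
        · intro _ h; omega
        · intro _ _
          right
          refine ⟨?_, by omega, by omega⟩
          have hd := dvd_sub hI.dvd hpw
          rcases dvd_cases hp hd with e | e | e <;> omega
    · -- `x > 0`
      have X3 : (A.q : ℤ) ≤ A.q * T.x := by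
        have := mul_le_mul_of_nonneg_left (show 1 ≤ T.x by omega) hq.le
        rwa [mul_one] at this
      have hY : A.q * (T.x - A.w - A.h) = A.q * T.x - A.q * A.w - A.q * A.h := by ring
      obtain ⟨i, i0, i1, hi⟩ := tri_neg F (u := A.q * A.w + A.sg + 1 - A.k0)
        (v := 0) (Y := T.x - A.w - A.h)
        (by rw [show (A.q : ℤ) * A.w + A.sg + 1 - A.k0 - 1 + A.k0 = A.q * A.w + A.sg by ring]
            exact hpw)
        (by rw [hY]; omega) (by rw [hY]; omega) (j := 0) (j' := T.t) ⟨le_refl _, hp⟩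
        ⟨T0.le, Tp⟩
        (Or.inl ⟨by omega,
          Or.inl ⟨0, 0, Idx.zero A, by omega, by rw [hY, mul_zero]; omega,
            by rw [mul_zero]; omega⟩,
          Or.inr ⟨_, _, hT, by rw [mul_zero]; omega, by rw [hY, mul_zero]; omega,
            by omega⟩⟩)
      rw [hY] at hi
      rcases hi with ⟨U', S', hI, c1, c2, c3⟩ | ⟨U', S', hI, c1, c2, c3⟩
      · rw [mul_zero] at c1 c2 c3
        have n0 : i ≠ 0 := by
          rintro rfl
          obtain ⟨d1, d2⟩ := hI.zero_dvd
          rcases dvd_cases hN d1 with e1 | e1 | e1 <;> rcases dvd_cases hN d2 with e2 | e2 | e2 <;>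
            omega
        have nt : i ≠ T.t := by
          rintro rfl
          obtain ⟨d1, d2⟩ := hT.subs hI
          rcases dvd_cases hN d1 with e1 | e1 | e1 <;> rcases dvd_cases hN d2 with e2 | e2 | e2 <;>
            omega
        have nU := key2 nt hI
        refine ⟨i, U', S', hI.isC n0 _ (th_eq A i), nt, ?_, ?_, ?_, ?_⟩
        · intro h; omega
        · intro h; omega
        · intro _ _
          left
          refine ⟨?_, by omega, by omega⟩
          have hd := dvd_sub hI.dvd hpw
          rcases dvd_cases hp hd with e | e | e <;> omega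
        · intro _ h; omega
      · have n0 : i ≠ 0 := by
          rintro rfl
          obtain ⟨d1, d2⟩ := hI.zero_dvd
          rcases dvd_cases hN d1 with e1 | e1 | e1 <;> rcases dvd_cases hN d2 with e2 | e2 | e2 <;>
            omega
        have nt : i ≠ T.t := by
          rintro rfl
          obtain ⟨d1, d2⟩ := hT.subs hI
          rcases dvd_cases hN d1 with e1 | e1 | e1 <;> rcases dvd_cases hN d2 with e2 | e2 | e2 <;>
            omega
        have nU := key n0 hI
        refine ⟨i, U', S', hI.isC n0 _ (th_eq A i), nt, ?_, ?_, ?_, ?_⟩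
        · intro h; omega
        · intro h; omega
        · intro _ _
          right
          refine ⟨?_, by omega, by omega⟩
          rcases dvd_cases hp hI.dvd with e | e | e <;> omega
        · intro _ h; omega
  · -- `ep = -1`
    rw [he] at hT
    simp only [he] at key2
    have hS : A.q * (-1 * (T.x - A.w)) = A.q * A.w - A.q * T.x := by ring
    have hU0 : -1 * ((A.q : ℤ) * A.w + A.sg) = -(A.q * A.w) - A.sg := by ring
    rw [hS, hU0] at hT
    simp only [hU0] at key2
    rcases lt_or_gt_of_ne hx0 with hx | hx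
    · -- `x < 0`
      have X3 : A.q * T.x + A.q ≤ 0 := by
        have := mul_le_mul_of_nonneg_left (show T.x + 1 ≤ 0 by omega) hq.le
        rwa [mul_add, mul_one, mul_zero] at this
      have X4 : A.q * A.h + A.q * T.x + A.q ≤ A.q * A.w := by
        have := mul_le_mul_of_nonneg_left (show (A.h : ℤ) + T.x + 1 ≤ A.w by
          have := hw hx; omega) hq.le
        rwa [mul_add, mul_add, mul_one] at this
      have hY : A.q * (-T.x - A.h) = -(A.q * T.x) - A.q * A.h := by ring
      obtain ⟨i, i0, i1, hi⟩ := tri_pos F (u := 1 - A.k0)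
        (v := 0) (Y := -T.x - A.h) ⟨0, by ring⟩
        (by rw [hY]; omega) (by rw [hY]; omega) (j := 0) (j' := T.t) ⟨le_refl _, hp⟩
        ⟨T0.le, Tp⟩
        (Or.inl ⟨by omega,
          Or.inl ⟨0, 0, Idx.zero A, by rw [mul_zero]; omega, by rw [hY, mul_zero]; omega,
            by rw [mul_zero]; omega⟩,
          Or.inr ⟨_, _, hT, by omega, by rw [hY]; omega, by omega⟩⟩)
      rw [hY] at hi
      rcases hi with ⟨U', S', hI, c1, c2, c3⟩ | ⟨U', S', hI, c1, c2, c3⟩
      · rw [mul_zero] at c2 c3
        have n0 : i ≠ 0 := by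
          rintro rfl
          obtain ⟨d1, d2⟩ := hI.zero_dvd
          rcases dvd_cases hN d1 with e1 | e1 | e1 <;> rcases dvd_cases hN d2 with e2 | e2 | e2 <;>
            omega
        have nt : i ≠ T.t := by
          rintro rfl
          obtain ⟨d1, d2⟩ := hT.subs hI
          rcases dvd_cases hN d1 with e1 | e1 | e1 <;> rcases dvd_cases hN d2 with e2 | e2 | e2 <;>
            omega
        have nU := key2 nt hI
        refine ⟨i, U', S', hI.isC n0 _ (th_eq A i), nt, ?_, ?_, ?_, ?_⟩
        · intro _ h; omega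
        · intro _ _
          left
          refine ⟨?_, by omega, by omega⟩
          have hd := dvd_add hI.dvd hpw
          rcases dvd_cases hp hd with e | e | e <;> omega
        · intro h; omega
        · intro h; omega
      · rw [mul_zero] at c1 c2
        have n0 : i ≠ 0 := by
          rintro rfl
          obtain ⟨d1, d2⟩ := hI.zero_dvd
          rcases dvd_cases hN d1 with e1 | e1 | e1 <;> rcases dvd_cases hN d2 with e2 | e2 | e2 <;>
            omega
        have nt : i ≠ T.t := by
          rintro rfl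
          obtain ⟨d1, d2⟩ := hT.subs hI
          rcases dvd_cases hN d1 with e1 | e1 | e1 <;> rcases dvd_cases hN d2 with e2 | e2 | e2 <;>
            omega
        have nU := key n0 hI
        refine ⟨i, U', S', hI.isC n0 _ (th_eq A i), nt, ?_, ?_, ?_, ?_⟩
        · intro _ h; omega
        · intro _ _
          right
          refine ⟨?_, by omega, by omega⟩
          rcases dvd_cases hp hI.dvd with e | e | e <;> omega
        · intro h; omega
        · intro h; omega
    · -- `x > 0`
      have X3 : (A.q : ℤ) ≤ A.q * T.x := by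
        have := mul_le_mul_of_nonneg_left (show 1 ≤ T.x by omega) hq.le
        rwa [mul_one] at this
      have hY : A.q * (-(A.h : ℤ)) = -(A.q * A.h) := by ring
      obtain ⟨i, i0, i1, hi⟩ := tri_neg F (u := 1 - A.k0)
        (v := -(A.q * T.x) - A.sg) (Y := -(A.h : ℤ)) ⟨0, by ring⟩
        (by rw [hY]; omega) (by rw [hY]; omega) (j := 0) (j' := T.t) ⟨le_refl _, hp⟩
        ⟨T0.le, Tp⟩
        (Or.inl ⟨by omega,
          Or.inr ⟨0, 0, Idx.zero A, by rw [mul_zero]; omega, by rw [hY, mul_zero]; omega,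
            by omega⟩,
          Or.inl ⟨_, _, hT, by omega, by rw [hY, mul_zero]; omega,
            by rw [mul_zero]; omega⟩⟩)
      rw [hY] at hi
      rcases hi with ⟨U', S', hI, c1, c2, c3⟩ | ⟨U', S', hI, c1, c2, c3⟩
      · rw [mul_zero] at c1 c2 c3
        have n0 : i ≠ 0 := by
          rintro rfl
          obtain ⟨d1, d2⟩ := hI.zero_dvd
          rcases dvd_cases hN d1 with e1 | e1 | e1 <;> rcases dvd_cases hN d2 with e2 | e2 | e2 <;>
            omega
        have nt : i ≠ T.t := by
          rintro rfl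
          obtain ⟨d1, d2⟩ := hT.subs hI
          rcases dvd_cases hN d1 with e1 | e1 | e1 <;> rcases dvd_cases hN d2 with e2 | e2 | e2 <;>
            omega
        have nU := key n0 hI
        refine ⟨i, U', S', hI.isC n0 _ (th_eq A i), nt, ?_, ?_, ?_, ?_⟩
        · intro _ _
          left
          refine ⟨?_, by omega, by omega⟩
          rcases dvd_cases hp hI.dvd with e | e | e <;> omega
        · intro _ h; omega
        · intro h; omega
        · intro h; omega
      · have n0 : i ≠ 0 := by
          rintro rfl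
          obtain ⟨d1, d2⟩ := hI.zero_dvd
          rcases dvd_cases hN d1 with e1 | e1 | e1 <;> rcases dvd_cases hN d2 with e2 | e2 | e2 <;>
            omega
        have nt : i ≠ T.t := by
          rintro rfl
          obtain ⟨d1, d2⟩ := hT.subs hI
          rcases dvd_cases hN d1 with e1 | e1 | e1 <;> rcases dvd_cases hN d2 with e2 | e2 | e2 <;>
            omega
        have nU := key2 nt hI
        refine ⟨i, U', S', hI.isC n0 _ (th_eq A i), nt, ?_, ?_, ?_, ?_⟩
        · intro _ _
          right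
          refine ⟨?_, by omega, by omega⟩
          have hd := dvd_add hI.dvd hpw
          rcases dvd_cases hp hd with e | e | e <;> omega
        · intro _ h; omega
        · intro h; omega
        · intro h; omega

end Pool.Agent.H78.SV
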