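import Pool.Agent.H78.RT.Inst

/-!
# Static data of the trees for single ties

Environment `v = [N, W, H, D, X, T, q, ...]` with `X = q x`, `T = θ_t`.
-/

namespace Pool.Agent.H78.SV

open Pool.Agent.H78.RT
open Pool.Agent.H81.AP (LF)

/-- record of the tie `t` -/
def rT (sg ep : Int) : LR := ⟨[ep * sg, 0, ep], [0, 0, -ep, 0, 0, ep], [0, 0, 0, 0, 0, 0, 1]⟩

/-- record of the index `p` -/
def rP : LR := ⟨[0, 0, 0, 0, 1], [], [0, 0, 0, 0, 1]⟩

/-- the inequalities which always hold; `sx` is the sign of `x` -/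
def G0 (sg ep sx : Int) : List LF :=
  [[0, 0, 0, 1, 0, -sx, 0, -1],
   [0, 0, 0, 0, 0, sx, 0, -1],
   [-1, 0, 0, 0, 1, 0, -1],
   [-(ep * sg), 0, 0, 0, 0, 0, 1, -1],
   [-2, 1, 0, 0, -2, 0, 0, 1],
   [0, 1, 0, -2, 0, 0, 0, -1],
   [0, 1, -2, 0, 0, 0, 0, -1],
   [0, 0, 0, 1, 0, 0, 0, -2],
   [0, 0, 1, 0, 0, 0, 0, -2],
   [-6, 0, 0, 0, 0, 0, 0, 1]]

def sgv (sp : Bool) : Int := match sp with | true => 1 | false => -1

/-- `-F - q` -/
def ngq (F : LF) : LF := Pool.Agent.H81.AP.add (Pool.Agent.H81.AP.smul (-1) F)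
  [0, 0, 0, 0, 0, 0, 0, -1]

def bT (ep : Bool) : LB := match ep with
  | true => ⟨none, some [0, 0, 0, 0, 0, 0, 1]⟩
  | false => ⟨some [0, 0, 0, 0, 1, 0, -1], none⟩

/-- static data of a tree: extra classes `J`, extra inequalities `g`, nonzero forms `ne`,
multiples of `q` : `la` -/
def mkS (sp ep : Bool) (sx : Int) (J : List LR) (g ne la : List LF) : Dat where
  sp := sp
  ov := false
  L := bT ep
  R := bT (!ep)
  B := rT (sgv sp) (sgv ep) :: (J ++ [rP])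
  C := rT (sgv sp) (sgv ep) :: J
  N := ne
  O := la.map fun F => [F, ngq F]
  E := []
  G := g ++ G0 (sgv sp) (sgv ep) sx

end Pool.Agent.H78.SV
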