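import Pool.Agent.H78.SV.TriT

/-!
# Net counts of the classes in a visible triangle

Counting the corners of a triangle class by class: if two classes contribute `-1` each, then a
third class contributes `+1`, and this gives a strip condition for its row.
-/

namespace Pool.Agent.H78.SV

open Finset
open Pool.Agent.H98.Flat
open Pool.Agent.H78.Tie
open Pool.Agent.H78.Tie.TAp
open Pool.Agent.H78.RT

variable {A : TAp}

theorem Idx.shift {j U S : ℤ} (h : Idx A j U S) (z z' : ℤ) :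
    Idx A j (U + z * NN A) (S + z' * NN A) := by
  obtain ⟨a0, a1, a2, s, hs, a3⟩ := h
  obtain ⟨x, hx⟩ := a2
  obtain ⟨x', hx'⟩ := a3
  refine ⟨a0, a1, ⟨x - z, ?_⟩, s + z' * A.p, ?_, ⟨x' - z', ?_⟩⟩
  · linear_combination hx
  · rw [hs]; unfold NN; ring
  · linear_combination hx'

theorem Idx.shiftN {j U S : ℤ} (h : Idx A j U S) (z z' : ℤ) {U' S' : ℤ}
    (hU : U' = U + z * NN A) (hS : S' = S + z' * NN A) : Idx A j U' S' := by
  rw [hU, hS]; exact h.shift z z'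

/-- net contribution `≤ -1` -/
def NetNeg (A : TAp) (u y v j : ℤ) : Prop :=
  ((Cn A u y v A.w 0 j ∨ Cn A u y v 0 A.h j) ∧ ¬ Cn A u y v 0 0 j ∧ ¬ Cn A u y v A.w A.h j) ∨
  (Cn A u y v A.w 0 j ∧ Cn A u y v 0 A.h j ∧ ¬ (Cn A u y v 0 0 j ∧ Cn A u y v A.w A.h j))

/-- net contribution `≥ 1` -/
def NetPos (A : TAp) (u y v j : ℤ) : Prop :=
  ((Cn A u y v 0 0 j ∨ Cn A u y v A.w A.h j) ∧ ¬ Cn A u y v A.w 0 j ∧ ¬ Cn A u y v 0 A.h j) ∨
  (Cn A u y v 0 0 j ∧ Cn A u y v A.w A.h j ∧ ¬ (Cn A u y v A.w 0 j ∧ Cn A u y v 0 A.h j))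

/-- boxes for a class with net contribution `≥ 1` -/
def PosBox (A : TAp) (u y v U S : ℤ) : Prop :=
  (u ≤ U ∧ y ≤ S ∧ S < y + A.q * A.w ∧ U + S ≤ v) ∨
  (u ≤ U + A.q * A.w ∧ U < u ∧ y + A.q * A.w + A.q * A.h ≤ S ∧ v < U + S ∧
    U + S ≤ v + A.q * A.h)

/-- boxes for a class with net contribution `≤ -1` -/
def NegBox (A : TAp) (u y v U S : ℤ) : Prop :=
  (u ≤ U + A.q * A.w ∧ U < u ∧ y + A.q * A.w ≤ S ∧ S < y + A.q * A.w + A.q * A.h ∧
    U + S ≤ v) ∨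
  (u ≤ U ∧ y + A.q * A.h ≤ S ∧ S < y + A.q * A.w + A.q * A.h ∧ U + S ≤ v + A.q * A.h)

/-- a corner in the triangle -/
theorem cn_of {u y v a b j U S : ℤ} (h : Idx A j U S) (h1 : u ≤ U + A.q * a)
    (h2 : y ≤ S - A.q * a - A.q * b) (h3 : U + S - A.q * b ≤ v) : Cn A u y v a b j :=
  ⟨U, S, h, h1, h2, h3⟩

/-- a corner which is not in the triangle: one of the three distances is negative, but not
too much -/
theorem not_cn {u y v a b j U S : ℤ} (h : Idx A j U S)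
    (hc : (U + A.q * a < u ∧ v - y - NN A < U + A.q * a) ∨
      (S - A.q * a - A.q * b < y ∧ v - u - NN A < S - A.q * a - A.q * b) ∨
      (v < U + S - A.q * b ∧ U + S - A.q * b < u + y + NN A)) : ¬ Cn A u y v a b j := by
  rintro ⟨U', S', h', c1, c2, c3⟩
  have hN := NN_pos A
  obtain ⟨d1, d2⟩ := h.subs h'
  have dV : NN A ∣ (U' + S') - (U + S) := by
    have := dvd_add d1 d2
    rwa [show U' - U + (S' - S) = (U' + S') - (U + S) by ring] at this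
  generalize A.q * a = qa at *
  generalize A.q * b = qb at *
  rcases hc with ⟨e1, e2⟩ | ⟨e1, e2⟩ | ⟨e1, e2⟩
  · rcases dvd_cases hN d1 with f | f | f <;> omega
  · rcases dvd_cases hN d2 with f | f | f <;> omega
  · rcases dvd_cases hN dV with f | f | f <;> omega

theorem posBox_of {u y v i : ℤ} (h1 : v - u - y < NN A)
    (h : NetPos A u y v i) : ∃ U S, Idx A i U S ∧ PosBox A u y v U S := by
  have hN := NN_pos A
  have hH := H2 A
  have hW := W2 A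
  have hq := q6 A
  have hNH := NH A
  have hNW := NW A
  by_cases hUL : Cn A u y v 0 0 i
  · obtain ⟨U, S, hI, c1, c2, c3⟩ := id hUL
    rw [mul_zero] at c1 c2 c3
    refine ⟨U, S, hI, ?_⟩
    by_cases hS : S < y + A.q * A.w
    · left
      refine ⟨by omega, by omega, hS, by omega⟩
    exfalso
    have hUR : Cn A u y v A.w 0 i :=
      ⟨U, S, hI, by omega, by rw [mul_zero]; omega, by rw [mul_zero]; omega⟩
    rcases h with ⟨-, h2, -⟩ | ⟨-, hLR, hno⟩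
    · exact h2 hUR
    have hLL : ¬ Cn A u y v 0 A.h i := fun h => hno ⟨hUR, h⟩
    have hSH : S < y + A.q * A.h := by
      by_contra hc
      exact hLL ⟨U, S, hI, by rw [mul_zero]; omega, by rw [mul_zero]; omega, by omega⟩
    obtain ⟨U2, S2, hI2, d1, d2, d3⟩ := hLR
    obtain ⟨e1, e2⟩ := hI.subs hI2
    have f2 : NN A ≤ S2 - S := by
      rcases dvd_cases hN e2 with f | f | f
      · omega
      · omega
      · exact f
    rcases le_or_gt U U2 with hU | hU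
    · apply hLL
      refine ⟨U, S + NN A, hI.shiftN 0 1 (by ring) (by ring), by rw [mul_zero]; omega,
        by rw [mul_zero]; omega, by omega⟩
    · have f1 : U2 - U ≤ -NN A := by
        rcases dvd_cases hN e1 with f | f | f
        · exact f
        · omega
        · omega
      omega
  · have hLR : Cn A u y v A.w A.h i ∧ ¬ Cn A u y v A.w 0 i ∧ ¬ Cn A u y v 0 A.h i := by
      rcases h with ⟨h1 | h1, h2, h3⟩ | ⟨h1, -⟩
      · exact absurd h1 hUL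
      · exact ⟨h1, h2, h3⟩
      · exact absurd h1 hUL
    obtain ⟨⟨U, S, hI, c1, c2, c3⟩, n1, n2⟩ := hLR
    refine ⟨U, S, hI, Or.inr ⟨by omega, ?_, by omega, ?_, by omega⟩⟩
    · by_contra hc
      exact n2 ⟨U, S, hI, by rw [mul_zero]; omega, by rw [mul_zero]; omega, by omega⟩
    · by_contra hc
      exact n1 ⟨U, S, hI, by omega, by rw [mul_zero]; omega, by rw [mul_zero]; omega⟩

theorem negBox_of {u y v i : ℤ} (h1 : v - u - y < NN A)
    (h : NetNeg A u y v i) : ∃ U S, Idx A i U S ∧ NegBox A u y v U S := by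
  have hN := NN_pos A
  have hH := H2 A
  have hW := W2 A
  have hq := q6 A
  have hNH := NH A
  have hNW := NW A
  by_cases hLL : Cn A u y v 0 A.h i
  · obtain ⟨U, S, hI, c1, c2, c3⟩ := id hLL
    rw [mul_zero] at c1 c2
    refine ⟨U, S, hI, ?_⟩
    by_cases hS : S < y + A.q * A.w + A.q * A.h
    · right
      refine ⟨by omega, by omega, hS, by omega⟩
    exfalso
    have hLR : Cn A u y v A.w A.h i := ⟨U, S, hI, by omega, by omega, by omega⟩
    rcases h with ⟨-, -, h2⟩ | ⟨hUR, -, hno⟩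
    · exact h2 hLR
    have hUL : ¬ Cn A u y v 0 0 i := fun h => hno ⟨h, hLR⟩
    have hV : v < U + S := by
      by_contra hc
      exact hUL ⟨U, S, hI, by rw [mul_zero]; omega, by rw [mul_zero]; omega,
        by rw [mul_zero]; omega⟩
    obtain ⟨U2, S2, hI2, d1, d2, d3⟩ := hUR
    rw [mul_zero] at d2 d3
    obtain ⟨e1, e2⟩ := hI.subs hI2
    rcases le_or_gt U U2 with hU | hU
    · have f2 : S2 - S ≤ -NN A := by
        rcases dvd_cases hN e2 with f | f | f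
        · exact f
        · omega
        · omega
      apply hUL
      refine ⟨U, S - NN A, hI.shiftN 0 (-1) (by ring) (by ring), by rw [mul_zero]; omega,
        by rw [mul_zero]; omega, by rw [mul_zero]; omega⟩
    · have f1 : U2 - U ≤ -NN A := by
        rcases dvd_cases hN e1 with f | f | f
        · exact f
        · omega
        · omega
      omega
  · have hUR : Cn A u y v A.w 0 i ∧ ¬ Cn A u y v 0 0 i ∧ ¬ Cn A u y v A.w A.h i := by
      rcases h with ⟨h1 | h1, h2, h3⟩ | ⟨-, h1, -⟩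
      · exact ⟨h1, h2, h3⟩
      · exact absurd h1 hLL
      · exact absurd h1 hLL
    obtain ⟨⟨U, S, hI, c1, c2, c3⟩, n1, n2⟩ := hUR
    rw [mul_zero] at c2 c3
    refine ⟨U, S, hI, Or.inl ⟨by omega, ?_, by omega, ?_, by omega⟩⟩
    · by_contra hc
      exact n1 ⟨U, S, hI, by rw [mul_zero]; omega, by rw [mul_zero]; omega,
        by rw [mul_zero]; omega⟩
    · by_contra hc
      exact n2 ⟨U, S, hI, by omega, by omega, by omega⟩

/-- the net contribution of a row -/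
noncomputable def netv (A : TAp) (u v Y k : ℤ) : ℤ :=
  (vis (A.cfg 0).N A.q A.p ((A.cfg 0).U k + A.q * 0) ((A.cfg 0).V k - A.q * 0) (k - 0 - 0) u v Y
    + vis (A.cfg 0).N A.q A.p ((A.cfg 0).U k + A.q * A.w)
        ((A.cfg 0).V k - A.q * A.h) (k - A.w - A.h) u v Y) -
  (vis (A.cfg 0).N A.q A.p ((A.cfg 0).U k + A.q * A.w)
        ((A.cfg 0).V k - A.q * 0) (k - A.w - 0) u v Y
    + vis (A.cfg 0).N A.q A.p ((A.cfg 0).U k + A.q * 0)
        ((A.cfg 0).V k - A.q * A.h) (k - 0 - A.h) u v Y)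

theorem Fint_net (A : TAp) (u v Y : ℤ) :
    (A.cfg 0).Fint u v Y = ∑ k ∈ range A.p, netv A u v Y k := by
  rw [Fint_vis, ← Finset.sum_sub_distrib]
  rfl

theorem netv_pos {u v Y : ℤ} (h0 : 0 ≤ v - u - A.q * Y) (h1 : v - u - A.q * Y < NN A)
    {k j : ℤ} (j0 : 0 ≤ j) (j1 : j < A.p) (hk : (A.p : ℤ) ∣ A.e * j - k) :
    1 ≤ netv A u v Y k ↔ NetPos A u (A.q * Y) v j := by
  unfold netv NetPos
  have a1 := vis_cn h0 h1 (a := 0) (b := 0) j0 j1 hk
  have a2 := vis_cn h0 h1 (a := A.w) (b := A.h) j0 j1 hk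
  have a3 := vis_cn h0 h1 (a := A.w) (b := 0) j0 j1 hk
  have a4 := vis_cn h0 h1 (a := 0) (b := A.h) j0 j1 hk
  rw [← a1, ← a2, ← a3, ← a4]
  rcases vis_01 (A.cfg 0).N A.q A.p ((A.cfg 0).U k + A.q * 0) ((A.cfg 0).V k - A.q * 0)
      (k - 0 - 0) u v Y with b1 | b1 <;>
  rcases vis_01 (A.cfg 0).N A.q A.p ((A.cfg 0).U k + A.q * A.w)
        ((A.cfg 0).V k - A.q * A.h) (k - A.w - A.h) u v Y with b2 | b2 <;>
  rcases vis_01 (A.cfg 0).N A.q A.p ((A.cfg 0).U k + A.q * A.w)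
        ((A.cfg 0).V k - A.q * 0) (k - A.w - 0) u v Y with b3 | b3 <;>
  rcases vis_01 (A.cfg 0).N A.q A.p ((A.cfg 0).U k + A.q * 0)
        ((A.cfg 0).V k - A.q * A.h) (k - 0 - A.h) u v Y with b4 | b4 <;>
  rw [b1, b2, b3, b4] <;> norm_num

theorem netv_neg {u v Y : ℤ} (h0 : 0 ≤ v - u - A.q * Y) (h1 : v - u - A.q * Y < NN A)
    {k j : ℤ} (j0 : 0 ≤ j) (j1 : j < A.p) (hk : (A.p : ℤ) ∣ A.e * j - k) :
    netv A u v Y k ≤ -1 ↔ NetNeg A u (A.q * Y) v j := by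
  unfold netv NetNeg
  have a1 := vis_cn h0 h1 (a := 0) (b := 0) j0 j1 hk
  have a2 := vis_cn h0 h1 (a := A.w) (b := A.h) j0 j1 hk
  have a3 := vis_cn h0 h1 (a := A.w) (b := 0) j0 j1 hk
  have a4 := vis_cn h0 h1 (a := 0) (b := A.h) j0 j1 hk
  rw [← a1, ← a2, ← a3, ← a4]
  rcases vis_01 (A.cfg 0).N A.q A.p ((A.cfg 0).U k + A.q * 0) ((A.cfg 0).V k - A.q * 0)
      (k - 0 - 0) u v Y with b1 | b1 <;>
  rcases vis_01 (A.cfg 0).N A.q A.p ((A.cfg 0).U k + A.q * A.w)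
        ((A.cfg 0).V k - A.q * A.h) (k - A.w - A.h) u v Y with b2 | b2 <;>
  rcases vis_01 (A.cfg 0).N A.q A.p ((A.cfg 0).U k + A.q * A.w)
        ((A.cfg 0).V k - A.q * 0) (k - A.w - 0) u v Y with b3 | b3 <;>
  rcases vis_01 (A.cfg 0).N A.q A.p ((A.cfg 0).U k + A.q * 0)
        ((A.cfg 0).V k - A.q * A.h) (k - 0 - A.h) u v Y with b4 | b4 <;>
  rw [b1, b2, b3, b4] <;> norm_num

theorem row_ne {j j' k k' : ℤ} (hj : 0 ≤ j ∧ j < A.p) (hj' : 0 ≤ j' ∧ j' < A.p)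
    (hne : j ≠ j') (hk : (A.p : ℤ) ∣ A.e * j - k) (hk' : (A.p : ℤ) ∣ A.e * j' - k') : k ≠ k' := by
  intro he
  apply hne
  refine idx_inj (A := A) ?_ (by omega) (by omega)
  have := dvd_sub hk hk'
  rw [he] at this
  rwa [show A.e * j - k' - (A.e * j' - k') = A.e * j - A.e * j' by ring] at this

/-- **two classes with net contribution `-1`: there is a class with net contribution `+1`** -/
theorem net_neg (F : A.Fl) {u v Y : ℤ} (hu : (A.p : ℤ) ∣ u - 1 + A.k0)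
    (h0 : 0 ≤ v - u - A.q * Y) (h1 : v - u - A.q * Y < NN A)
    {j j' : ℤ} (hj : 0 ≤ j ∧ j < A.p) (hj' : 0 ≤ j' ∧ j' < A.p) (hne : j ≠ j')
    (n1 : NetNeg A u (A.q * Y) v j) (n2 : NetNeg A u (A.q * Y) v j') :
    ∃ i U S, i ≠ j ∧ i ≠ j' ∧ Idx A i U S ∧ PosBox A u (A.q * Y) v U S := by
  obtain ⟨k, k0, k1, hk⟩ := row_of A j
  obtain ⟨k', k0', k1', hk'⟩ := row_of A j'
  have m1 := (netv_neg h0 h1 hj.1 hj.2 hk).2 n1
  have m2 := (netv_neg h0 h1 hj'.1 hj'.2 hk').2 n2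
  have hkk := row_ne hj hj' hne hk hk'
  have e := (A.cfg 0).Fint_eq (u - 1) v Y
  have f := F (u - 1) v Y hu
  rw [← e, sub_add_cancel, Fint_net, abs_le] at f
  by_contra hno
  push Not at hno
  have key : ∀ x : ℤ, 0 ≤ -netv A u v Y x := by
    intro x
    by_contra hc
    obtain ⟨i, i0, i1, hi⟩ := idx_of A x
    have hp1 := (netv_pos h0 h1 i0 i1 hi).1 (by omega)
    obtain ⟨U, S, hI, hb⟩ := posBox_of h1 hp1
    refine hno i U S ?_ ?_ hI hb
    · rintro rfl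
      have := (netv_neg h0 h1 i0 i1 hi).2 n1
      omega
    · rintro rfl
      have := (netv_neg h0 h1 i0 i1 hi).2 n2
      omega
  have := sum_two (p := A.p) (f := fun k : ℤ => -netv A u v Y k) key k0 k1 k0' k1'
    (Or.inl ⟨hkk, by omega, by omega⟩)
  rw [Finset.sum_neg_distrib] at this
  linarith [f.1]

/-- **two classes with net contribution `+1`: there is a class with net contribution `-1`** -/
theorem net_pos (F : A.Fl) {u v Y : ℤ} (hu : (A.p : ℤ) ∣ u - 1 + A.k0)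
    (h0 : 0 ≤ v - u - A.q * Y) (h1 : v - u - A.q * Y < NN A)
    {j j' : ℤ} (hj : 0 ≤ j ∧ j < A.p) (hj' : 0 ≤ j' ∧ j' < A.p) (hne : j ≠ j')
    (n1 : NetPos A u (A.q * Y) v j) (n2 : NetPos A u (A.q * Y) v j') :
    ∃ i U S, i ≠ j ∧ i ≠ j' ∧ Idx A i U S ∧ NegBox A u (A.q * Y) v U S := by
  obtain ⟨k, k0, k1, hk⟩ := row_of A j
  obtain ⟨k', k0', k1', hk'⟩ := row_of A j'
  have m1 := (netv_pos h0 h1 hj.1 hj.2 hk).2 n1
  have m2 := (netv_pos h0 h1 hj'.1 hj'.2 hk').2 n2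
  have hkk := row_ne hj hj' hne hk hk'
  have e := (A.cfg 0).Fint_eq (u - 1) v Y
  have f := F (u - 1) v Y hu
  rw [← e, sub_add_cancel, Fint_net, abs_le] at f
  by_contra hno
  push Not at hno
  have key : ∀ x : ℤ, 0 ≤ netv A u v Y x := by
    intro x
    by_contra hc
    obtain ⟨i, i0, i1, hi⟩ := idx_of A x
    have hp1 := (netv_neg h0 h1 i0 i1 hi).1 (by omega)
    obtain ⟨U, S, hI, hb⟩ := negBox_of h1 hp1
    refine hno i U S ?_ ?_ hI hb
    · rintro rfl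
      have := (netv_pos h0 h1 i0 i1 hi).2 n1
      omega
    · rintro rfl
      have := (netv_pos h0 h1 i0 i1 hi).2 n2
      omega
  have := sum_two (p := A.p) (f := fun k : ℤ => netv A u v Y k) key k0 k1 k0' k1'
    (Or.inl ⟨hkk, m1, m2⟩)
  linarith [f.2]

/-! ### base lines at multiples of `p` -/

/-- boxes for a class with net contribution `≥ 1`; the base line is the line `c` (included) -/
def PosBoxC (A : TAp) (c y v U S : ℤ) : Prop :=
  (c ≤ U ∧ y ≤ S ∧ S < y + A.q * A.w ∧ U + S ≤ v) ∨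
  (c ≤ U + A.q * A.w + A.sg ∧ U + 4 ≤ c ∧ y + A.q * A.w + A.q * A.h ≤ S ∧ v < U + S ∧
    U + S ≤ v + A.q * A.h)

/-- boxes for a class with net contribution `≤ -1`; the base line is the line `c` (included) -/
def NegBoxC (A : TAp) (c y v U S : ℤ) : Prop :=
  (c ≤ U + A.q * A.w + A.sg ∧ U + 4 ≤ c ∧ y + A.q * A.w ≤ S ∧
    S < y + A.q * A.w + A.q * A.h ∧ U + S ≤ v) ∨
  (c ≤ U ∧ y + A.q * A.h ≤ S ∧ S < y + A.q * A.w + A.q * A.h ∧ U + S ≤ v + A.q * A.h)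

theorem p4 (A : TAp) : (4 : ℤ) ≤ A.p := by
  have := A.w2; have := A.hw; omega

theorem left_iff {c i U S : ℤ} (hc : (A.p : ℤ) ∣ c) (hI : Idx A i U S) :
    c + 1 - A.k0 ≤ U ↔ c ≤ U := by
  have h4 := p4 A
  have hk := A.k0_cases
  rcases dvd_cases A.p_pos' (dvd_sub hI.dvd hc) with e | e | e <;>
    rcases hk with ⟨h, h'⟩ | ⟨h, h'⟩ <;> rw [h'] <;> constructor <;> intro h5 <;> omega

theorem left_lt {c i U S : ℤ} (hc : (A.p : ℤ) ∣ c) (hI : Idx A i U S) :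
    U < c + 1 - A.k0 ↔ U + 4 ≤ c := by
  have h4 := p4 A
  have hk := A.k0_cases
  rcases dvd_cases A.p_pos' (dvd_sub hI.dvd hc) with e | e | e <;>
    rcases hk with ⟨h, h'⟩ | ⟨h, h'⟩ <;> rw [h'] <;> constructor <;> intro h5 <;> omega

theorem right_iff {c i U S : ℤ} (hc : (A.p : ℤ) ∣ c) (hI : Idx A i U S) :
    c + 1 - A.k0 ≤ U + A.q * A.w ↔ c ≤ U + A.q * A.w + A.sg := by
  have h4 := p4 A
  have hk := A.k0_cases
  have hd : (A.p : ℤ) ∣ U + A.q * A.w + A.sg - c := by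
    have := dvd_sub (dvd_add hI.dvd A.hpw) hc
    rwa [show U + ((A.q : ℤ) * A.w + A.sg) - c = U + A.q * A.w + A.sg - c by ring] at this
  rcases dvd_cases A.p_pos' hd with e | e | e <;>
    rcases hk with ⟨h, h'⟩ | ⟨h, h'⟩ <;> rw [h'] <;> rw [h] at e ⊢ <;> constructor <;>
    intro h5 <;> omega

theorem right_lt {c i U S : ℤ} (hc : (A.p : ℤ) ∣ c) (hI : Idx A i U S) :
    U + A.q * A.w < c + 1 - A.k0 ↔ U + A.q * A.w + A.sg + 4 ≤ c := by
  have h4 := p4 A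
  have hk := A.k0_cases
  have hd : (A.p : ℤ) ∣ U + A.q * A.w + A.sg - c := by
    have := dvd_sub (dvd_add hI.dvd A.hpw) hc
    rwa [show U + ((A.q : ℤ) * A.w + A.sg) - c = U + A.q * A.w + A.sg - c by ring] at this
  rcases dvd_cases A.p_pos' hd with e | e | e <;>
    rcases hk with ⟨h, h'⟩ | ⟨h, h'⟩ <;> rw [h'] <;> rw [h] at e ⊢ <;> constructor <;>
    intro h5 <;> omega

theorem PosBox.c {c y v i U S : ℤ} (hc : (A.p : ℤ) ∣ c) (hI : Idx A i U S)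
    (h : PosBox A (c + 1 - A.k0) y v U S) : PosBoxC A c y v U S := by
  rcases h with ⟨h1, h2⟩ | ⟨h1, h2, h3⟩
  · exact Or.inl ⟨(left_iff hc hI).1 h1, h2⟩
  · exact Or.inr ⟨(right_iff hc hI).1 h1, (left_lt hc hI).1 h2, h3⟩

theorem NegBox.c {c y v i U S : ℤ} (hc : (A.p : ℤ) ∣ c) (hI : Idx A i U S)
    (h : NegBox A (c + 1 - A.k0) y v U S) : NegBoxC A c y v U S := by
  rcases h with ⟨h1, h2, h3⟩ | ⟨h1, h2⟩
  · exact Or.inl ⟨(right_iff hc hI).1 h1, (left_lt hc hI).1 h2, h3⟩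
  · exact Or.inr ⟨(left_iff hc hI).1 h1, h2⟩

theorem hu_c {c : ℤ} (hc : (A.p : ℤ) ∣ c) : (A.p : ℤ) ∣ (c + 1 - A.k0) - 1 + A.k0 := by
  rwa [show c + 1 - A.k0 - 1 + A.k0 = c by ring]

/-- `net_neg` with the base line `c` -/
theorem net_negC (F : A.Fl) {c v Y : ℤ} (hc : (A.p : ℤ) ∣ c)
    (h0 : 0 ≤ v - (c + 1 - A.k0) - A.q * Y) (h1 : v - (c + 1 - A.k0) - A.q * Y < NN A)
    {j j' : ℤ} (hj : 0 ≤ j ∧ j < A.p) (hj' : 0 ≤ j' ∧ j' < A.p) (hne : j ≠ j')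
    (n1 : NetNeg A (c + 1 - A.k0) (A.q * Y) v j) (n2 : NetNeg A (c + 1 - A.k0) (A.q * Y) v j') :
    ∃ i U S, i ≠ j ∧ i ≠ j' ∧ Idx A i U S ∧ PosBoxC A c (A.q * Y) v U S := by
  obtain ⟨i, U, S, a1, a2, a3, a4⟩ := net_neg F (hu_c hc) h0 h1 hj hj' hne n1 n2
  exact ⟨i, U, S, a1, a2, a3, a4.c hc a3⟩

/-- `net_pos` with the base line `c` -/
theorem net_posC (F : A.Fl) {c v Y : ℤ} (hc : (A.p : ℤ) ∣ c)
    (h0 : 0 ≤ v - (c + 1 - A.k0) - A.q * Y) (h1 : v - (c + 1 - A.k0) - A.q * Y < NN A)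
    {j j' : ℤ} (hj : 0 ≤ j ∧ j < A.p) (hj' : 0 ≤ j' ∧ j' < A.p) (hne : j ≠ j')
    (n1 : NetPos A (c + 1 - A.k0) (A.q * Y) v j) (n2 : NetPos A (c + 1 - A.k0) (A.q * Y) v j') :
    ∃ i U S, i ≠ j ∧ i ≠ j' ∧ Idx A i U S ∧ NegBoxC A c (A.q * Y) v U S := by
  obtain ⟨i, U, S, a1, a2, a3, a4⟩ := net_pos F (hu_c hc) h0 h1 hj hj' hne n1 n2
  exact ⟨i, U, S, a1, a2, a3, a4.c hc a3⟩

end Pool.Agent.H78.SV
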