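import Pool.Agent.H78.RT.Inst

/-!
# Triangles: the signed corner count of a visible triangle is at most one
-/

namespace Pool.Agent.H78.SV

open Finset
open Pool.Agent.H98.Flat
open Pool.Agent.H78.Tie
open Pool.Agent.H78.Tie.TAp
open Pool.Agent.H78.RT

/-- a corner is visible iff it has a lift in the triangle -/
theorem vis_iff {N q p Uc Vc row u0 v0 Y : ℤ} (hq : 0 < q) (hp : 0 < p) (hpq : p * q = N)
    (hV : N ∣ Vc - (Uc + q * row)) (h0 : 0 ≤ v0 - u0 - q * Y) (h1 : v0 - u0 - q * Y < N) :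
    vis N q p Uc Vc row u0 v0 Y = 1 ↔
      ∃ U s, N ∣ Uc - U ∧ p ∣ row - s ∧ u0 ≤ U ∧ Y ≤ s ∧ U + q * s ≤ v0 := by
  have hN : 0 < N := by rw [← hpq]; exact mul_pos hp hq
  rw [vis_eq hN hpq hq hp hV, Int.emod_eq_of_lt h0 h1]
  constructor
  · intro h
    have hc : (Uc - u0) % N ≤ v0 - u0 - q * Y - q * ((row - Y) % p) := by
      by_contra hc
      rw [if_neg hc] at h
      exact absurd h (by norm_num)
    have x0 := Int.emod_nonneg (Uc - u0) hN.ne'
    have ex := Int.emod_add_mul_ediv (Uc - u0) N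
    have r0 := Int.emod_nonneg (row - Y) hp.ne'
    have er := Int.emod_add_mul_ediv (row - Y) p
    refine ⟨u0 + (Uc - u0) % N, Y + (row - Y) % p, ⟨(Uc - u0) / N, by linarith⟩,
      ⟨(row - Y) / p, by linarith⟩, by omega, by omega, ?_⟩
    rw [mul_add]; linarith
  · rintro ⟨U, s, hU, hs, a, b, c⟩
    have e1 : (Uc - u0) % N = U - u0 := by
      rw [emod_congr (a := Uc - u0) (b := U - u0) (by rwa [sub_sub_sub_cancel_right])]
      have : 0 ≤ q * (s - Y) := mul_nonneg hq.le (by omega)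
      rw [mul_sub] at this
      exact Int.emod_eq_of_lt (by omega) (by omega)
    have e2 : (row - Y) % p = s - Y := by
      rw [emod_congr (a := row - Y) (b := s - Y) (by rwa [sub_sub_sub_cancel_right])]
      refine Int.emod_eq_of_lt (by omega) ?_
      by_contra hc
      have : q * p ≤ q * (s - Y) := mul_le_mul_of_nonneg_left (by omega) hq.le
      rw [mul_sub, mul_comm q p, hpq] at this
      omega
    rw [e1, e2, if_pos]
    rw [mul_sub]; omega

/-- index `j` (`0` is allowed) has lifts `U`, `S` -/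
def Idx (A : TAp) (j U S : ℤ) : Prop :=
  0 ≤ j ∧ j < A.p ∧ NN A ∣ A.a * j - U ∧ ∃ s, S = A.q * s ∧ (A.p : ℤ) ∣ A.e * j - s

/-- the corner `(U + q a, V - q b)` of index `j` is in the triangle `(u, y, v)` -/
def Cn (A : TAp) (u y v a b j : ℤ) : Prop :=
  ∃ U S, Idx A j U S ∧ u ≤ U + A.q * a ∧ y ≤ S - A.q * a - A.q * b ∧ U + S - A.q * b ≤ v

theorem Idx.zero (A : TAp) : Idx A 0 0 0 :=
  ⟨le_refl _, A.p_pos', by simp, 0, by simp, by simp⟩

theorem Idx.ofC {A : TAp} {j U S θ : ℤ} (h : IsC A j U S θ) : Idx A j U S :=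
  ⟨h.2.1.le, h.2.2, h.1.1, h.1.2.1⟩

/-- an index `≠ 0` is a class -/
theorem Idx.isC {A : TAp} {j U S : ℤ} (h : Idx A j U S) (h0 : j ≠ 0) (θ : ℤ)
    (hθ : A.D * j = A.p * θ) : IsC A j U S θ :=
  ⟨⟨h.2.2.1, h.2.2.2, hθ⟩, by have := h.1; omega, h.2.1⟩

theorem vis_cn {A : TAp} {u v Y a b : ℤ} (h0 : 0 ≤ v - u - A.q * Y) (h1 : v - u - A.q * Y < NN A)
    {k j : ℤ} (j0 : 0 ≤ j) (j1 : j < A.p) (hk : (A.p : ℤ) ∣ A.e * j - k) :
    vis (A.cfg 0).N A.q A.p ((A.cfg 0).U k + A.q * a) ((A.cfg 0).V k - A.q * b) (k - a - b) u v Y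
      = 1 ↔ Cn A u (A.q * Y) v a b j := by
  have hU : (A.cfg 0).U k = A.a * j := U_of_idx j0 (by omega) hk
  have hV : (A.cfg 0).V k = A.a * j + A.q * k := by
    change (A.cfg 0).U k + A.q * k = _
    rw [hU]
  rw [hU, hV, show (A.cfg 0).N = (A.p : ℤ) * A.q from rfl,
    vis_iff A.q_pos' A.p_pos' rfl ⟨0, by ring⟩ h0 h1]
  constructor
  · rintro ⟨U, s, c1, c2, c3, c4, c5⟩
    refine ⟨U - A.q * a, A.q * (s + a + b), ⟨j0, j1, ?_, s + a + b, rfl, ?_⟩, by linarith, ?_, ?_⟩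
    · rwa [show A.a * j - (U - A.q * a) = A.a * j + A.q * a - U by ring]
    · have := dvd_add hk c2
      rwa [show A.e * j - k + (k - a - b - s) = A.e * j - (s + a + b) by ring] at this
    · have := mul_le_mul_of_nonneg_left c4 A.q_pos'.le
      rw [mul_add, mul_add]; linarith
    · rw [mul_add, mul_add]; linarith
  · rintro ⟨U, S, ⟨-, -, c1, s, hS, c2⟩, c3, c4, c5⟩
    refine ⟨U + A.q * a, s - a - b, ?_, ?_, c3, ?_, ?_⟩
    · rwa [show A.a * j + A.q * a - (U + A.q * a) = A.a * j - U by ring]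
    · have := dvd_sub c2 hk
      rwa [show A.e * j - s - (A.e * j - k) = k - a - b - (s - a - b) by ring] at this
    · rw [hS, ← mul_sub, ← mul_sub] at c4
      exact le_of_mul_le_mul_left c4 A.q_pos'
    · rw [mul_sub, mul_sub, ← hS]; linarith

theorem vis_nn (N q p Uc Vc row u0 v0 Y : ℤ) : 0 ≤ vis N q p Uc Vc row u0 v0 Y := by
  unfold vis; split_ifs <;> norm_num

theorem vis_01 (N q p Uc Vc row u0 v0 Y : ℤ) :
    vis N q p Uc Vc row u0 v0 Y = 0 ∨ vis N q p Uc Vc row u0 v0 Y = 1 := by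
  unfold vis; split_ifs <;> simp

theorem sum_two {p : ℕ} {f : ℤ → ℤ} (h0 : ∀ k, 0 ≤ f k) {k1 k2 : ℤ} (a0 : 0 ≤ k1) (a1 : k1 < p)
    (b0 : 0 ≤ k2) (b1 : k2 < p) (h : (k1 ≠ k2 ∧ 1 ≤ f k1 ∧ 1 ≤ f k2) ∨ (k1 = k2 ∧ 2 ≤ f k1)) :
    2 ≤ ∑ k ∈ range p, f k := by
  obtain ⟨n1, rfl⟩ := Int.eq_ofNat_of_zero_le a0
  obtain ⟨n2, rfl⟩ := Int.eq_ofNat_of_zero_le b0
  have m1 : n1 ∈ range p := mem_range.2 (by omega)
  have m2 : n2 ∈ range p := mem_range.2 (by omega)
  rcases h with ⟨h1, h2, h3⟩ | ⟨-, h2⟩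
  · have hne : n1 ≠ n2 := fun h => h1 (by rw [h])
    have := Finset.sum_le_sum_of_subset_of_nonneg (s := {n1, n2}) (t := range p)
      (f := fun k : ℕ => f k) (by
        intro x hx
        rw [Finset.mem_insert, Finset.mem_singleton] at hx
        rcases hx with rfl | rfl
        · exact m1
        · exact m2) (fun k _ _ => h0 k)
    rw [Finset.sum_pair hne] at this
    linarith
  · exact h2.trans (Finset.single_le_sum (f := fun k : ℕ => f k) (fun k _ => h0 k) m1)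

/-- the row of an index -/
theorem row_of (A : TAp) (j : ℤ) : ∃ k : ℤ, 0 ≤ k ∧ k < A.p ∧ (A.p : ℤ) ∣ A.e * j - k :=
  ⟨(A.e * j) % A.p, Int.emod_nonneg _ A.p_pos'.ne', Int.emod_lt_of_pos _ A.p_pos',
    by rw [← dvd_neg, neg_sub]; exact (Int.dvd_iff_emod_eq_zero).2 (by simp)⟩

theorem idx_of (A : TAp) (k : ℤ) : ∃ j : ℤ, 0 ≤ j ∧ j < A.p ∧ (A.p : ℤ) ∣ A.e * j - k :=
  ⟨(A.e' * k - 0) % A.p, Int.emod_nonneg _ A.p_pos'.ne', Int.emod_lt_of_pos _ A.p_pos',
    by have := A.idx_row 0 k; rwa [zero_add] at this⟩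

/-- the triangle principle -/
theorem tri_count {A : TAp} {u v Y : ℤ}
    (h0 : 0 ≤ v - u - A.q * Y) (h1 : v - u - A.q * Y < NN A) {a b a' b' c d c' d' : ℤ}
    (hsum : (∑ k ∈ range A.p, (vis (A.cfg 0).N A.q A.p ((A.cfg 0).U k + A.q * a)
        ((A.cfg 0).V k - A.q * b) (k - a - b) u v Y
        + vis (A.cfg 0).N A.q A.p ((A.cfg 0).U k + A.q * a')
        ((A.cfg 0).V k - A.q * b') (k - a' - b') u v Y)) ≤
      (∑ k ∈ range A.p, (vis (A.cfg 0).N A.q A.p ((A.cfg 0).U k + A.q * c)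
        ((A.cfg 0).V k - A.q * d) (k - c - d) u v Y
        + vis (A.cfg 0).N A.q A.p ((A.cfg 0).U k + A.q * c')
        ((A.cfg 0).V k - A.q * d') (k - c' - d') u v Y)) + 1)
    {j j' : ℤ} (hj : 0 ≤ j ∧ j < A.p) (hj' : 0 ≤ j' ∧ j' < A.p)
    (h : (j ≠ j' ∧ (Cn A u (A.q * Y) v a b j ∨ Cn A u (A.q * Y) v a' b' j) ∧
        (Cn A u (A.q * Y) v a b j' ∨ Cn A u (A.q * Y) v a' b' j')) ∨
      (j = j' ∧ Cn A u (A.q * Y) v a b j ∧ Cn A u (A.q * Y) v a' b' j)) :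
    ∃ i : ℤ, 0 ≤ i ∧ i < A.p ∧ (Cn A u (A.q * Y) v c d i ∨ Cn A u (A.q * Y) v c' d' i) := by
  obtain ⟨k, k0, k1, hk⟩ := row_of A j
  obtain ⟨k', k0', k1', hk'⟩ := row_of A j'
  have key := sum_two (p := A.p) (f := fun k : ℤ => vis (A.cfg 0).N A.q A.p
        ((A.cfg 0).U k + A.q * a) ((A.cfg 0).V k - A.q * b) (k - a - b) u v Y
        + vis (A.cfg 0).N A.q A.p ((A.cfg 0).U k + A.q * a')
        ((A.cfg 0).V k - A.q * b') (k - a' - b') u v Y)
    (fun k => add_nonneg (vis_nn _ _ _ _ _ _ _ _ _) (vis_nn _ _ _ _ _ _ _ _ _)) k0 k1 k0' k1' (by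
      rcases h with ⟨hne, hc, hc'⟩ | ⟨he, hc, hc'⟩
      · left
        refine ⟨?_, ?_, ?_⟩
        · intro he
          apply hne
          refine idx_inj (A := A) ?_ (by omega) (by omega)
          have := dvd_sub hk hk'
          rw [he] at this
          rwa [show A.e * j - k' - (A.e * j' - k') = A.e * j - A.e * j' by ring] at this
        · rcases hc with hc | hc
          · have e := (vis_cn h0 h1 hj.1 hj.2 hk).2 hc
            have := vis_nn (A.cfg 0).N A.q A.p ((A.cfg 0).U k + A.q * a')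
              ((A.cfg 0).V k - A.q * b') (k - a' - b') u v Y
            rw [e]; omega
          · have e := (vis_cn h0 h1 hj.1 hj.2 hk).2 hc
            have := vis_nn (A.cfg 0).N A.q A.p ((A.cfg 0).U k + A.q * a)
              ((A.cfg 0).V k - A.q * b) (k - a - b) u v Y
            rw [e]; omega
        · rcases hc' with hc | hc
          · have e := (vis_cn h0 h1 hj'.1 hj'.2 hk').2 hc
            have := vis_nn (A.cfg 0).N A.q A.p ((A.cfg 0).U k' + A.q * a')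
              ((A.cfg 0).V k' - A.q * b') (k' - a' - b') u v Y
            rw [e]; omega
          · have e := (vis_cn h0 h1 hj'.1 hj'.2 hk').2 hc
            have := vis_nn (A.cfg 0).N A.q A.p ((A.cfg 0).U k' + A.q * a)
              ((A.cfg 0).V k' - A.q * b) (k' - a - b) u v Y
            rw [e]; omega
      · right
        refine ⟨?_, ?_⟩
        · have := dvd_sub hk' hk
          rw [he, sub_sub_sub_cancel_left] at this
          by_contra hne
          rcases lt_or_gt_of_ne hne with hl | hl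
          · have h2 : (A.p : ℤ) ∣ k' - k := by rw [← dvd_neg, neg_sub]; exact this
            have := Int.le_of_dvd (by omega) h2
            omega
          · have := Int.le_of_dvd (by omega) this
            omega
        · have e := (vis_cn h0 h1 hj.1 hj.2 hk).2 hc
          have e' := (vis_cn h0 h1 hj.1 hj.2 hk).2 hc'
          rw [e, e']; norm_num)
  by_contra hno
  push Not at hno
  have z : (∑ k ∈ range A.p, (vis (A.cfg 0).N A.q A.p ((A.cfg 0).U k + A.q * c)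
        ((A.cfg 0).V k - A.q * d) (k - c - d) u v Y
        + vis (A.cfg 0).N A.q A.p ((A.cfg 0).U k + A.q * c')
        ((A.cfg 0).V k - A.q * d') (k - c' - d') u v Y)) = 0 := by
    refine Finset.sum_eq_zero fun k _ => ?_
    obtain ⟨i, i0, i1, hi⟩ := idx_of A k
    obtain ⟨n1, n2⟩ := hno i i0 i1
    rw [(vis_01 _ _ _ _ _ _ _ _ _).resolve_right fun e => n1 ((vis_cn h0 h1 i0 i1 hi).1 e),
      (vis_01 _ _ _ _ _ _ _ _ _).resolve_right fun e => n2 ((vis_cn h0 h1 i0 i1 hi).1 e)]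
    rfl
  rw [z] at hsum
  linarith

theorem Fint_vis (A : TAp) (u v Y : ℤ) : (A.cfg 0).Fint u v Y =
    (∑ k ∈ range A.p, (vis (A.cfg 0).N A.q A.p ((A.cfg 0).U k + A.q * 0)
        ((A.cfg 0).V k - A.q * 0) (k - 0 - 0) u v Y
        + vis (A.cfg 0).N A.q A.p ((A.cfg 0).U k + A.q * A.w)
        ((A.cfg 0).V k - A.q * A.h) (k - A.w - A.h) u v Y)) -
    (∑ k ∈ range A.p, (vis (A.cfg 0).N A.q A.p ((A.cfg 0).U k + A.q * A.w)
        ((A.cfg 0).V k - A.q * 0) (k - A.w - 0) u v Y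
        + vis (A.cfg 0).N A.q A.p ((A.cfg 0).U k + A.q * 0)
        ((A.cfg 0).V k - A.q * A.h) (k - 0 - A.h) u v Y)) := by
  unfold Cfg.Fint
  rw [← Finset.sum_sub_distrib]
  refine Finset.sum_congr rfl fun k _ => ?_
  simp only [mul_zero, add_zero, sub_zero]
  change vis (A.cfg 0).N A.q A.p ((A.cfg 0).U k) ((A.cfg 0).V k) k u v Y
    - vis (A.cfg 0).N A.q A.p ((A.cfg 0).U k + A.q * A.w) ((A.cfg 0).V k) (k - A.w) u v Y
    - vis (A.cfg 0).N A.q A.p ((A.cfg 0).U k) ((A.cfg 0).V k - A.q * A.h) (k - A.h) u v Y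
    + vis (A.cfg 0).N A.q A.p ((A.cfg 0).U k + A.q * A.w) ((A.cfg 0).V k - A.q * A.h)
      (k - A.w - A.h) u v Y = _
  ring

/-- two negative corners of a visible triangle: there is a positive one -/
theorem tri_neg {A : TAp} (F : A.Fl) {u v Y : ℤ} (hu : (A.p : ℤ) ∣ u - 1 + A.k0)
    (h0 : 0 ≤ v - u - A.q * Y) (h1 : v - u - A.q * Y < NN A)
    {j j' : ℤ} (hj : 0 ≤ j ∧ j < A.p) (hj' : 0 ≤ j' ∧ j' < A.p)
    (h : (j ≠ j' ∧ (Cn A u (A.q * Y) v A.w 0 j ∨ Cn A u (A.q * Y) v 0 A.h j) ∧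
        (Cn A u (A.q * Y) v A.w 0 j' ∨ Cn A u (A.q * Y) v 0 A.h j')) ∨
      (j = j' ∧ Cn A u (A.q * Y) v A.w 0 j ∧ Cn A u (A.q * Y) v 0 A.h j)) :
    ∃ i : ℤ, 0 ≤ i ∧ i < A.p ∧ (Cn A u (A.q * Y) v 0 0 i ∨ Cn A u (A.q * Y) v A.w A.h i) := by
  refine tri_count h0 h1 ?_ hj hj' h
  have e := (A.cfg 0).Fint_eq (u - 1) v Y
  have f := F (u - 1) v Y hu
  rw [← e, sub_add_cancel, Fint_vis, abs_le] at f
  linarith [f.1]

/-- two positive corners of a visible triangle: there is a negative one -/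
theorem tri_pos {A : TAp} (F : A.Fl) {u v Y : ℤ} (hu : (A.p : ℤ) ∣ u - 1 + A.k0)
    (h0 : 0 ≤ v - u - A.q * Y) (h1 : v - u - A.q * Y < NN A)
    {j j' : ℤ} (hj : 0 ≤ j ∧ j < A.p) (hj' : 0 ≤ j' ∧ j' < A.p)
    (h : (j ≠ j' ∧ (Cn A u (A.q * Y) v 0 0 j ∨ Cn A u (A.q * Y) v A.w A.h j) ∧
        (Cn A u (A.q * Y) v 0 0 j' ∨ Cn A u (A.q * Y) v A.w A.h j')) ∨
      (j = j' ∧ Cn A u (A.q * Y) v 0 0 j ∧ Cn A u (A.q * Y) v A.w A.h j)) :
    ∃ i : ℤ, 0 ≤ i ∧ i < A.p ∧ (Cn A u (A.q * Y) v A.w 0 i ∨ Cn A u (A.q * Y) v 0 A.h i) := by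
  refine tri_count h0 h1 ?_ hj hj' h
  have e := (A.cfg 0).Fint_eq (u - 1) v Y
  have f := F (u - 1) v Y hu
  rw [← e, sub_add_cancel, Fint_vis, abs_le] at f
  linarith [f.2]

theorem Idx.dvd {A : TAp} {j U S : ℤ} (h : Idx A j U S) : (A.p : ℤ) ∣ U := by
  have h1 := (Dvd.intro (A.q : ℤ) rfl : (A.p : ℤ) ∣ A.p * A.q).trans h.2.2.1
  have h2 := dvd_sub (A.hpa.mul_right j) h1
  rwa [sub_sub_cancel] at h2

theorem Idx.zero_dvd {A : TAp} {U S : ℤ} (h : Idx A 0 U S) : NN A ∣ U ∧ NN A ∣ S := by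
  obtain ⟨-, -, h1, s, hs, h2⟩ := h
  rw [mul_zero, zero_sub, dvd_neg] at h1 h2
  refine ⟨h1, ?_⟩
  rw [hs]
  obtain ⟨z, hz⟩ := h2
  exact ⟨z, by rw [hz]; unfold NN; ring⟩

theorem NN_small {A : TAp} {x : ℤ} (h : NN A ∣ x) (h0 : -NN A < x) (h1 : x < NN A) : x = 0 := by
  obtain ⟨z, hz⟩ := h
  have hN := NN_pos A
  rcases lt_trichotomy z 0 with h | h | h
  · exfalso
    have : NN A * z ≤ NN A * (-1) := mul_le_mul_of_nonneg_left (by omega) hN.le
    rw [← hz] at this; linarith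
  · rw [hz, h, mul_zero]
  · exfalso
    have : NN A * 1 ≤ NN A * z := mul_le_mul_of_nonneg_left (by omega) hN.le
    rw [← hz] at this; linarith

/-- the triangle of the lower left corner of the index `0` and the upper right corner of a
class `n` with `V < 0` : an upper left corner or a lower right corner is in it -/
theorem triE {A : TAp} (F : A.Fl) {n U S θ Y : ℤ} (hc : IsC A n U S θ)
    (hU1 : 2 ≤ U + A.q * A.w) (hV0 : U + S + 2 ≤ 0)
    (hV1 : 2 ≤ U + S + A.q * A.h)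
    (hY0 : A.q * Y ≤ -(A.q * A.h)) (hY1 : A.q * Y ≤ S - A.q * A.w)
    (hY2 : 0 < A.q * Y + A.q * A.w + A.q * A.h)
    (hY3 : U + S - A.q * Y + 1 < NN A)
    (ht : ∀ j U' S', Idx A j U' S' → U' = -(A.q * A.w) - A.sg → A.q * Y + A.q * A.w + A.q * A.h ≤ S' →
      U' + S' - A.q * A.h ≤ U + S → False) :
    ∃ j U' S', IsC A j U' S' (th A j) ∧
      ((2 ≤ U' ∧ A.q * Y ≤ S' ∧ U' + S' ≤ U + S) ∨
      (1 ≤ U' + A.q * A.w ∧ A.q * Y + A.q * A.w + A.q * A.h ≤ S' ∧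
        U' + S' ≤ U + S + A.q * A.h)) := by
  have hk := A.k0_cases
  have hp := A.p_pos'
  have hH := H2 A
  have hW := W2 A
  have hq := A.q_pos'
  have hN := NN_pos A
  have hNH := NH A
  have hNW := NW A
  have hu : (A.p : ℤ) ∣ (1 - A.k0) - 1 + A.k0 := ⟨0, by ring⟩
  have k0b : 1 ≤ A.k0 ∧ A.k0 ≤ 2 := by
    rcases hk with ⟨h, h'⟩ | ⟨h, h'⟩ <;> rw [h'] <;> norm_num
  have p2 : (4 : ℤ) ≤ A.p := by have := A.w2; have := A.hw; omega
  obtain ⟨i, i0, i1, hi⟩ := tri_neg F (u := 1 - A.k0) (v := U + S) (Y := Y) hu (by omega)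
    (by omega) (j := 0) (j' := n) ⟨le_refl _, hp⟩ ⟨hc.2.1.le, hc.2.2⟩
    (Or.inl ⟨by have := hc.2.1; omega,
      Or.inr ⟨0, 0, Idx.zero A, by rw [mul_zero]; omega, by rw [mul_zero]; omega, by omega⟩,
      Or.inl ⟨U, S, Idx.ofC hc, by omega, by rw [mul_zero]; omega, by rw [mul_zero]; omega⟩⟩)
  rcases hi with ⟨U', S', hI, c1, c2, c3⟩ | ⟨U', S', hI, c1, c2, c3⟩
  · rw [mul_zero] at c1 c2 c3
    rw [add_zero] at c1
    rw [sub_zero, sub_zero] at c2
    rw [sub_zero] at c3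
    have hi0 : i ≠ 0 := by
      rintro rfl
      obtain ⟨d1, d2⟩ := hI.zero_dvd
      have e1 := NN_small d1 (by omega) (by omega)
      have e2 := NN_small d2 (by omega) (by omega)
      omega
    refine ⟨i, U', S', hI.isC hi0 _ (th_eq A i), Or.inl ⟨?_, c2, by omega⟩⟩
    have hd := hI.dvd
    have hne : U' ≠ 0 := by
      rintro rfl
      have := (hI.isC hi0 _ (th_eq A i)).nd
      exact this (dvd_zero _)
    obtain ⟨z, hz⟩ := hd
    have z1 : 1 ≤ z := by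
      by_contra hcon
      rcases lt_or_eq_of_le (show z ≤ 0 by omega) with h | h
      · have : (A.p : ℤ) * z ≤ A.p * (-1) := mul_le_mul_of_nonneg_left (by omega) hp.le
        omega
      · rw [h, mul_zero] at hz
        exact hne hz
    have : (A.p : ℤ) * 1 ≤ A.p * z := mul_le_mul_of_nonneg_left z1 hp.le
    omega
  · have hi0 : i ≠ 0 := by
      rintro rfl
      obtain ⟨d1, d2⟩ := hI.zero_dvd
      have hS' : 0 < S' := by omega
      have e2 : NN A ≤ S' := Int.le_of_dvd hS' d2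
      have e1 : 0 ≤ U' := by
        by_contra hcon
        obtain ⟨z, hz⟩ := d1
        have : z < 0 := by
          by_contra hcon2
          have : 0 ≤ NN A * z := mul_nonneg hN.le (by omega)
          omega
        have : NN A * z ≤ NN A * (-1) := mul_le_mul_of_nonneg_left (by omega) hN.le
        omega
      omega
    refine ⟨i, U', S', hI.isC hi0 _ (th_eq A i), Or.inr ⟨?_, by omega, by omega⟩⟩
    have hd := dvd_add hI.dvd A.hpw
    obtain ⟨z, hz⟩ := hd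
    have z0 : 0 ≤ z := by
      by_contra hcon
      have : (A.p : ℤ) * z ≤ A.p * (-1) := mul_le_mul_of_nonneg_left (by omega) hp.le
      rcases hk with ⟨h, h'⟩ | ⟨h, h'⟩ <;> rw [h'] at c1 <;> rw [h] at hz <;> omega
    rcases lt_or_eq_of_le z0 with h | h
    · have : (A.p : ℤ) * 1 ≤ A.p * z := mul_le_mul_of_nonneg_left (by omega) hp.le
      rcases A.hsg with h2 | h2 <;> rw [h2] at hz <;> omega
    · exfalso
      rw [← h, mul_zero] at hz
      exact ht i U' S' hI (by omega) (by omega) (by omega)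

end Pool.Agent.H78.SV
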