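import Pool.Agent.H78.SV.Base
import Pool.Agent.H78.SV.Tri

/-!
# Single ties: overlapping classes in scaled form, the categories
-/

namespace Pool.Agent.H78.SV

open Pool.Agent.H78.RT
open Pool.Agent.H78.Tie
open Pool.Agent.H78.Tie.TAp
open Pool.Agent.H81.AP (LF dot dot_nil dot_nil' dot_cons AllNn AllNe)

variable {A : TAp} {T : A.Tie} {sx : ℤ}

theorem ST.Dp (d : ST A T sx) : 2 ≤ A.D / (A.p : ℤ) := by
  obtain ⟨-, -, -, -, -, -, f7, f8, -, -⟩ := d.facts
  have pq : (A.p : ℤ) < A.q := by exact_mod_cast A.pq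
  have hs : T.ep * A.sg = 1 ∨ T.ep * A.sg = -1 := by
    rcases T.hep with h | h <;> rcases A.hsg with h' | h' <;> rw [h, h'] <;> norm_num
  have h := Int.mul_ediv_cancel' (p_dvd_D A)
  have hp := A.p_pos'
  by_contra hc
  have : (A.p : ℤ) * (A.D / A.p) ≤ A.p * 1 := mul_le_mul_of_nonneg_left (by omega) hp.le
  omega

theorem ST.gap (d : ST A T sx) {i j : ℤ} (h : i < j) : th A i + 2 ≤ th A j := by
  have h2 := d.Dp
  have : A.D / (A.p : ℤ) * 1 ≤ A.D / A.p * (j - i) := mul_le_mul_of_nonneg_left (by omega) (by omega)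
  rw [mul_sub] at this
  unfold th
  omega

/-- `a (p - i) ≡ D - U` -/
theorem par_dvd {i U S θ : ℤ} (h : IsC A i U S θ) : NN A ∣ A.a * (A.p - i) - (A.D - U) := by
  have := dvd_sub A.hd h.1.1
  rwa [show A.a * A.p - (A.q * A.md + A.fd) - (A.a * i - U) = A.a * (A.p - i) - (A.D - U) by
    unfold TAp.D; ring] at this

theorem par_t {i U S θ : ℤ} (h : IsC A i U S θ) (hi : i = A.p - T.t) :
    NN A ∣ A.D - U - T.ep * (A.q * A.w + A.sg) := by
  have h1 := dvd_sub T.tie (par_dvd h)
  rwa [hi, show A.a * T.t - T.ep * (A.q * A.w + A.sg) - (A.a * (A.p - (A.p - T.t)) - (A.D - U))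
    = A.D - U - T.ep * (A.q * A.w + A.sg) by ring] at h1

theorem par_qt {i U S θ : ℤ} (h : IsC A i U S θ) (hi : i = A.p - (A.q - T.t)) :
    NN A ∣ A.D - U + T.ep * (A.q * A.w + A.sg) := by
  have e1 : (A.p : ℤ) * A.q ∣ A.a * A.q := by
    obtain ⟨z, hz⟩ := A.hpa
    exact ⟨z, by rw [hz]; ring⟩
  have h1 := dvd_sub (dvd_sub e1 T.tie) (par_dvd h)
  rwa [hi, show A.a * A.q - (A.a * T.t - T.ep * (A.q * A.w + A.sg))
      - (A.a * (A.p - (A.p - (A.q - T.t))) - (A.D - U))
    = A.D - U + T.ep * (A.q * A.w + A.sg) by ring] at h1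

/-- genericity of `D - U` -/
theorem ST.Dgen (d : ST A T sx) {i U S θ : ℤ} (h : IsC A i U S θ) (h1 : i ≠ A.p - T.t)
    (h2 : i ≠ A.p - (A.q - T.t)) (k : ℤ) : A.q * k + 2 ≤ A.D - U ∨ A.D - U + 2 ≤ A.q * k := by
  have h3 : IsC A (A.p - i) (A.D - U) (-S) (A.D - θ) := by
    have := h.1.lin (Rec.P A) (-1)
    rw [show -1 * i + (A.p : ℤ) = A.p - i by ring, show -1 * U + A.D = A.D - U by ring,
      show -1 * S + 0 = -S by ring, show -1 * θ + A.D = A.D - θ by ring] at this
    exact ⟨this, by have := h.2.2; omega, by have := h.2.1; omega⟩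
  exact d.Ugen h3 (by omega) (by omega) k

theorem lt_mul {q m f k : ℤ} (hq : 0 < q) (f0 : 0 < f) (h : k ≤ m) :
    q * k < q * m + f := by
  have := mul_le_mul_of_nonneg_left h hq.le
  omega

theorem mul_lt' {q m f k : ℤ} (hq : 0 < q) (f1 : f < q) (h : m < k) : q * m + f < q * k := by
  have := mul_le_mul_of_nonneg_left (show m + 1 ≤ k by omega) hq.le
  rw [mul_add] at this
  omega

theorem ST.oc (d : ST A T sx) {i m f s : ℤ} (o : T.Ov i m f s) :
    OC A T i (A.q * m + f) (A.q * s) (th A i) := by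
  have nq := d.not_qt o
  obtain ⟨c, nt, m0, m1, v0, v1⟩ := o
  have hc := IsC.ofCls c
  have hq := A.q_pos'
  have f0 := c.2.2.1
  have f1 := c.2.2.2.1
  have i0 := c.1
  have i1 := c.2.1
  have g := fun k => d.Ugen hc nt nq k
  have t0 := th_zero A
  have tp := th_p A
  refine ⟨hc, nt, nq, dvd_mul_right _ _, ?_, ?_, ?_, ?_, ?_, ?_, ?_, ?_, ?_, ?_, ?_⟩
  · rcases lt_or_gt_of_ne nt with h | h
    · have := th_lt A h; omega
    · have := th_lt A h; omega
  · have := d.gap i0; omega
  · have := d.gap i1; omega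
  · rcases lt_or_gt_of_ne nt with h | h
    · left; exact d.gap h
    · right; exact d.gap h
  · rw [← th_add, ← tp]
    rcases lt_trichotomy (i + T.t) A.p with h | h | h
    · right; left; exact d.gap h
    · left; rw [h]
    · right; right; exact d.gap h
  · have h1 := lt_mul hq f0 m0
    have h2 := g (-A.w)
    rw [mul_neg] at h1 h2
    omega
  · have h1 := mul_lt' hq f1 m1
    have h2 := g A.w
    omega
  · have h2 := g 0
    rw [mul_zero] at h2
    omega
  · have h1 := lt_mul hq f0 v0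
    have h2 := g (-A.h - s)
    rw [mul_add, mul_neg] at h1
    rw [mul_sub, mul_neg] at h2
    omega
  · have h1 := mul_lt' hq f1 v1
    have h2 := g (A.h - s)
    rw [mul_add] at h1
    rw [mul_sub] at h2
    omega
  · have h2 := g (-s)
    rw [mul_neg] at h2
    omega

theorem NN_cases {A : TAp} {x : ℤ} (h : NN A ∣ x) (h0 : -NN A < x) (h1 : x < 2 * NN A) :
    x = 0 ∨ x = NN A := by
  obtain ⟨z, hz⟩ := h
  have hN := NN_pos A
  have z0 : -1 < z := by
    by_contra hc
    have : NN A * z ≤ NN A * (-1) := mul_le_mul_of_nonneg_left (by omega) hN.le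
    linarith
  have z1 : z < 2 := by
    by_contra hc
    have : NN A * 2 ≤ NN A * z := mul_le_mul_of_nonneg_left (by omega) hN.le
    linarith
  have : z = 0 ∨ z = 1 := by omega
  rcases this with h | h
  · left; rw [hz, h, mul_zero]
  · right; rw [hz, h, mul_one]

/-- category (a) -/
theorem ST.catA (d : ST A T sx) {i U S θ : ℤ} (o : OC A T i U S θ) (hDW : A.D < A.q * A.w)
    (h0 : U < 0) (h1 : U + (A.q * A.w + A.sg) < A.D) :
    (U + 2 ≤ 0 ∧ U + A.q * A.w + 2 ≤ A.D ∧ i ≠ A.p - T.t) ∨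
      (i = A.p - T.t ∧ T.ep = -1 ∧ U = A.D + A.q * A.w + A.sg - NN A) := by
  obtain ⟨f1, f2, f3, f4, f5, f6, f7, f8, f9, f10⟩ := d.facts
  have u := o.u
  have u0 := o.u0
  have hD := D_pos A
  have hsg := A.hsg
  by_cases hi : i = A.p - T.t
  · right
    have hd := par_t (T := T) o.c hi
    rcases T.hep with he | he
    · exfalso
      rw [he, one_mul] at hd
      have := NN_small hd (by omega) (by omega)
      omega
    · rw [he] at hd
      refine ⟨hi, he, ?_⟩
      rcases NN_cases hd (by omega) (by omega) with h | h <;> omega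
  · left
    refine ⟨by omega, ?_, hi⟩
    by_cases hi' : i = A.p - (A.q - T.t)
    · have hd := par_qt (T := T) o.c hi'
      rcases T.hep with he | he
      · rw [he, one_mul] at hd
        rcases NN_cases hd (by omega) (by omega) with h | h <;> omega
      · exfalso
        rw [he] at hd
        have := NN_small hd (by omega) (by omega)
        omega
    · have := d.Dgen o.c hi hi' A.w
      omega

/-- category (b) -/
theorem ST.catB (d : ST A T sx) {i U S θ : ℤ} (o : OC A T i U S θ) (hDW : A.D < A.q * A.w)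
    (h0 : 0 ≤ U) (h1 : U < A.D) : 2 ≤ U ∧ U + 2 ≤ A.D ∧ i ≠ A.p - T.t := by
  obtain ⟨f1, f2, f3, f4, f5, f6, f7, f8, f9, f10⟩ := d.facts
  have u := o.u
  have hD := D_pos A
  have hsg := A.hsg
  have key : ∀ e : ℤ, (e = 1 ∨ e = -1) → NN A ∣ A.D - U + e * (A.q * A.w + A.sg) → False := by
    rintro e (he | he) hd
    · rw [he, one_mul] at hd
      have := NN_small hd (by omega) (by omega)
      omega
    · rw [he] at hd
      have := NN_small hd (by omega) (by omega)
      omega
  have n1 : i ≠ A.p - T.t := by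
    intro hi
    have hd := par_t (T := T) o.c hi
    refine key (-T.ep) (by rcases T.hep with h | h <;> rw [h] <;> norm_num) ?_
    rwa [show A.D - U + -T.ep * (A.q * A.w + A.sg) = A.D - U - T.ep * (A.q * A.w + A.sg) by ring]
  have n2 : i ≠ A.p - (A.q - T.t) := by
    intro hi
    exact key T.ep T.hep (par_qt (T := T) o.c hi)
  have := d.Dgen o.c n1 n2 0
  rw [mul_zero] at this
  refine ⟨by omega, by omega, n1⟩

/-- category (c) -/
theorem ST.catC (d : ST A T sx) {i U S θ : ℤ} (o : OC A T i U S θ)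
    (h0 : A.D < U) (h1 : U + S < A.D - A.q * A.h) :
    A.D + 2 ≤ U ∧ U + S + A.q * A.h + 2 ≤ A.D ∧ i ≠ A.p - T.t := by
  obtain ⟨f1, f2, f3, f4, f5, f6, f7, f8, f9, f10⟩ := d.facts
  have u := o.u
  have u1 := o.u1
  have hD := D_pos A
  have hsg := A.hsg
  have hs : T.ep * A.sg = 1 ∨ T.ep * A.sg = -1 := by
    rcases T.hep with h | h <;> rcases A.hsg with h' | h' <;> rw [h, h'] <;> norm_num
  have key : ∀ e : ℤ, (e = 1 ∨ e = -1) → NN A ∣ A.D - U + e * (A.q * A.w + A.sg) → False := by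
    rintro e (he | he) hd
    · rw [he, one_mul] at hd
      have := NN_small hd (by omega) (by omega)
      omega
    · rw [he] at hd
      have := NN_small hd (by omega) (by omega)
      omega
  have n1 : i ≠ A.p - T.t := by
    intro hi
    have hd := par_t (T := T) o.c hi
    refine key (-T.ep) (by rcases T.hep with h | h <;> rw [h] <;> norm_num) ?_
    rwa [show A.D - U + -T.ep * (A.q * A.w + A.sg) = A.D - U - T.ep * (A.q * A.w + A.sg) by ring]
  have n2 : i ≠ A.p - (A.q - T.t) := by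
    intro hi
    exact key T.ep T.hep (par_qt (T := T) o.c hi)
  have g0 := d.Dgen o.c n1 n2 0
  rw [mul_zero] at g0
  obtain ⟨s, hs'⟩ := o.qS
  have g1 := d.Dgen o.c n1 n2 (s + A.h)
  rw [mul_add, ← hs'] at g1
  refine ⟨by omega, by omega, n1⟩

end Pool.Agent.H78.SV
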