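import Pool.Agent.H78.SV.Dat
import Pool.Agent.H23.DT.Ex

/-!
# Single ties: the interface to the checker
-/

namespace Pool.Agent.H78.SV

open Pool.Agent.H78.RT
open Pool.Agent.H78.Tie
open Pool.Agent.H78.Tie.TAp
open Pool.Agent.H81.AP (LF dot dot_nil dot_nil' dot_cons AllNn AllNe)
open Pool.Agent.H23.DT (AllNn.append AllB.append AllC.toB)

/-- facts of a single tie; `sx` is the sign of `x` -/
structure ST (A : TAp) (T : A.Tie) (sx : ℤ) : Prop where
  F : A.Fl
  hs : T.Single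
  ht : T.t ≠ 1
  x0 : 0 < sx * T.x
  x1 : sx * T.x < A.h

/-- the environment -/
noncomputable def env (A : TAp) (T : A.Tie) (r : List ℤ) : List ℤ :=
  NN A :: A.q * A.w :: A.q * A.h :: A.D :: A.q * T.x :: th A T.t :: A.q :: r

variable {A : TAp} {T : A.Tie} {sx : ℤ}

theorem ST.facts (d : ST A T sx) :
    6 ≤ (A.q : ℤ) ∧ 2 * (A.q : ℤ) ≤ A.q * A.w ∧ 2 * (A.q : ℤ) ≤ A.q * A.h ∧
    2 * (A.q * A.w : ℤ) + A.q ≤ NN A ∧ 2 * (A.q * A.h : ℤ) + A.q ≤ NN A ∧
    2 * A.D + 2 ≤ NN A + A.q ∧ A.q + T.ep * A.sg ≤ th A T.t ∧ th A T.t < A.D ∧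
    (A.q : ℤ) ≤ sx * (A.q * T.x) ∧ sx * (A.q * T.x) + A.q ≤ A.q * A.h := by
  have hq := A.q_pos'
  have x0 := mul_le_mul_of_nonneg_left (show (1 : ℤ) ≤ sx * T.x by have := d.x0; omega) hq.le
  have x1 := mul_le_mul_of_nonneg_left (show sx * T.x + 1 ≤ A.h by have := d.x1; omega) hq.le
  exact ⟨q6 A, W2 A, H2 A, NW A, NH A, ND A, tie_th T d.ht, th_ltD A T.tp,
    by linarith, by linarith⟩

theorem ST.G (d : ST A T sx) {sp ep : Bool} (hsg : A.sg = sgv sp) (hep : T.ep = sgv ep)
    (r : List ℤ) : AllNn (env A T r) (G0 (sgv sp) (sgv ep) sx) := by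
  obtain ⟨f1, f2, f3, f4, f5, f6, f7, f8, f9, f10⟩ := d.facts
  rw [hsg, hep] at f7
  unfold env G0
  simp only [AllNn, dot_cons, dot_nil, mul_one]
  refine ⟨?_, ?_, ?_, ?_, ?_, ?_, ?_, ?_, ?_, ?_, trivial⟩ <;> linarith

theorem dot_ngq (F : LF) (v : List ℤ) (A : TAp) (T : A.Tie) (r : List ℤ) (hv : v = env A T r) :
    dot (ngq F) (1 :: v) = - dot F (1 :: v) - A.q := by
  unfold ngq
  rw [Pool.Agent.H81.AP.dot_add, Pool.Agent.H81.AP.dot_smul, hv]
  unfold env
  simp only [dot_cons, dot_nil]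
  ring

theorem allO {v : List ℤ} {A : TAp} {T : A.Tie} {r : List ℤ} (hv : v = env A T r) :
    ∀ {la : List LF}, (∀ F ∈ la, (A.q : ℤ) ∣ dot F (1 :: v)) →
      AllO v (la.map fun F => [F, ngq F])
  | [], _ => trivial
  | F :: la, h => by
    refine ⟨?_, allO hv fun F' hF' => h F' (List.mem_cons_of_mem _ hF')⟩
    have h1 := h F List.mem_cons_self
    change 0 ≤ dot F (1 :: v) ∨ 0 ≤ dot (ngq F) (1 :: v) ∨ False
    rw [dot_ngq F v A T r hv]
    obtain ⟨z, hz⟩ := h1
    have hq := A.q_pos'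
    rcases le_or_gt 0 z with h0 | h0
    · left; rw [hz]; positivity
    · right; left
      have : A.q * (z + 1) ≤ A.q * 0 := mul_le_mul_of_nonneg_left (by omega) hq.le
      rw [mul_add, mul_one, mul_zero] at this
      omega

theorem ST.q_th (_d : ST A T sx) : (A.q : ℤ) ∣ th A T.t - T.ep * A.sg := by
  have h1 := (Rec.tie T).mod
  have h2 : (A.q : ℤ) ∣ T.ep * (A.q * A.w) := (dvd_mul_right _ _).mul_left _
  have h3 := dvd_sub h2 h1
  rwa [show T.ep * (A.q * A.w) - (T.ep * (A.q * A.w + A.sg) - th A T.t)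
    = th A T.t - T.ep * A.sg by ring] at h3

/-- a checked tree for single ties -/
theorem ST.run (d : ST A T sx) {sp ep : Bool} (hsg : A.sg = sgv sp) (hep : T.ep = sgv ep)
    {J : List LR} {g ne la : List LF} {r : List ℤ} (hJ : AllC A (env A T r) J)
    (hg : AllNn (env A T r) g) (hne : AllNe (env A T r) ne)
    (hla : ∀ F ∈ la, (A.q : ℤ) ∣ dot F (1 :: env A T r))
    {t : Pool.Agent.H78.RT.T} (h : (mkS sp ep sx J g ne la).chk t = true) : False := by
  have rt := Rec.tie T
  rw [hep, hsg] at rt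
  refine Pool.Agent.H78.RT.run d.F (ruleF d.F T d.hs) (mkS sp ep sx J g ne la) (v := env A T r)
    ⟨_, rfl⟩ (by rw [hsg]; cases sp <;> rfl)
    (lL := match ep with | true => none | false => some (A.p - T.t))
    (hL := match ep with | true => some T.t | false => none)
    (lR := match ep with | true => some (A.p - T.t) | false => none)
    (hR := match ep with | true => none | false => some T.t)
    ?_ ?_ ?_ ?_ ?_ ?_ ?_ ?_ hne (allO rfl hla) (fun h => by cases h) ?_ h
  · cases ep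
    · change A.D * (A.p - T.t) = A.p * dot [0, 0, 0, 0, 1, 0, -1] (1 :: env A T r)
      unfold env
      simp only [dot_cons, dot_nil]
      rw [th_eq, th_sub, th_p]; ring
    · trivial
  · cases ep
    · trivial
    · change A.D * T.t = A.p * dot [0, 0, 0, 0, 0, 0, 1] (1 :: env A T r)
      unfold env
      simp only [dot_cons, dot_nil]
      rw [th_eq]; ring
  · cases ep
    · trivial
    · change A.D * (A.p - T.t) = A.p * dot [0, 0, 0, 0, 1, 0, -1] (1 :: env A T r)
      unfold env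
      simp only [dot_cons, dot_nil]
      rw [th_eq, th_sub, th_p]; ring
  · cases ep
    · change A.D * T.t = A.p * dot [0, 0, 0, 0, 0, 0, 1] (1 :: env A T r)
      unfold env
      simp only [dot_cons, dot_nil]
      rw [th_eq]; ring
    · trivial
  · intro j h1 h2
    cases ep
    · exact Or.inr ⟨hep, by have := h1 _ rfl; omega⟩
    · exact Or.inl ⟨hep, h2 _ rfl⟩
  · intro j h1 h2
    cases ep
    · exact Or.inr ⟨hep, h2 _ rfl⟩
    · exact Or.inl ⟨hep, by have := h1 _ rfl; omega⟩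
  · refine ⟨⟨T.t, ?_⟩, AllB.append (AllC.toB hJ) ⟨⟨A.p, ?_⟩, trivial⟩⟩
    · unfold LR.Ok rT env
      simp only [dot_cons, dot_nil]
      convert rt using 1 <;> ring
    · unfold LR.Ok rP env
      simp only [dot_cons, dot_nil]
      convert Rec.P A using 1 <;> ring
  · refine ⟨⟨T.t, ⟨?_, T.t0, T.tp⟩⟩, hJ⟩
    unfold rT env
    simp only [dot_cons, dot_nil]
    convert rt using 1 <;> ring
  · exact AllNn.append hg (d.G hsg hep r)

/-! ### residues -/

theorem ST.at (_d : ST A T sx) : (A.q : ℤ) ∣ A.a * T.t - T.ep * A.sg := by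
  have h1 := (dvd_mul_left (A.q : ℤ) A.p).trans T.tie
  have h2 := dvd_add h1 ((dvd_mul_right (A.q : ℤ) A.w).mul_left T.ep)
  rwa [show A.a * T.t - T.ep * (A.q * A.w + A.sg) + T.ep * (A.q * A.w)
    = A.a * T.t - T.ep * A.sg by ring] at h2

/-- an index `i` with `a i ≡ 0, ± 1` is congruent to `0`, `t` or `- t` -/
theorem ST.res (d : ST A T sx) {i e : ℤ} (he : -1 ≤ e) (he' : e ≤ 1)
    (h : (A.q : ℤ) ∣ A.a * i - e) : (A.q : ℤ) ∣ i ∨ (A.q : ℤ) ∣ i - T.t ∨ (A.q : ℤ) ∣ i + T.t := by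
  have h1 := d.at
  have hs : T.ep * A.sg = 1 ∨ T.ep * A.sg = -1 := by
    rcases T.hep with h | h <;> rcases A.hsg with h' | h' <;> rw [h, h'] <;> norm_num
  by_cases h0 : e = 0
  · left
    rw [h0, sub_zero] at h
    exact Pool.Agent.H23.DT.dvd_of A h
  · by_cases h2 : e = T.ep * A.sg
    · right; left
      apply Pool.Agent.H23.DT.dvd_of A
      have := dvd_sub h h1
      rwa [h2, show A.a * i - T.ep * A.sg - (A.a * T.t - T.ep * A.sg) = A.a * (i - T.t) by ring]
        at this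
    · right; right
      apply Pool.Agent.H23.DT.dvd_of A
      have h3 : e = - (T.ep * A.sg) := by omega
      have := dvd_add h h1
      rwa [h3, show A.a * i - -(T.ep * A.sg) + (A.a * T.t - T.ep * A.sg) = A.a * (i + T.t) by ring]
        at this

theorem single_no {A : TAp} {T : A.Tie}
    (h : (A.h : ℤ) < (T.x + T.ep * A.om * A.h) % A.p ∧
      (T.x + T.ep * A.om * A.h) % A.p < A.p - A.h) {v : ℤ} (v0 : -(A.h : ℤ) ≤ v)
    (v1 : v ≤ A.h) (hv : (A.p : ℤ) ∣ T.x + T.ep * A.om * A.h - v) : False := by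
  have hp := A.p_pos'
  have hh := A.h2
  obtain ⟨h1, h2⟩ := h
  have e := Int.emod_emod_of_dvd (T.x + T.ep * A.om * A.h) (dvd_refl (A.p : ℤ))
  have e2 : (T.x + T.ep * A.om * A.h) % A.p = v % A.p := by
    apply Int.ModEq.symm
    exact (Int.modEq_iff_dvd).2 hv
  rcases le_or_gt 0 v with h0 | h0
  · rw [e2, Int.emod_eq_of_lt h0 (by omega)] at h1
    omega
  · have e3 : v % A.p = v + A.p := by
      rw [← Int.add_emod_right, Int.emod_eq_of_lt (by omega) (by omega)]
    rw [e2, e3] at h2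
    omega

/-- an overlapping class is not `q - t` -/
theorem ST.not_qt (d : ST A T sx) {i m f s : ℤ} (o : T.Ov i m f s) : i ≠ A.q - T.t := by
  intro hi
  obtain ⟨c, n1, m0, m1, v0, v1⟩ := o
  rcases d.hs with h | hS
  · have := c.2.1; omega
  · have hp := A.p_pos'
    have f0 := c.2.2.1
    have f1 := c.2.2.2.1
    have hq := A.q_pos'
    have q6 := q6 A
    have w2 := A.w2
    have k1 := c.2.2.2.2.1
    have e1 : (A.p : ℤ) * A.q ∣ A.a * A.q := by
      obtain ⟨z, hz⟩ := A.hpa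
      exact ⟨z, by rw [hz]; ring⟩
    have k2 := dvd_sub e1 (dvd_add k1 T.tie)
    rw [hi, show A.a * A.q - (A.a * (A.q - T.t) - (A.q * m + f)
      + (A.a * T.t - T.ep * (A.q * A.w + A.sg))) = A.q * m + f + T.ep * (A.q * A.w + A.sg) by ring]
      at k2
    have NWq : 2 * (A.q * A.w : ℤ) + A.q ≤ (A.p : ℤ) * A.q := by
      have := NW A; unfold NN at this; linarith
    have a1 : A.q * (m + 1) ≤ A.q * (A.w : ℤ) := mul_le_mul_of_nonneg_left (by omega) hq.le
    have a2 : A.q * (-(A.w : ℤ)) ≤ A.q * m := mul_le_mul_of_nonneg_left (by omega) hq.le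
    rw [mul_add, mul_one] at a1
    rw [mul_neg] at a2
    have hW : 0 < (A.q : ℤ) * A.w := by have := W2 A; omega
    have hsg := A.hsg
    have k3 := dvd_add c.2.2.2.2.2 T.row
    rw [hi] at k3
    have k4 := dvd_sub A.hqe k3
    rw [show A.e * A.q + A.om * A.h - (A.e * (A.q - T.t) - s + (A.e * T.t - T.ep * (T.x - A.w)))
      = s + T.ep * T.x - T.ep * A.w + A.om * A.h by ring] at k4
    have zero : ∀ x : ℤ, (A.p : ℤ) * A.q ∣ x → -((A.p : ℤ) * A.q) < x → x < (A.p : ℤ) * A.q →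
        x = 0 := by
      rintro x ⟨z, hz⟩ h3 h4
      have hNp := A.N_pos'
      rcases lt_trichotomy z 0 with h | h | h
      · exfalso
        have : (A.p : ℤ) * A.q * z ≤ A.p * A.q * (-1) := mul_le_mul_of_nonneg_left (by omega) hNp.le
        omega
      · rw [hz, h, mul_zero]
      · exfalso
        have : (A.p : ℤ) * A.q * 1 ≤ A.p * A.q * z := mul_le_mul_of_nonneg_left (by omega) hNp.le
        omega
    rcases T.hep with he | he
    · rw [he, one_mul] at k2 k4
      have hz := zero _ k2 (by omega) (by omega)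
      have h1 : A.sg = -1 := by omega
      have h2 : m = -A.w := by
        have : A.q * (m + A.w) = 1 - f := by rw [mul_add]; omega
        have h3 : m + A.w < 1 := by
          by_contra hc
          have : A.q * 1 ≤ A.q * (m + A.w) := mul_le_mul_of_nonneg_left (by omega) hq.le
          omega
        omega
      refine single_no hS (v := -(m + s)) (by omega) (by omega) ?_
      rw [he, one_mul, h2]
      rw [one_mul] at k4
      rwa [show T.x + A.om * A.h - -(-(A.w : ℤ) + s) = s + T.x - A.w + A.om * A.h by ring]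
    · rw [he] at k2 k4
      have hz := zero _ k2 (by omega) (by omega)
      have h1 : A.sg = -1 := by omega
      have h2 : m = A.w - 1 := by
        have e2 : A.q * (A.w - 1 - m) = f + 1 - A.q := by rw [mul_sub, mul_sub]; omega
        have h3 : A.w - 1 - m < 1 := by
          by_contra hc
          have : A.q * 1 ≤ A.q * (A.w - 1 - m) := mul_le_mul_of_nonneg_left (by omega) hq.le
          omega
        omega
      refine single_no hS (v := m + s + 1) (by omega) (by omega) ?_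
      rw [he, h2]
      rw [← dvd_neg]
      rwa [show -(T.x + -1 * A.om * A.h - ((A.w : ℤ) - 1 + s + 1))
        = s + -1 * T.x - -1 * A.w + A.om * A.h by ring]

/-- an overlapping class in scaled form -/
structure OC (A : TAp) (T : A.Tie) (i U S θ : ℤ) : Prop where
  c : IsC A i U S θ
  it : i ≠ T.t
  iq : i ≠ A.q - T.t
  qS : (A.q : ℤ) ∣ S
  nt : θ ≠ th A T.t
  n0 : 2 ≤ θ
  n1 : θ + 2 ≤ A.D
  t0 : θ + 2 ≤ th A T.t ∨ th A T.t + 2 ≤ θ
  t1 : θ + th A T.t = A.D ∨ θ + th A T.t + 2 ≤ A.D ∨ A.D + 2 ≤ θ + th A T.t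
  u0 : -(A.q * A.w : ℤ) + 2 ≤ U
  u1 : U + 2 ≤ A.q * A.w
  u : U + 2 ≤ 0 ∨ 2 ≤ U
  v0 : -(A.q * A.h : ℤ) + 2 ≤ U + S
  v1 : U + S + 2 ≤ A.q * A.h
  v : U + S + 2 ≤ 0 ∨ 2 ≤ U + S

/-- genericity of `U` -/
theorem ST.Ugen (d : ST A T sx) {j U S θ : ℤ} (h : IsC A j U S θ) (h1 : j ≠ T.t)
    (h2 : j ≠ A.q - T.t) (k : ℤ) : A.q * k + 2 ≤ U ∨ U + 2 ≤ A.q * k := by
  by_contra hc
  have h3 := (dvd_mul_left (A.q : ℤ) A.p).trans h.1.1
  have h4 : (A.q : ℤ) ∣ A.a * j - (U - A.q * k) := by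
    have := dvd_add h3 (dvd_mul_right (A.q : ℤ) k)
    rwa [show A.a * j - U + A.q * k = A.a * j - (U - A.q * k) by ring] at this
  have pq : (A.p : ℤ) < A.q := by exact_mod_cast A.pq
  have j0 := h.2.1
  have j1 := h.2.2
  have t0 := T.t0
  have tp := T.tp
  rcases d.res (by omega) (by omega) h4 with h5 | h5 | h5
  · exact Pool.Agent.H23.DT.not_dvd_small j0 (by omega) h5
  · rcases lt_trichotomy j T.t with h6 | h6 | h6
    · exact Pool.Agent.H23.DT.not_dvd_small (q := A.q) (i := T.t - j) (by omega) (by omega)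
        (by rw [← dvd_neg]; rwa [neg_sub])
    · exact h1 h6
    · exact Pool.Agent.H23.DT.not_dvd_small (q := A.q) (i := j - T.t) (by omega) (by omega) h5
  · obtain ⟨z, hz⟩ := h5
    have z1 : z < 2 := by
      by_contra hc
      have : (A.q : ℤ) * 2 ≤ A.q * z := mul_le_mul_of_nonneg_left (by omega) (by omega)
      omega
    have z0 : 0 < z := by
      by_contra hc
      have : (A.q : ℤ) * z ≤ A.q * 0 := mul_le_mul_of_nonneg_left (by omega) (by omega)
      omega
    have : z = 1 := by omega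
    rw [this, mul_one] at hz
    apply h2
    omega

end Pool.Agent.H78.SV
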