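import Pool.Agent.H78.SV.Sp

set_option linter.all false

namespace Pool.Agent.H78.SV

open Pool.Agent.H78.RT
open Pool.Agent.H78.Tie
open Pool.Agent.H78.Tie.TAp
open Pool.Agent.H81.AP (LF)

noncomputable def hmA00_t : T := (.cl 16945 1410746483278082 0x5010c010502000102 (.mm 2 0 1 false false true 1408551721369858 983297 9 false ⟨false, 8, 0x7010c010101020102, 0x20a0001010205080404010100040102030204⟩ ⟨true, 8, 30082662657, 0x50105020001000102010101060102⟩ ⟨true, 8, 0x5050506000300030201010101030102020204, 0x7010b010101030102⟩ ⟨false, 7, 0x2060001010105040602060202, 1⟩ ⟨true, 8, 0x502050206010101040102, 0x502050206010001050102⟩ ⟨false, 7, 0x205000101010102030106010201030102, 0x501050200010003020101010301020204⟩))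

noncomputable def hmA00_g : List LF := [[0, 0, 0, 0, 0, 0, 1, 0, -2], [0, 0, 0, 0, 0, 0, -1, 0, 2], [0, 0, 1, 0, 0, -1, 0, 0, 0, -2], [0, 0, -1, 0, 0, 1, 0, 0, 0, 2], [1, 0, -1, 0, 0, 0, 0, 0, 0, 0, -2], [-1, 0, 1, 0, 0, 0, 0, 0, 0, 0, 2], [-4, 0, 0, 0, 1, 0, -2], [0, -1, 2, 0, 0, -2, 0, -1], [0, 1, -2, 0, 0, 2, 0, 1], [0, -1, 1, 1, 0, -1], [0, 1, -1, -1, 0, 1], [-1, -1, 2, 1], [0, 0, -1, 1], [-1, 0, 1, 0, -1], [-1, 0, 0, 0, 1, 0, 0, 0, -1], [-1, 0, 0, 0, 0, 0, 0, 0, 1]]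

noncomputable def hmA00_d : Dat := mkS false false (-1) [⟨[0, 0, 0, 0, 0, 0, 0, 0, 0, 0, 1], [0, 0, 0, 0, 0, 0, 0, 0, 0, 1], [0, 0, 0, 0, 0, 0, 0, 0, 1]⟩] hmA00_g [] []

theorem hmA00_k : hmA00_d.chk hmA00_t = true := by decide +kernel

theorem hmA00_c {A : TAp} {T : A.Tie} {i U S θ : ℤ} (d : ST A T (-1))
    (hsg : A.sg = sgv false) (hep : T.ep = sgv false) (hc : IsC A i U S θ)
    (hθ2 : 2 * θ = th A T.t + 0 * A.D) (hU2 : 2 * U + A.q * A.w + (-1) = 0 * A.D + 0 * NN A)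
    (hS2 : 2 * S + A.q * T.x = A.q * A.w + (0) * NN A) (h4 : 2 * th A T.t + 4 ≤ A.D)
    (nO : NN A + A.q + 2 * (A.q * T.x) = 2 * (A.q * A.w))
    (hs1 : NN A + A.q * T.x ≤ (A.q * A.w : ℤ) + A.q * A.h)
    (hs0 : (A.q * A.w : ℤ) + A.q * A.h ≤ NN A + A.q * T.x)
    (ra : NN A < 2 * (A.q * A.w : ℤ) + A.q * A.h)
    (hWH : (A.q * A.w : ℤ) ≤ A.q * A.h)
    (hDW : A.D < A.q * A.w)
    (t2 : θ + 1 ≤ A.D)
    (t1 : 1 ≤ θ) : False := by
  exact d.run hsg hep (J := [⟨[0, 0, 0, 0, 0, 0, 0, 0, 0, 0, 1], [0, 0, 0, 0, 0, 0, 0, 0, 0, 1], [0, 0, 0, 0, 0, 0, 0, 0, 1]⟩])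
    (g := hmA00_g) (ne := [])
    (la := []) (r := [θ, S, U]) ⟨clN hc _, trivial⟩
    (And.intro (by unfold Pool.Agent.H78.SV.env; simp only [Pool.Agent.H81.AP.dot_cons, Pool.Agent.H81.AP.dot_nil]; linarith) (And.intro (by unfold Pool.Agent.H78.SV.env; simp only [Pool.Agent.H81.AP.dot_cons, Pool.Agent.H81.AP.dot_nil]; linarith) (And.intro (by unfold Pool.Agent.H78.SV.env; simp only [Pool.Agent.H81.AP.dot_cons, Pool.Agent.H81.AP.dot_nil]; linarith) (And.intro (by unfold Pool.Agent.H78.SV.env; simp only [Pool.Agent.H81.AP.dot_cons, Pool.Agent.H81.AP.dot_nil]; linarith) (And.intro (by unfold Pool.Agent.H78.SV.env; simp only [Pool.Agent.H81.AP.dot_cons, Pool.Agent.H81.AP.dot_nil]; linarith) (And.intro (by unfold Pool.Agent.H78.SV.env; simp only [Pool.Agent.H81.AP.dot_cons, Pool.Agent.H81.AP.dot_nil]; linarith) (And.intro (by unfold Pool.Agent.H78.SV.env; simp only [Pool.Agent.H81.AP.dot_cons, Pool.Agent.H81.AP.dot_nil];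 linarith) (And.intro (by unfold Pool.Agent.H78.SV.env; simp only [Pool.Agent.H81.AP.dot_cons, Pool.Agent.H81.AP.dot_nil]; linarith) (And.intro (by unfold Pool.Agent.H78.SV.env; simp only [Pool.Agent.H81.AP.dot_cons, Pool.Agent.H81.AP.dot_nil]; linarith) (And.intro (f_hs1 hs1 _) (And.intro (f_hs0 hs0 _) (And.intro (f_ra ra _) (And.intro (f_hWH hWH _) (And.intro (f_hDW hDW _) (And.intro (f_t2 t2 _) (And.intro (f_t1 t1 _) trivial))))))))))))))))
    (trivial)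
    (d.resN hsg hep hc (fnil)) hmA00_k

noncomputable def hmA0m_t : T := (.br 38649753567253108766 (.br 36308448971581421600 (.ax 0 [65793, 257]) (.lf 1 0 true true false 1408551721500930 0 1408551721500930 4 true ⟨false, 8, 0x30203010c010101040102, 0x208020105080404010100040102050204⟩ ⟨true, 9, 0x50105010301000201020101010100020201000202, 0x20402010102030106010201050102⟩ ⟨false, 7, 0x2040202050206010101060102, 0x502050206010001070102⟩ ⟨true, 8, 0x50105020001000102010101080102, 846679805329666⟩ (.same ⟨false, 8, 1, 0x2060001010105040602080202⟩ ⟨false, 7, 0x206000101010102030206010101060102, 0xb02040101020101010100020202000402⟩) (.out 7 0x2040202050206030001070102 0x502050206010101060102) (.out 7 0x2040001030103020f0202 0x50105020001000102010101080102) (.diff 8 30082793729 0x5020a0101010101010100010201000201 ⟨false, 8, 0x502050200010501080101, 565148994961666⟩ ⟨true, 8, 0x5040102030206010101060102, 0xb02040101020101010100020202000402⟩)))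 (.cl 16881 1408551721435394 0x5030c030402020102 (.cl 16882 1410750778245378 0x5010c010402020102 (.mm 1 0 2 true false true 1048833 1408551721435394 1 true ⟨false, 7, 0x30203010b010101040102, 0x208020105080404010101040102030204⟩ ⟨true, 8, 1, 0x502050200010501070101⟩ ⟨true, 7, 0x208020105080404010100040102040204, 0x501090108020001000202⟩ ⟨false, 7, 0x3040101050404020101070202, 30082728193⟩ ⟨true, 8, 0x502050206010001060102, 0x502050206010101050102⟩ ⟨false, 8, 0x20402010504040201010302030204, 0x20402010102030106010201040102⟩))))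

noncomputable def hmA0m_g : List LF := [[0, 0, 0, 0, 0, 0, 1, 0, -2], [0, 0, 0, 0, 0, 0, -1, 0, 2], [0, -1, 1, 0, 0, -1, 0, 0, 0, -2], [0, 1, -1, 0, 0, 1, 0, 0, 0, 2], [1, 0, -1, 0, 0, 0, 0, 0, 0, 0, -2], [-1, 0, 1, 0, 0, 0, 0, 0, 0, 0, 2], [-4, 0, 0, 0, 1, 0, -2], [0, -1, 2, 0, 0, -2, 0, -1], [0, 1, -2, 0, 0, 2, 0, 1], [0, -1, 1, 1, 0, -1], [0, 1, -1, -1, 0, 1], [-1, -1, 2, 1], [0, 0, -1, 1], [-1, 0, 1, 0, -1], [-1, 0, 0, 0, 1, 0, 0, 0, -1], [-1, 0, 0, 0, 0, 0, 0, 0, 1]]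

noncomputable def hmA0m_d : Dat := mkS false false (-1) [⟨[0, 0, 0, 0, 0, 0, 0, 0, 0, 0, 1], [0, 0, 0, 0, 0, 0, 0, 0, 0, 1], [0, 0, 0, 0, 0, 0, 0, 0, 1]⟩] hmA0m_g [] [[1, 0, -1, 0, 0, 0, -1, 0, 1, -1, -1]]

theorem hmA0m_k : hmA0m_d.chk hmA0m_t = true := by decide +kernel

theorem hmA0m_c {A : TAp} {T : A.Tie} {i U S θ : ℤ} (d : ST A T (-1))
    (hsg : A.sg = sgv false) (hep : T.ep = sgv false) (hc : IsC A i U S θ)
    (hθ2 : 2 * θ = th A T.t + 0 * A.D) (hU2 : 2 * U + A.q * A.w + (-1) = 0 * A.D + 0 * NN A)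
    (hS2 : 2 * S + A.q * T.x = A.q * A.w + (-1) * NN A) (h4 : 2 * th A T.t + 4 ≤ A.D)
    (nO : NN A + A.q + 2 * (A.q * T.x) = 2 * (A.q * A.w))
    (hs1 : NN A + A.q * T.x ≤ (A.q * A.w : ℤ) + A.q * A.h)
    (hs0 : (A.q * A.w : ℤ) + A.q * A.h ≤ NN A + A.q * T.x)
    (ra : NN A < 2 * (A.q * A.w : ℤ) + A.q * A.h)
    (hWH : (A.q * A.w : ℤ) ≤ A.q * A.h)
    (hDW : A.D < A.q * A.w)
    (t2 : θ + 1 ≤ A.D)
    (t1 : 1 ≤ θ) : False := by
  exact d.run hsg hep (J := [⟨[0, 0, 0, 0, 0, 0, 0, 0, 0, 0, 1], [0, 0, 0, 0, 0, 0, 0, 0, 0, 1], [0, 0, 0, 0, 0, 0, 0, 0, 1]⟩])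
    (g := hmA0m_g) (ne := [])
    (la := [[1, 0, -1, 0, 0, 0, -1, 0, 1, -1, -1]]) (r := [θ, S, U]) ⟨clN hc _, trivial⟩
    (And.intro (by unfold Pool.Agent.H78.SV.env; simp only [Pool.Agent.H81.AP.dot_cons, Pool.Agent.H81.AP.dot_nil]; linarith) (And.intro (by unfold Pool.Agent.H78.SV.env; simp only [Pool.Agent.H81.AP.dot_cons, Pool.Agent.H81.AP.dot_nil]; linarith) (And.intro (by unfold Pool.Agent.H78.SV.env; simp only [Pool.Agent.H81.AP.dot_cons, Pool.Agent.H81.AP.dot_nil]; linarith) (And.intro (by unfold Pool.Agent.H78.SV.env; simp only [Pool.Agent.H81.AP.dot_cons, Pool.Agent.H81.AP.dot_nil]; linarith) (And.intro (by unfold Pool.Agent.H78.SV.env; simp only [Pool.Agent.H81.AP.dot_cons, Pool.Agent.H81.AP.dot_nil]; linarith) (And.intro (by unfold Pool.Agent.H78.SV.env; simp only [Pool.Agent.H81.AP.dot_cons, Pool.Agent.H81.AP.dot_nil]; linarith) (And.intro (by unfold Pool.Agent.H78.SV.env; simp only [Pool.Agent.H81.AP.dot_cons,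 Pool.Agent.H81.AP.dot_nil]; linarith) (And.intro (by unfold Pool.Agent.H78.SV.env; simp only [Pool.Agent.H81.AP.dot_cons, Pool.Agent.H81.AP.dot_nil]; linarith) (And.intro (by unfold Pool.Agent.H78.SV.env; simp only [Pool.Agent.H81.AP.dot_cons, Pool.Agent.H81.AP.dot_nil]; linarith) (And.intro (f_hs1 hs1 _) (And.intro (f_hs0 hs0 _) (And.intro (f_ra ra _) (And.intro (f_hWH hWH _) (And.intro (f_hDW hDW _) (And.intro (f_t2 t2 _) (And.intro (f_t1 t1 _) trivial))))))))))))))))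
    (trivial)
    (d.resN hsg hep hc (fcons (by simp only [Pool.Agent.H78.SV.res0, Pool.Agent.H78.SV.sgv, Pool.Agent.H81.AP.dot_cons, Pool.Agent.H81.AP.dot_nil]; ring) (fnil))) hmA0m_k

noncomputable def hmA10_t : T := (.cl 16945 1410746483278082 0x5010c010502000102 (.mm 2 0 1 false false true 1408551721369858 983297 0 true ⟨true, 8, 0x20104010101020102, 0x208020105080404010100040102030204⟩ ⟨false, 8, 1, 0x2060001010105040602060202⟩ ⟨false, 7, 0x208020105080404010101040102020204, 0x30203010b010101030102⟩ ⟨true, 8, 0x50105020001000102010101060102, 30082662657⟩ ⟨false, 7, 0x2030201050206010101040102, 0x2030201050206010001050102⟩ ⟨true, 8, 0x90102020401030204, 0x5030102030106010301020102⟩))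

noncomputable def hmA10_g : List LF := [[0, 0, 0, 0, 0, 0, 1, 0, -2], [0, 0, 0, 0, 0, 0, -1, 0, 2], [0, 0, 1, 0, 0, -1, 0, 0, 0, -2], [0, 0, -1, 0, 0, 1, 0, 0, 0, 2], [1, 1, -1, 0, 0, 0, 0, 0, 0, 0, -2], [-1, -1, 1, 0, 0, 0, 0, 0, 0, 0, 2], [-4, 0, 0, 0, 1, 0, -2], [0, -1, 2, 0, 0, -2, 0, -1], [0, 1, -2, 0, 0, 2, 0, 1], [0, -1, 1, 1, 0, -1], [0, 1, -1, -1, 0, 1], [-1, -1, 2, 1], [0, 0, -1, 1], [-1, 0, 1, 0, -1], [-1, 0, 0, 0, 1, 0, 0, 0, -1], [-1, 0, 0, 0, 0, 0, 0, 0, 1]]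

noncomputable def hmA10_d : Dat := mkS false false (-1) [⟨[0, 0, 0, 0, 0, 0, 0, 0, 0, 0, 1], [0, 0, 0, 0, 0, 0, 0, 0, 0, 1], [0, 0, 0, 0, 0, 0, 0, 0, 1]⟩] hmA10_g [] []

theorem hmA10_k : hmA10_d.chk hmA10_t = true := by decide +kernel

theorem hmA10_c {A : TAp} {T : A.Tie} {i U S θ : ℤ} (d : ST A T (-1))
    (hsg : A.sg = sgv false) (hep : T.ep = sgv false) (hc : IsC A i U S θ)
    (hθ2 : 2 * θ = th A T.t + 0 * A.D) (hU2 : 2 * U + A.q * A.w + (-1) = 0 * A.D + 1 * NN A)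
    (hS2 : 2 * S + A.q * T.x = A.q * A.w + (0) * NN A) (h4 : 2 * th A T.t + 4 ≤ A.D)
    (nO : NN A + A.q + 2 * (A.q * T.x) = 2 * (A.q * A.w))
    (hs1 : NN A + A.q * T.x ≤ (A.q * A.w : ℤ) + A.q * A.h)
    (hs0 : (A.q * A.w : ℤ) + A.q * A.h ≤ NN A + A.q * T.x)
    (ra : NN A < 2 * (A.q * A.w : ℤ) + A.q * A.h)
    (hWH : (A.q * A.w : ℤ) ≤ A.q * A.h)
    (hDW : A.D < A.q * A.w)
    (t2 : θ + 1 ≤ A.D)
    (t1 : 1 ≤ θ) : False := by
  exact d.run hsg hep (J := [⟨[0, 0, 0, 0, 0, 0, 0, 0, 0, 0, 1], [0, 0, 0, 0, 0, 0, 0, 0, 0, 1], [0, 0, 0, 0, 0, 0, 0, 0, 1]⟩])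
    (g := hmA10_g) (ne := [])
    (la := []) (r := [θ, S, U]) ⟨clN hc _, trivial⟩
    (And.intro (by unfold Pool.Agent.H78.SV.env; simp only [Pool.Agent.H81.AP.dot_cons, Pool.Agent.H81.AP.dot_nil]; linarith) (And.intro (by unfold Pool.Agent.H78.SV.env; simp only [Pool.Agent.H81.AP.dot_cons, Pool.Agent.H81.AP.dot_nil]; linarith) (And.intro (by unfold Pool.Agent.H78.SV.env; simp only [Pool.Agent.H81.AP.dot_cons, Pool.Agent.H81.AP.dot_nil]; linarith) (And.intro (by unfold Pool.Agent.H78.SV.env; simp only [Pool.Agent.H81.AP.dot_cons, Pool.Agent.H81.AP.dot_nil]; linarith) (And.intro (by unfold Pool.Agent.H78.SV.env; simp only [Pool.Agent.H81.AP.dot_cons, Pool.Agent.H81.AP.dot_nil]; linarith) (And.intro (by unfold Pool.Agent.H78.SV.env; simp only [Pool.Agent.H81.AP.dot_cons, Pool.Agent.H81.AP.dot_nil]; linarith) (And.intro (by unfold Pool.Agent.H78.SV.env; simp only [Pool.Agent.H81.AP.dot_cons, Pool.Agent.H81.AP.dot_nil];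 linarith) (And.intro (by unfold Pool.Agent.H78.SV.env; simp only [Pool.Agent.H81.AP.dot_cons, Pool.Agent.H81.AP.dot_nil]; linarith) (And.intro (by unfold Pool.Agent.H78.SV.env; simp only [Pool.Agent.H81.AP.dot_cons, Pool.Agent.H81.AP.dot_nil]; linarith) (And.intro (f_hs1 hs1 _) (And.intro (f_hs0 hs0 _) (And.intro (f_ra ra _) (And.intro (f_hWH hWH _) (And.intro (f_hDW hDW _) (And.intro (f_t2 t2 _) (And.intro (f_t1 t1 _) trivial))))))))))))))))
    (trivial)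
    (d.resN hsg hep hc (fnil)) hmA10_k

noncomputable def hmA1m_t : T := (.cl 16881 1408551721369858 0x5030c030402010102 (.cl 16882 1410750778179842 0x5010c010402010102 (.mm 1 0 2 true false true 983297 1408551721369858 8 false ⟨true, 8, 0x7010b010101030102, 0x5050506000300030201010101030102020204⟩ ⟨false, 8, 30082662657, 0x3040101050404020101060202⟩ ⟨false, 7, 0x20a0001010205080404010100040102030204, 0x7010c010101020102⟩ ⟨true, 8, 0x502050200010501060101, 1⟩ ⟨false, 8, 0x2030201050206010001050102, 0x2030201050206010101040102⟩ ⟨true, 9, 0x50205020001020102010301020102, 0x302090302020401030204⟩)))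

noncomputable def hmA1m_g : List LF := [[0, 0, 0, 0, 0, 0, 1, 0, -2], [0, 0, 0, 0, 0, 0, -1, 0, 2], [0, -1, 1, 0, 0, -1, 0, 0, 0, -2], [0, 1, -1, 0, 0, 1, 0, 0, 0, 2], [1, 1, -1, 0, 0, 0, 0, 0, 0, 0, -2], [-1, -1, 1, 0, 0, 0, 0, 0, 0, 0, 2], [-4, 0, 0, 0, 1, 0, -2], [0, -1, 2, 0, 0, -2, 0, -1], [0, 1, -2, 0, 0, 2, 0, 1], [0, -1, 1, 1, 0, -1], [0, 1, -1, -1, 0, 1], [-1, -1, 2, 1], [0, 0, -1, 1], [-1, 0, 1, 0, -1], [-1, 0, 0, 0, 1, 0, 0, 0, -1], [-1, 0, 0, 0, 0, 0, 0, 0, 1]]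

noncomputable def hmA1m_d : Dat := mkS false false (-1) [⟨[0, 0, 0, 0, 0, 0, 0, 0, 0, 0, 1], [0, 0, 0, 0, 0, 0, 0, 0, 0, 1], [0, 0, 0, 0, 0, 0, 0, 0, 1]⟩] hmA1m_g [] []

theorem hmA1m_k : hmA1m_d.chk hmA1m_t = true := by decide +kernel

theorem hmA1m_c {A : TAp} {T : A.Tie} {i U S θ : ℤ} (d : ST A T (-1))
    (hsg : A.sg = sgv false) (hep : T.ep = sgv false) (hc : IsC A i U S θ)
    (hθ2 : 2 * θ = th A T.t + 0 * A.D) (hU2 : 2 * U + A.q * A.w + (-1) = 0 * A.D + 1 * NN A)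
    (hS2 : 2 * S + A.q * T.x = A.q * A.w + (-1) * NN A) (h4 : 2 * th A T.t + 4 ≤ A.D)
    (nO : NN A + A.q + 2 * (A.q * T.x) = 2 * (A.q * A.w))
    (hs1 : NN A + A.q * T.x ≤ (A.q * A.w : ℤ) + A.q * A.h)
    (hs0 : (A.q * A.w : ℤ) + A.q * A.h ≤ NN A + A.q * T.x)
    (ra : NN A < 2 * (A.q * A.w : ℤ) + A.q * A.h)
    (hWH : (A.q * A.w : ℤ) ≤ A.q * A.h)
    (hDW : A.D < A.q * A.w)
    (t2 : θ + 1 ≤ A.D)
    (t1 : 1 ≤ θ) : False := by
  exact d.run hsg hep (J := [⟨[0, 0, 0, 0, 0, 0, 0, 0, 0, 0, 1], [0, 0, 0, 0, 0, 0, 0, 0, 0, 1], [0, 0, 0, 0, 0, 0, 0, 0, 1]⟩])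
    (g := hmA1m_g) (ne := [])
    (la := []) (r := [θ, S, U]) ⟨clN hc _, trivial⟩
    (And.intro (by unfold Pool.Agent.H78.SV.env; simp only [Pool.Agent.H81.AP.dot_cons, Pool.Agent.H81.AP.dot_nil]; linarith) (And.intro (by unfold Pool.Agent.H78.SV.env; simp only [Pool.Agent.H81.AP.dot_cons, Pool.Agent.H81.AP.dot_nil]; linarith) (And.intro (by unfold Pool.Agent.H78.SV.env; simp only [Pool.Agent.H81.AP.dot_cons, Pool.Agent.H81.AP.dot_nil]; linarith) (And.intro (by unfold Pool.Agent.H78.SV.env; simp only [Pool.Agent.H81.AP.dot_cons, Pool.Agent.H81.AP.dot_nil]; linarith) (And.intro (by unfold Pool.Agent.H78.SV.env; simp only [Pool.Agent.H81.AP.dot_cons, Pool.Agent.H81.AP.dot_nil]; linarith) (And.intro (by unfold Pool.Agent.H78.SV.env; simp only [Pool.Agent.H81.AP.dot_cons, Pool.Agent.H81.AP.dot_nil]; linarith) (And.intro (by unfold Pool.Agent.H78.SV.env; simp only [Pool.Agent.H81.AP.dot_cons, Pool.Agent.H81.AP.dot_nil];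 linarith) (And.intro (by unfold Pool.Agent.H78.SV.env; simp only [Pool.Agent.H81.AP.dot_cons, Pool.Agent.H81.AP.dot_nil]; linarith) (And.intro (by unfold Pool.Agent.H78.SV.env; simp only [Pool.Agent.H81.AP.dot_cons, Pool.Agent.H81.AP.dot_nil]; linarith) (And.intro (f_hs1 hs1 _) (And.intro (f_hs0 hs0 _) (And.intro (f_ra ra _) (And.intro (f_hWH hWH _) (And.intro (f_hDW hDW _) (And.intro (f_t2 t2 _) (And.intro (f_t1 t1 _) trivial))))))))))))))))
    (trivial)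
    (d.resN hsg hep hc (fnil)) hmA1m_k

noncomputable def hmB00_t : T := (.br 36308163167294457889 (.cl 16943 0x5010c010401020102 0x5030c030501010102 (.mv 0 2 1 8 9 false ⟨false, 8, 30082728193, 0x3040101050404020101070202⟩ ⟨true, 8, 30082728193, 0x50105020001000102010101070102⟩ ⟨true, 8, 0x502050200010501070101, 1⟩ ⟨false, 7, 0x2060001010105040602070202, 1⟩ (.out 8 30081941762 0x2060202050406030102050102) (.out 7 0x2060202050406030002060102 34376843522) (.diff 8 0x50301020a0100010101040102 257 ⟨false, 7, 0x205000101010102030106010201040102, 0x501050200010003020101010301030204⟩ ⟨true, 8, 0x5030102030106010201040102, 0x90102020501030204⟩) (.out 8 0x503010203010002050200010101040102 0x2060001010205040404010101020102030204))) (.cl 16943 0x5010c010401020102 0x5030c030501010102 (.mv 0 2 2 0 9 false ⟨false, 8, 282583095050497, 0x20e00010102050c0404010100060102040204⟩ ⟨true, 8, 0x5020c02010101010201000201, 0x50105020001000102010101070102⟩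 ⟨true, 8, 0x5010502000300030201010101010102030204, 0x50301020a0100010101040102⟩ ⟨false, 7, 0x2060001010105040602070202, 1⟩ (.out 8 0x901020205010202000404 0x2060202050406030102050102) (.out 7 0x2060202050406030002060102 0x9010202030101040202000404) (.diff 8 1 1409625480429825 ⟨false, 7, 0x205000101010102030106010201040102, 0x5020704010100010102010201020203000402⟩ ⟨true, 8, 0x9010202030101040202000404, 0x504050406010002060102⟩) (.out 8 0x501070202010101010101020202000401 0x2060001010105040602070202))))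

noncomputable def hmB00_g : List LF := [[0, 0, 0, 0, 1, 0, 1, 0, -2], [0, 0, 0, 0, -1, 0, -1, 0, 2], [0, 0, 1, 0, 0, -1, 0, 0, 0, -2], [0, 0, -1, 0, 0, 1, 0, 0, 0, 2], [1, 0, -1, 0, 1, 0, 0, 0, 0, 0, -2], [-1, 0, 1, 0, -1, 0, 0, 0, 0, 0, 2], [-4, 0, 0, 0, 1, 0, -2], [0, -1, 2, 0, 0, -2, 0, -1], [0, 1, -2, 0, 0, 2, 0, 1], [0, -1, 1, 1, 0, -1], [0, 1, -1, -1, 0, 1], [-1, -1, 2, 1], [0, 0, -1, 1], [-1, 0, 1, 0, -1], [-1, 0, 0, 0, 1, 0, 0, 0, -1], [-1, 0, 0, 0, 0, 0, 0, 0, 1]]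

noncomputable def hmB00_d : Dat := mkS false false (-1) [⟨[0, 0, 0, 0, 0, 0, 0, 0, 0, 0, 1], [0, 0, 0, 0, 0, 0, 0, 0, 0, 1], [0, 0, 0, 0, 0, 0, 0, 0, 1]⟩] hmB00_g [] []

theorem hmB00_k : hmB00_d.chk hmB00_t = true := by decide +kernel

theorem hmB00_c {A : TAp} {T : A.Tie} {i U S θ : ℤ} (d : ST A T (-1))
    (hsg : A.sg = sgv false) (hep : T.ep = sgv false) (hc : IsC A i U S θ)
    (hθ2 : 2 * θ = th A T.t + 1 * A.D) (hU2 : 2 * U + A.q * A.w + (-1) = 1 * A.D + 0 * NN A)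
    (hS2 : 2 * S + A.q * T.x = A.q * A.w + (0) * NN A) (h4 : 2 * th A T.t + 4 ≤ A.D)
    (nO : NN A + A.q + 2 * (A.q * T.x) = 2 * (A.q * A.w))
    (hs1 : NN A + A.q * T.x ≤ (A.q * A.w : ℤ) + A.q * A.h)
    (hs0 : (A.q * A.w : ℤ) + A.q * A.h ≤ NN A + A.q * T.x)
    (ra : NN A < 2 * (A.q * A.w : ℤ) + A.q * A.h)
    (hWH : (A.q * A.w : ℤ) ≤ A.q * A.h)
    (hDW : A.D < A.q * A.w)
    (t2 : θ + 1 ≤ A.D)
    (t1 : 1 ≤ θ) : False := by
  exact d.run hsg hep (J := [⟨[0, 0, 0, 0, 0, 0, 0, 0, 0, 0, 1], [0, 0, 0, 0, 0, 0, 0, 0, 0, 1], [0, 0, 0, 0, 0, 0, 0, 0, 1]⟩])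
    (g := hmB00_g) (ne := [])
    (la := []) (r := [θ, S, U]) ⟨clN hc _, trivial⟩
    (And.intro (by unfold Pool.Agent.H78.SV.env; simp only [Pool.Agent.H81.AP.dot_cons, Pool.Agent.H81.AP.dot_nil]; linarith) (And.intro (by unfold Pool.Agent.H78.SV.env; simp only [Pool.Agent.H81.AP.dot_cons, Pool.Agent.H81.AP.dot_nil]; linarith) (And.intro (by unfold Pool.Agent.H78.SV.env; simp only [Pool.Agent.H81.AP.dot_cons, Pool.Agent.H81.AP.dot_nil]; linarith) (And.intro (by unfold Pool.Agent.H78.SV.env; simp only [Pool.Agent.H81.AP.dot_cons, Pool.Agent.H81.AP.dot_nil]; linarith) (And.intro (by unfold Pool.Agent.H78.SV.env; simp only [Pool.Agent.H81.AP.dot_cons, Pool.Agent.H81.AP.dot_nil]; linarith) (And.intro (by unfold Pool.Agent.H78.SV.env; simp only [Pool.Agent.H81.AP.dot_cons, Pool.Agent.H81.AP.dot_nil]; linarith) (And.intro (by unfold Pool.Agent.H78.SV.env; simp only [Pool.Agent.H81.AP.dot_cons, Pool.Agent.H81.AP.dot_nil];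 linarith) (And.intro (by unfold Pool.Agent.H78.SV.env; simp only [Pool.Agent.H81.AP.dot_cons, Pool.Agent.H81.AP.dot_nil]; linarith) (And.intro (by unfold Pool.Agent.H78.SV.env; simp only [Pool.Agent.H81.AP.dot_cons, Pool.Agent.H81.AP.dot_nil]; linarith) (And.intro (f_hs1 hs1 _) (And.intro (f_hs0 hs0 _) (And.intro (f_ra ra _) (And.intro (f_hWH hWH _) (And.intro (f_hDW hDW _) (And.intro (f_t2 t2 _) (And.intro (f_t1 t1 _) trivial))))))))))))))))
    (trivial)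
    (d.resN hsg hep hc (fnil)) hmB00_k

noncomputable def hmB0m_t : T := (.br 36308163167294195746 (.cl 17904 983297 1048833 (.cl 17905 0x5030c030501010102 0x5010c010401020102 (.mv 1 0 0 1 0 true ⟨true, 8, 1, 0x502050200010501070101⟩ ⟨false, 8, 1, 0x2060001010105040602070202⟩ ⟨false, 7, 0x3040101050404020101070202, 30082728193⟩ ⟨true, 8, 0x50105020001000102010101070102, 30082728193⟩ (.out 8 34376843522 0x2060202050406030002060102) (.out 7 0x2060202050406030102050102 30081941762) (.diff 8 257 0x50206020201020100010101040102 ⟨false, 8, 0x20402010504040201010302030204, 0x20402010102030106010201040102⟩ ⟨true, 8, 0x302090302020501030204, 0x50205020001020102010201040102⟩) (.out 8 0x204020105040404010101020102030204 0x204020101020301060200010101040102)))) (.br 9431714350893087 (.cl 16914 21509767681 524545 (.cl 15921 257 0x5030c030503020102 (.mm 2 1 0 false true true 1048833 0x5030c030501020102 6 false ⟨true, 8, 65793,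 0x20c0201050c0404010101060102040204⟩ ⟨false, 7, 0x30201010a020101010101010201010201, 0x3060101050405020001080202⟩ ⟨false, 7, 0x30401010504040201010602010202, 0x304010101020a0101010101040102⟩ ⟨true, 7, 0x5010502000103010101080101, 73031811329⟩ ⟨true, 8, 0x3020903020205010202010404, 0x504050406010102060102⟩ ⟨false, 7, 0x3080103050804010103010401030204010602, 0x304010101020301030102020201050102⟩))) (.br 9431508209240095 (.cl 17905 0x5030c030501030102 0x5010c010401040102 (.cl 17906 0x5050c050501030102 257 (.mm 1 0 2 false true true 1114369 0x5030c030501030102 0 true ⟨true, 8, 131329, 0x20c0201050c0404010101060102050204⟩ ⟨false, 8, 1, 0x2060001010105040602090202⟩ ⟨false, 7, 0x30401010504040201010602020202, 0x304010101020a0101010101050102⟩ ⟨true, 8, 0x5040506010202010102010301010201020203, 0x30301010c02010101010201020201⟩ ⟨true, 8, 0x3020903020205010202020404, 0x504050406010102070102⟩ ⟨false, 8, 0x3040101050404010101010201010202020202,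 0x20402010102030106010201060102⟩))) (.zz 17843 true 7 8606712065 8623554817 0x30a0104050804010102010401070204020802 0x508050806030004080302))))

noncomputable def hmB0m_g : List LF := [[0, 0, 0, 0, 1, 0, 1, 0, -2], [0, 0, 0, 0, -1, 0, -1, 0, 2], [0, -1, 1, 0, 0, -1, 0, 0, 0, -2], [0, 1, -1, 0, 0, 1, 0, 0, 0, 2], [1, 0, -1, 0, 1, 0, 0, 0, 0, 0, -2], [-1, 0, 1, 0, -1, 0, 0, 0, 0, 0, 2], [-4, 0, 0, 0, 1, 0, -2], [0, -1, 2, 0, 0, -2, 0, -1], [0, 1, -2, 0, 0, 2, 0, 1], [0, -1, 1, 1, 0, -1], [0, 1, -1, -1, 0, 1], [-1, -1, 2, 1], [0, 0, -1, 1], [-1, 0, 1, 0, -1], [-1, 0, 0, 0, 1, 0, 0, 0, -1], [-1, 0, 0, 0, 0, 0, 0, 0, 1]]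

noncomputable def hmB0m_d : Dat := mkS false false (-1) [⟨[0, 0, 0, 0, 0, 0, 0, 0, 0, 0, 1], [0, 0, 0, 0, 0, 0, 0, 0, 0, 1], [0, 0, 0, 0, 0, 0, 0, 0, 1]⟩] hmB0m_g [] []

theorem hmB0m_k : hmB0m_d.chk hmB0m_t = true := by decide +kernel

theorem hmB0m_c {A : TAp} {T : A.Tie} {i U S θ : ℤ} (d : ST A T (-1))
    (hsg : A.sg = sgv false) (hep : T.ep = sgv false) (hc : IsC A i U S θ)
    (hθ2 : 2 * θ = th A T.t + 1 * A.D) (hU2 : 2 * U + A.q * A.w + (-1) = 1 * A.D + 0 * NN A)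
    (hS2 : 2 * S + A.q * T.x = A.q * A.w + (-1) * NN A) (h4 : 2 * th A T.t + 4 ≤ A.D)
    (nO : NN A + A.q + 2 * (A.q * T.x) = 2 * (A.q * A.w))
    (hs1 : NN A + A.q * T.x ≤ (A.q * A.w : ℤ) + A.q * A.h)
    (hs0 : (A.q * A.w : ℤ) + A.q * A.h ≤ NN A + A.q * T.x)
    (ra : NN A < 2 * (A.q * A.w : ℤ) + A.q * A.h)
    (hWH : (A.q * A.w : ℤ) ≤ A.q * A.h)
    (hDW : A.D < A.q * A.w)
    (t2 : θ + 1 ≤ A.D)
    (t1 : 1 ≤ θ) : False := by
  exact d.run hsg hep (J := [⟨[0, 0, 0, 0, 0, 0, 0, 0, 0, 0, 1], [0, 0, 0, 0, 0, 0, 0, 0, 0, 1], [0, 0, 0, 0, 0, 0, 0, 0, 1]⟩])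
    (g := hmB0m_g) (ne := [])
    (la := []) (r := [θ, S, U]) ⟨clN hc _, trivial⟩
    (And.intro (by unfold Pool.Agent.H78.SV.env; simp only [Pool.Agent.H81.AP.dot_cons, Pool.Agent.H81.AP.dot_nil]; linarith) (And.intro (by unfold Pool.Agent.H78.SV.env; simp only [Pool.Agent.H81.AP.dot_cons, Pool.Agent.H81.AP.dot_nil]; linarith) (And.intro (by unfold Pool.Agent.H78.SV.env; simp only [Pool.Agent.H81.AP.dot_cons, Pool.Agent.H81.AP.dot_nil]; linarith) (And.intro (by unfold Pool.Agent.H78.SV.env; simp only [Pool.Agent.H81.AP.dot_cons, Pool.Agent.H81.AP.dot_nil]; linarith) (And.intro (by unfold Pool.Agent.H78.SV.env; simp only [Pool.Agent.H81.AP.dot_cons, Pool.Agent.H81.AP.dot_nil]; linarith) (And.intro (by unfold Pool.Agent.H78.SV.env; simp only [Pool.Agent.H81.AP.dot_cons, Pool.Agent.H81.AP.dot_nil]; linarith) (And.intro (by unfold Pool.Agent.H78.SV.env; simp only [Pool.Agent.H81.AP.dot_cons, Pool.Agent.H81.AP.dot_nil];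 linarith) (And.intro (by unfold Pool.Agent.H78.SV.env; simp only [Pool.Agent.H81.AP.dot_cons, Pool.Agent.H81.AP.dot_nil]; linarith) (And.intro (by unfold Pool.Agent.H78.SV.env; simp only [Pool.Agent.H81.AP.dot_cons, Pool.Agent.H81.AP.dot_nil]; linarith) (And.intro (f_hs1 hs1 _) (And.intro (f_hs0 hs0 _) (And.intro (f_ra ra _) (And.intro (f_hWH hWH _) (And.intro (f_hDW hDW _) (And.intro (f_t2 t2 _) (And.intro (f_t1 t1 _) trivial))))))))))))))))
    (trivial)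
    (d.resN hsg hep hc (fnil)) hmB0m_k

noncomputable def hmB10_t : T := (.br 36308163167294195809 (.cl 16943 0x5010c010401020102 0x5030c030501010102 (.mv 0 2 1 8 9 false ⟨false, 8, 30082728193, 0x3040101050404020101070202⟩ ⟨true, 8, 30082728193, 0x50105020001000102010101070102⟩ ⟨true, 8, 0x502050200010501070101, 1⟩ ⟨false, 7, 0x2060001010105040602070202, 1⟩ (.out 8 0x2050201050406030002060102 0x20108010801050102) (.out 8 0x20108010701060102 0x2050201050406030102050102) (.out 8 0x204020101020301060200010101040102 0x204020105040404010101020102030204) (.diff 9 0x50206020201020100010101040102 257 ⟨true, 8, 0x5030102030106010201040102, 0x90102020501030204⟩ ⟨false, 8, 0x50301020301000105020201040102, 0x206000101020504040201010302030204⟩))) (.cl 17904 983297 1048833 (.cl 17905 0x5030c030501010102 0x5010c010401020102 (.mv 1 0 5 1 1 true ⟨false, 8, 0x304010101020a0100010101040102, 0x3040101050404020101010201020202000202⟩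 ⟨true, 8, 1, 0x502050200010501070101⟩ ⟨true, 8, 0x20c0201050c0404010100060102040204, 282583095050497⟩ ⟨false, 7, 0x3040101050404020101070202, 0x30301010c02010101010201000201⟩ (.out 7 0x2050201050406030102050102 0x3050102050404010101010201010202000402) (.out 7 0x3050102050404010101010201030202000402 0x2050201050406030002060102) (.out 7 0x2060001010105040602070202 0x3040101050404020101010201020202000402) (.diff 8 1409625480429825 1 ⟨true, 8, 0x90102020501030204, 0x5030102030106010201040102⟩ ⟨false, 8, 0x2050201050406010002060102, 0x3050102050404010101010201030202000402⟩)))))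

noncomputable def hmB10_g : List LF := [[0, 0, 0, 0, 1, 0, 1, 0, -2], [0, 0, 0, 0, -1, 0, -1, 0, 2], [0, 0, 1, 0, 0, -1, 0, 0, 0, -2], [0, 0, -1, 0, 0, 1, 0, 0, 0, 2], [1, 1, -1, 0, 1, 0, 0, 0, 0, 0, -2], [-1, -1, 1, 0, -1, 0, 0, 0, 0, 0, 2], [-4, 0, 0, 0, 1, 0, -2], [0, -1, 2, 0, 0, -2, 0, -1], [0, 1, -2, 0, 0, 2, 0, 1], [0, -1, 1, 1, 0, -1], [0, 1, -1, -1, 0, 1], [-1, -1, 2, 1], [0, 0, -1, 1], [-1, 0, 1, 0, -1], [-1, 0, 0, 0, 1, 0, 0, 0, -1], [-1, 0, 0, 0, 0, 0, 0, 0, 1]]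

noncomputable def hmB10_d : Dat := mkS false false (-1) [⟨[0, 0, 0, 0, 0, 0, 0, 0, 0, 0, 1], [0, 0, 0, 0, 0, 0, 0, 0, 0, 1], [0, 0, 0, 0, 0, 0, 0, 0, 1]⟩] hmB10_g [] []

theorem hmB10_k : hmB10_d.chk hmB10_t = true := by decide +kernel

theorem hmB10_c {A : TAp} {T : A.Tie} {i U S θ : ℤ} (d : ST A T (-1))
    (hsg : A.sg = sgv false) (hep : T.ep = sgv false) (hc : IsC A i U S θ)
    (hθ2 : 2 * θ = th A T.t + 1 * A.D) (hU2 : 2 * U + A.q * A.w + (-1) = 1 * A.D + 1 * NN A)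
    (hS2 : 2 * S + A.q * T.x = A.q * A.w + (0) * NN A) (h4 : 2 * th A T.t + 4 ≤ A.D)
    (nO : NN A + A.q + 2 * (A.q * T.x) = 2 * (A.q * A.w))
    (hs1 : NN A + A.q * T.x ≤ (A.q * A.w : ℤ) + A.q * A.h)
    (hs0 : (A.q * A.w : ℤ) + A.q * A.h ≤ NN A + A.q * T.x)
    (ra : NN A < 2 * (A.q * A.w : ℤ) + A.q * A.h)
    (hWH : (A.q * A.w : ℤ) ≤ A.q * A.h)
    (hDW : A.D < A.q * A.w)
    (t2 : θ + 1 ≤ A.D)
    (t1 : 1 ≤ θ) : False := by
  exact d.run hsg hep (J := [⟨[0, 0, 0, 0, 0, 0, 0, 0, 0, 0, 1], [0, 0, 0, 0, 0, 0, 0, 0, 0, 1], [0, 0, 0, 0, 0, 0, 0, 0, 1]⟩])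
    (g := hmB10_g) (ne := [])
    (la := []) (r := [θ, S, U]) ⟨clN hc _, trivial⟩
    (And.intro (by unfold Pool.Agent.H78.SV.env; simp only [Pool.Agent.H81.AP.dot_cons, Pool.Agent.H81.AP.dot_nil]; linarith) (And.intro (by unfold Pool.Agent.H78.SV.env; simp only [Pool.Agent.H81.AP.dot_cons, Pool.Agent.H81.AP.dot_nil]; linarith) (And.intro (by unfold Pool.Agent.H78.SV.env; simp only [Pool.Agent.H81.AP.dot_cons, Pool.Agent.H81.AP.dot_nil]; linarith) (And.intro (by unfold Pool.Agent.H78.SV.env; simp only [Pool.Agent.H81.AP.dot_cons, Pool.Agent.H81.AP.dot_nil]; linarith) (And.intro (by unfold Pool.Agent.H78.SV.env; simp only [Pool.Agent.H81.AP.dot_cons, Pool.Agent.H81.AP.dot_nil]; linarith) (And.intro (by unfold Pool.Agent.H78.SV.env; simp only [Pool.Agent.H81.AP.dot_cons, Pool.Agent.H81.AP.dot_nil]; linarith) (And.intro (by unfold Pool.Agent.H78.SV.env; simp only [Pool.Agent.H81.AP.dot_cons, Pool.Agent.H81.AP.dot_nil];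 linarith) (And.intro (by unfold Pool.Agent.H78.SV.env; simp only [Pool.Agent.H81.AP.dot_cons, Pool.Agent.H81.AP.dot_nil]; linarith) (And.intro (by unfold Pool.Agent.H78.SV.env; simp only [Pool.Agent.H81.AP.dot_cons, Pool.Agent.H81.AP.dot_nil]; linarith) (And.intro (f_hs1 hs1 _) (And.intro (f_hs0 hs0 _) (And.intro (f_ra ra _) (And.intro (f_hWH hWH _) (And.intro (f_hDW hDW _) (And.intro (f_t2 t2 _) (And.intro (f_t1 t1 _) trivial))))))))))))))))
    (trivial)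
    (d.resN hsg hep hc (fnil)) hmB10_k

noncomputable def hmB1m_t : T := (.br 38650034974584080417 (.cl 16943 0x5010c010401020102 0x5030c030501010102 (.mv 0 2 0 0 1 true ⟨false, 8, 1, 0x2060001010105040602070202⟩ ⟨true, 8, 1, 0x502050200010501070101⟩ ⟨true, 8, 0x50105020001000102010101070102, 30082728193⟩ ⟨false, 7, 0x3040101050404020101070202, 30082728193⟩ (.out 8 0x2050201050406030002060102 0x20108010801050102) (.out 8 0x20108010701060102 0x2050201050406030102050102) (.diff 8 257 0x50301020a0101010101030102 ⟨true, 7, 0x302090302020401040204, 0x50205020001020102010301030102⟩ ⟨false, 7, 0x20402010504040201010202040204, 0x20402010102030106010301030102⟩) (.out 8 0x5010502000300030201010100010102040204 0x2050001010101020301060201010101030102))) (.cl 17904 983297 1048833 (.cl 17905 0x5030c030501010102 0x5010c010401020102 (.mv 1 0 5 0 1 true ⟨false, 8, 0x50301020a0100010101040102, 0x2060001010205040404010101020102030204⟩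 ⟨true, 8, 1, 0x502050200010501070101⟩ ⟨true, 8, 0x509050a000300030201010100050102040204, 257⟩ ⟨false, 7, 0x3040101050404020101070202, 0x5020c02000101010301000201⟩ (.out 7 0x2050201050406030102050102 0x503050404010101000201030302000402) (.out 7 0x503050404010101000201010302000402 0x2050201050406030002060102) (.diff 8 1409625480429825 1 ⟨true, 8, 0x302090302020501030204, 0x50205020001020102010201040102⟩ ⟨false, 8, 0x2050201050406010002060102, 0x503050404010101000201010302000402⟩) (.out 8 0x502050200010501070101 0x3040101050404020101000201020302000402)))))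

noncomputable def hmB1m_g : List LF := [[0, 0, 0, 0, 1, 0, 1, 0, -2], [0, 0, 0, 0, -1, 0, -1, 0, 2], [0, -1, 1, 0, 0, -1, 0, 0, 0, -2], [0, 1, -1, 0, 0, 1, 0, 0, 0, 2], [1, 1, -1, 0, 1, 0, 0, 0, 0, 0, -2], [-1, -1, 1, 0, -1, 0, 0, 0, 0, 0, 2], [-4, 0, 0, 0, 1, 0, -2], [0, -1, 2, 0, 0, -2, 0, -1], [0, 1, -2, 0, 0, 2, 0, 1], [0, -1, 1, 1, 0, -1], [0, 1, -1, -1, 0, 1], [-1, -1, 2, 1], [0, 0, -1, 1], [-1, 0, 1, 0, -1], [-1, 0, 0, 0, 1, 0, 0, 0, -1], [-1, 0, 0, 0, 0, 0, 0, 0, 1]]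

noncomputable def hmB1m_d : Dat := mkS false false (-1) [⟨[0, 0, 0, 0, 0, 0, 0, 0, 0, 0, 1], [0, 0, 0, 0, 0, 0, 0, 0, 0, 1], [0, 0, 0, 0, 0, 0, 0, 0, 1]⟩] hmB1m_g [] []

theorem hmB1m_k : hmB1m_d.chk hmB1m_t = true := by decide +kernel

theorem hmB1m_c {A : TAp} {T : A.Tie} {i U S θ : ℤ} (d : ST A T (-1))
    (hsg : A.sg = sgv false) (hep : T.ep = sgv false) (hc : IsC A i U S θ)
    (hθ2 : 2 * θ = th A T.t + 1 * A.D) (hU2 : 2 * U + A.q * A.w + (-1) = 1 * A.D + 1 * NN A)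
    (hS2 : 2 * S + A.q * T.x = A.q * A.w + (-1) * NN A) (h4 : 2 * th A T.t + 4 ≤ A.D)
    (nO : NN A + A.q + 2 * (A.q * T.x) = 2 * (A.q * A.w))
    (hs1 : NN A + A.q * T.x ≤ (A.q * A.w : ℤ) + A.q * A.h)
    (hs0 : (A.q * A.w : ℤ) + A.q * A.h ≤ NN A + A.q * T.x)
    (ra : NN A < 2 * (A.q * A.w : ℤ) + A.q * A.h)
    (hWH : (A.q * A.w : ℤ) ≤ A.q * A.h)
    (hDW : A.D < A.q * A.w)
    (t2 : θ + 1 ≤ A.D)
    (t1 : 1 ≤ θ) : False := by
  exact d.run hsg hep (J := [⟨[0, 0, 0, 0, 0, 0, 0, 0, 0, 0, 1], [0, 0, 0, 0, 0, 0, 0, 0, 0, 1], [0, 0, 0, 0, 0, 0, 0, 0, 1]⟩])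
    (g := hmB1m_g) (ne := [])
    (la := []) (r := [θ, S, U]) ⟨clN hc _, trivial⟩
    (And.intro (by unfold Pool.Agent.H78.SV.env; simp only [Pool.Agent.H81.AP.dot_cons, Pool.Agent.H81.AP.dot_nil]; linarith) (And.intro (by unfold Pool.Agent.H78.SV.env; simp only [Pool.Agent.H81.AP.dot_cons, Pool.Agent.H81.AP.dot_nil]; linarith) (And.intro (by unfold Pool.Agent.H78.SV.env; simp only [Pool.Agent.H81.AP.dot_cons, Pool.Agent.H81.AP.dot_nil]; linarith) (And.intro (by unfold Pool.Agent.H78.SV.env; simp only [Pool.Agent.H81.AP.dot_cons, Pool.Agent.H81.AP.dot_nil]; linarith) (And.intro (by unfold Pool.Agent.H78.SV.env; simp only [Pool.Agent.H81.AP.dot_cons, Pool.Agent.H81.AP.dot_nil]; linarith) (And.intro (by unfold Pool.Agent.H78.SV.env; simp only [Pool.Agent.H81.AP.dot_cons, Pool.Agent.H81.AP.dot_nil]; linarith) (And.intro (by unfold Pool.Agent.H78.SV.env; simp only [Pool.Agent.H81.AP.dot_cons, Pool.Agent.H81.AP.dot_nil];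 linarith) (And.intro (by unfold Pool.Agent.H78.SV.env; simp only [Pool.Agent.H81.AP.dot_cons, Pool.Agent.H81.AP.dot_nil]; linarith) (And.intro (by unfold Pool.Agent.H78.SV.env; simp only [Pool.Agent.H81.AP.dot_cons, Pool.Agent.H81.AP.dot_nil]; linarith) (And.intro (f_hs1 hs1 _) (And.intro (f_hs0 hs0 _) (And.intro (f_ra ra _) (And.intro (f_hWH hWH _) (And.intro (f_hDW hDW _) (And.intro (f_t2 t2 _) (And.intro (f_t1 t1 _) trivial))))))))))))))))
    (trivial)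
    (d.resN hsg hep hc (fnil)) hmB1m_k

noncomputable def hpA00_t : T := (.cl 16945 1410746483278082 0x5010c010502000102 (.mm 2 0 1 false false true 1408551721369858 983297 9 false ⟨false, 8, 0x7010c010101020102, 0x20a0001010205080404010100040102030204⟩ ⟨true, 8, 30082662657, 0x50105020001000102010101060102⟩ ⟨true, 8, 0x5050506000300030201010101030102020204, 0x7010b010101030102⟩ ⟨false, 7, 0x2060001010105040602060202, 1⟩ ⟨true, 8, 0x502050206010101040102, 0x502050206010001050102⟩ ⟨false, 7, 0x205000101010102030106010201030102, 0x501050200010003020101010301020204⟩))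

noncomputable def hpA00_g : List LF := [[0, 0, 0, 0, 0, 0, 1, 0, -2], [0, 0, 0, 0, 0, 0, -1, 0, 2], [0, 0, 1, 0, 0, -1, 0, 0, 0, -2], [0, 0, -1, 0, 0, 1, 0, 0, 0, 2], [-1, 0, -1, 0, 0, 0, 0, 0, 0, 0, -2], [1, 0, 1, 0, 0, 0, 0, 0, 0, 0, 2], [-4, 0, 0, 0, 1, 0, -2], [0, -1, 2, 0, 0, -2, 0, -1], [0, 1, -2, 0, 0, 2, 0, 1], [0, -1, 1, 1, 0, -1], [0, 1, -1, -1, 0, 1], [-1, -1, 2, 1], [0, 0, -1, 1], [-1, 0, 1, 0, -1], [-1, 0, 0, 0, 1, 0, 0, 0, -1], [-1, 0, 0, 0, 0, 0, 0, 0, 1]]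

noncomputable def hpA00_d : Dat := mkS true false (-1) [⟨[0, 0, 0, 0, 0, 0, 0, 0, 0, 0, 1], [0, 0, 0, 0, 0, 0, 0, 0, 0, 1], [0, 0, 0, 0, 0, 0, 0, 0, 1]⟩] hpA00_g [] []

theorem hpA00_k : hpA00_d.chk hpA00_t = true := by decide +kernel

theorem hpA00_c {A : TAp} {T : A.Tie} {i U S θ : ℤ} (d : ST A T (-1))
    (hsg : A.sg = sgv true) (hep : T.ep = sgv false) (hc : IsC A i U S θ)
    (hθ2 : 2 * θ = th A T.t + 0 * A.D) (hU2 : 2 * U + A.q * A.w + (1) = 0 * A.D + 0 * NN A)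
    (hS2 : 2 * S + A.q * T.x = A.q * A.w + (0) * NN A) (h4 : 2 * th A T.t + 4 ≤ A.D)
    (nO : NN A + A.q + 2 * (A.q * T.x) = 2 * (A.q * A.w))
    (hs1 : NN A + A.q * T.x ≤ (A.q * A.w : ℤ) + A.q * A.h)
    (hs0 : (A.q * A.w : ℤ) + A.q * A.h ≤ NN A + A.q * T.x)
    (ra : NN A < 2 * (A.q * A.w : ℤ) + A.q * A.h)
    (hWH : (A.q * A.w : ℤ) ≤ A.q * A.h)
    (hDW : A.D < A.q * A.w)
    (t2 : θ + 1 ≤ A.D)
    (t1 : 1 ≤ θ) : False := by
  exact d.run hsg hep (J := [⟨[0, 0, 0, 0, 0, 0, 0, 0, 0, 0, 1], [0, 0, 0, 0, 0, 0, 0, 0, 0, 1], [0, 0, 0, 0, 0, 0, 0, 0, 1]⟩])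
    (g := hpA00_g) (ne := [])
    (la := []) (r := [θ, S, U]) ⟨clN hc _, trivial⟩
    (And.intro (by unfold Pool.Agent.H78.SV.env; simp only [Pool.Agent.H81.AP.dot_cons, Pool.Agent.H81.AP.dot_nil]; linarith) (And.intro (by unfold Pool.Agent.H78.SV.env; simp only [Pool.Agent.H81.AP.dot_cons, Pool.Agent.H81.AP.dot_nil]; linarith) (And.intro (by unfold Pool.Agent.H78.SV.env; simp only [Pool.Agent.H81.AP.dot_cons, Pool.Agent.H81.AP.dot_nil]; linarith) (And.intro (by unfold Pool.Agent.H78.SV.env; simp only [Pool.Agent.H81.AP.dot_cons, Pool.Agent.H81.AP.dot_nil]; linarith) (And.intro (by unfold Pool.Agent.H78.SV.env; simp only [Pool.Agent.H81.AP.dot_cons, Pool.Agent.H81.AP.dot_nil]; linarith) (And.intro (by unfold Pool.Agent.H78.SV.env; simp only [Pool.Agent.H81.AP.dot_cons, Pool.Agent.H81.AP.dot_nil]; linarith) (And.intro (by unfold Pool.Agent.H78.SV.env; simp only [Pool.Agent.H81.AP.dot_cons, Pool.Agent.H81.AP.dot_nil];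 linarith) (And.intro (by unfold Pool.Agent.H78.SV.env; simp only [Pool.Agent.H81.AP.dot_cons, Pool.Agent.H81.AP.dot_nil]; linarith) (And.intro (by unfold Pool.Agent.H78.SV.env; simp only [Pool.Agent.H81.AP.dot_cons, Pool.Agent.H81.AP.dot_nil]; linarith) (And.intro (f_hs1 hs1 _) (And.intro (f_hs0 hs0 _) (And.intro (f_ra ra _) (And.intro (f_hWH hWH _) (And.intro (f_hDW hDW _) (And.intro (f_t2 t2 _) (And.intro (f_t1 t1 _) trivial))))))))))))))))
    (trivial)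
    (d.resN hsg hep hc (fnil)) hpA00_k

noncomputable def hpA0m_t : T := (.cl 16914 21509636609 393473 (.cl 16945 1410746483278082 0x5010c010502000102 (.mm 2 1 0 false false true 983297 1408551721369858 6 true ⟨true, 8, 0x20103010101030102, 0x208020105080404010101040102020204⟩ ⟨false, 7, 55851876610, 0x3060101050405020001060202⟩ ⟨false, 7, 0x208020105080404010100040102030204, 0x30203010c010101020102⟩ ⟨true, 7, 0x5010502000103010101060101, 845571703767553⟩ ⟨true, 8, 0x502050206010001050102, 0x502050206010101040102⟩ ⟨false, 7, 0x20402030504040201030302020204, 0x304010101020301030102020201030102⟩)))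

noncomputable def hpA0m_g : List LF := [[0, 0, 0, 0, 0, 0, 1, 0, -2], [0, 0, 0, 0, 0, 0, -1, 0, 2], [0, -1, 1, 0, 0, -1, 0, 0, 0, -2], [0, 1, -1, 0, 0, 1, 0, 0, 0, 2], [-1, 0, -1, 0, 0, 0, 0, 0, 0, 0, -2], [1, 0, 1, 0, 0, 0, 0, 0, 0, 0, 2], [-4, 0, 0, 0, 1, 0, -2], [0, -1, 2, 0, 0, -2, 0, -1], [0, 1, -2, 0, 0, 2, 0, 1], [0, -1, 1, 1, 0, -1], [0, 1, -1, -1, 0, 1], [-1, -1, 2, 1], [0, 0, -1, 1], [-1, 0, 1, 0, -1], [-1, 0, 0, 0, 1, 0, 0, 0, -1], [-1, 0, 0, 0, 0, 0, 0, 0, 1]]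

noncomputable def hpA0m_d : Dat := mkS true false (-1) [⟨[0, 0, 0, 0, 0, 0, 0, 0, 0, 0, 1], [0, 0, 0, 0, 0, 0, 0, 0, 0, 1], [0, 0, 0, 0, 0, 0, 0, 0, 1]⟩] hpA0m_g [] []

theorem hpA0m_k : hpA0m_d.chk hpA0m_t = true := by decide +kernel

theorem hpA0m_c {A : TAp} {T : A.Tie} {i U S θ : ℤ} (d : ST A T (-1))
    (hsg : A.sg = sgv true) (hep : T.ep = sgv false) (hc : IsC A i U S θ)
    (hθ2 : 2 * θ = th A T.t + 0 * A.D) (hU2 : 2 * U + A.q * A.w + (1) = 0 * A.D + 0 * NN A)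
    (hS2 : 2 * S + A.q * T.x = A.q * A.w + (-1) * NN A) (h4 : 2 * th A T.t + 4 ≤ A.D)
    (nO : NN A + A.q + 2 * (A.q * T.x) = 2 * (A.q * A.w))
    (hs1 : NN A + A.q * T.x ≤ (A.q * A.w : ℤ) + A.q * A.h)
    (hs0 : (A.q * A.w : ℤ) + A.q * A.h ≤ NN A + A.q * T.x)
    (ra : NN A < 2 * (A.q * A.w : ℤ) + A.q * A.h)
    (hWH : (A.q * A.w : ℤ) ≤ A.q * A.h)
    (hDW : A.D < A.q * A.w)
    (t2 : θ + 1 ≤ A.D)
    (t1 : 1 ≤ θ) : False := by
  exact d.run hsg hep (J := [⟨[0, 0, 0, 0, 0, 0, 0, 0, 0, 0, 1], [0, 0, 0, 0, 0, 0, 0, 0, 0, 1], [0, 0, 0, 0, 0, 0, 0, 0, 1]⟩])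
    (g := hpA0m_g) (ne := [])
    (la := []) (r := [θ, S, U]) ⟨clN hc _, trivial⟩
    (And.intro (by unfold Pool.Agent.H78.SV.env; simp only [Pool.Agent.H81.AP.dot_cons, Pool.Agent.H81.AP.dot_nil]; linarith) (And.intro (by unfold Pool.Agent.H78.SV.env; simp only [Pool.Agent.H81.AP.dot_cons, Pool.Agent.H81.AP.dot_nil]; linarith) (And.intro (by unfold Pool.Agent.H78.SV.env; simp only [Pool.Agent.H81.AP.dot_cons, Pool.Agent.H81.AP.dot_nil]; linarith) (And.intro (by unfold Pool.Agent.H78.SV.env; simp only [Pool.Agent.H81.AP.dot_cons, Pool.Agent.H81.AP.dot_nil]; linarith) (And.intro (by unfold Pool.Agent.H78.SV.env; simp only [Pool.Agent.H81.AP.dot_cons, Pool.Agent.H81.AP.dot_nil]; linarith) (And.intro (by unfold Pool.Agent.H78.SV.env; simp only [Pool.Agent.H81.AP.dot_cons, Pool.Agent.H81.AP.dot_nil]; linarith) (And.intro (by unfold Pool.Agent.H78.SV.env; simp only [Pool.Agent.H81.AP.dot_cons, Pool.Agent.H81.AP.dot_nil];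 linarith) (And.intro (by unfold Pool.Agent.H78.SV.env; simp only [Pool.Agent.H81.AP.dot_cons, Pool.Agent.H81.AP.dot_nil]; linarith) (And.intro (by unfold Pool.Agent.H78.SV.env; simp only [Pool.Agent.H81.AP.dot_cons, Pool.Agent.H81.AP.dot_nil]; linarith) (And.intro (f_hs1 hs1 _) (And.intro (f_hs0 hs0 _) (And.intro (f_ra ra _) (And.intro (f_hWH hWH _) (And.intro (f_hDW hDW _) (And.intro (f_t2 t2 _) (And.intro (f_t1 t1 _) trivial))))))))))))))))
    (trivial)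
    (d.resN hsg hep hc (fnil)) hpA0m_k

noncomputable def hpA10_t : T := (.cl 16945 1410746483278082 0x5010c010502000102 (.mm 2 0 1 true false true 1408551721369858 983297 1 true ⟨false, 7, 0x30203010c010101020102, 0x208020105080404010100040102030204⟩ ⟨true, 8, 1, 0x502050200010501060101⟩ ⟨true, 7, 0x208020105080404010101040102020204, 0x20103010101030102⟩ ⟨false, 7, 0x3040101050404020101060202, 30082662657⟩ ⟨false, 7, 0x2030201050206010101040102, 0x2030201050206010001050102⟩ ⟨true, 8, 0x90102020401030204, 0x5030102030106010301020102⟩))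

noncomputable def hpA10_g : List LF := [[0, 0, 0, 0, 0, 0, 1, 0, -2], [0, 0, 0, 0, 0, 0, -1, 0, 2], [0, 0, 1, 0, 0, -1, 0, 0, 0, -2], [0, 0, -1, 0, 0, 1, 0, 0, 0, 2], [-1, 1, -1, 0, 0, 0, 0, 0, 0, 0, -2], [1, -1, 1, 0, 0, 0, 0, 0, 0, 0, 2], [-4, 0, 0, 0, 1, 0, -2], [0, -1, 2, 0, 0, -2, 0, -1], [0, 1, -2, 0, 0, 2, 0, 1], [0, -1, 1, 1, 0, -1], [0, 1, -1, -1, 0, 1], [-1, -1, 2, 1], [0, 0, -1, 1], [-1, 0, 1, 0, -1], [-1, 0, 0, 0, 1, 0, 0, 0, -1], [-1, 0, 0, 0, 0, 0, 0, 0, 1]]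

noncomputable def hpA10_d : Dat := mkS true false (-1) [⟨[0, 0, 0, 0, 0, 0, 0, 0, 0, 0, 1], [0, 0, 0, 0, 0, 0, 0, 0, 0, 1], [0, 0, 0, 0, 0, 0, 0, 0, 1]⟩] hpA10_g [] []

theorem hpA10_k : hpA10_d.chk hpA10_t = true := by decide +kernel

theorem hpA10_c {A : TAp} {T : A.Tie} {i U S θ : ℤ} (d : ST A T (-1))
    (hsg : A.sg = sgv true) (hep : T.ep = sgv false) (hc : IsC A i U S θ)
    (hθ2 : 2 * θ = th A T.t + 0 * A.D) (hU2 : 2 * U + A.q * A.w + (1) = 0 * A.D + 1 * NN A)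
    (hS2 : 2 * S + A.q * T.x = A.q * A.w + (0) * NN A) (h4 : 2 * th A T.t + 4 ≤ A.D)
    (nO : NN A + A.q + 2 * (A.q * T.x) = 2 * (A.q * A.w))
    (hs1 : NN A + A.q * T.x ≤ (A.q * A.w : ℤ) + A.q * A.h)
    (hs0 : (A.q * A.w : ℤ) + A.q * A.h ≤ NN A + A.q * T.x)
    (ra : NN A < 2 * (A.q * A.w : ℤ) + A.q * A.h)
    (hWH : (A.q * A.w : ℤ) ≤ A.q * A.h)
    (hDW : A.D < A.q * A.w)
    (t2 : θ + 1 ≤ A.D)
    (t1 : 1 ≤ θ) : False := by
  exact d.run hsg hep (J := [⟨[0, 0, 0, 0, 0, 0, 0, 0, 0, 0, 1], [0, 0, 0, 0, 0, 0, 0, 0, 0, 1], [0, 0, 0, 0, 0, 0, 0, 0, 1]⟩])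
    (g := hpA10_g) (ne := [])
    (la := []) (r := [θ, S, U]) ⟨clN hc _, trivial⟩
    (And.intro (by unfold Pool.Agent.H78.SV.env; simp only [Pool.Agent.H81.AP.dot_cons, Pool.Agent.H81.AP.dot_nil]; linarith) (And.intro (by unfold Pool.Agent.H78.SV.env; simp only [Pool.Agent.H81.AP.dot_cons, Pool.Agent.H81.AP.dot_nil]; linarith) (And.intro (by unfold Pool.Agent.H78.SV.env; simp only [Pool.Agent.H81.AP.dot_cons, Pool.Agent.H81.AP.dot_nil]; linarith) (And.intro (by unfold Pool.Agent.H78.SV.env; simp only [Pool.Agent.H81.AP.dot_cons, Pool.Agent.H81.AP.dot_nil]; linarith) (And.intro (by unfold Pool.Agent.H78.SV.env; simp only [Pool.Agent.H81.AP.dot_cons, Pool.Agent.H81.AP.dot_nil]; linarith) (And.intro (by unfold Pool.Agent.H78.SV.env; simp only [Pool.Agent.H81.AP.dot_cons, Pool.Agent.H81.AP.dot_nil]; linarith) (And.intro (by unfold Pool.Agent.H78.SV.env; simp only [Pool.Agent.H81.AP.dot_cons, Pool.Agent.H81.AP.dot_nil];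 linarith) (And.intro (by unfold Pool.Agent.H78.SV.env; simp only [Pool.Agent.H81.AP.dot_cons, Pool.Agent.H81.AP.dot_nil]; linarith) (And.intro (by unfold Pool.Agent.H78.SV.env; simp only [Pool.Agent.H81.AP.dot_cons, Pool.Agent.H81.AP.dot_nil]; linarith) (And.intro (f_hs1 hs1 _) (And.intro (f_hs0 hs0 _) (And.intro (f_ra ra _) (And.intro (f_hWH hWH _) (And.intro (f_hDW hDW _) (And.intro (f_t2 t2 _) (And.intro (f_t1 t1 _) trivial))))))))))))))))
    (trivial)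
    (d.resN hsg hep hc (fnil)) hpA10_k

noncomputable def hpA1m_t : T := (.cl 16945 1410746483278082 0x5010c010502000102 (.mm 2 0 1 false false true 1408551721369858 983297 1 true ⟨false, 8, 0x7010c010101020102, 0x20a0001010205080404010100040102030204⟩ ⟨true, 8, 1, 0x502050200010501060101⟩ ⟨true, 8, 0x5050506000300030201010101030102020204, 0x7010b010101030102⟩ ⟨false, 7, 0x3040101050404020101060202, 30082662657⟩ ⟨false, 7, 0x2030201050206010101040102, 0x2030201050206010001050102⟩ ⟨true, 7, 0x302090302020401030204, 0x50205020001020102010301020102⟩))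

noncomputable def hpA1m_g : List LF := [[0, 0, 0, 0, 0, 0, 1, 0, -2], [0, 0, 0, 0, 0, 0, -1, 0, 2], [0, -1, 1, 0, 0, -1, 0, 0, 0, -2], [0, 1, -1, 0, 0, 1, 0, 0, 0, 2], [-1, 1, -1, 0, 0, 0, 0, 0, 0, 0, -2], [1, -1, 1, 0, 0, 0, 0, 0, 0, 0, 2], [-4, 0, 0, 0, 1, 0, -2], [0, -1, 2, 0, 0, -2, 0, -1], [0, 1, -2, 0, 0, 2, 0, 1], [0, -1, 1, 1, 0, -1], [0, 1, -1, -1, 0, 1], [-1, -1, 2, 1], [0, 0, -1, 1], [-1, 0, 1, 0, -1], [-1, 0, 0, 0, 1, 0, 0, 0, -1], [-1, 0, 0, 0, 0, 0, 0, 0, 1]]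

noncomputable def hpA1m_d : Dat := mkS true false (-1) [⟨[0, 0, 0, 0, 0, 0, 0, 0, 0, 0, 1], [0, 0, 0, 0, 0, 0, 0, 0, 0, 1], [0, 0, 0, 0, 0, 0, 0, 0, 1]⟩] hpA1m_g [] []

theorem hpA1m_k : hpA1m_d.chk hpA1m_t = true := by decide +kernel

theorem hpA1m_c {A : TAp} {T : A.Tie} {i U S θ : ℤ} (d : ST A T (-1))
    (hsg : A.sg = sgv true) (hep : T.ep = sgv false) (hc : IsC A i U S θ)
    (hθ2 : 2 * θ = th A T.t + 0 * A.D) (hU2 : 2 * U + A.q * A.w + (1) = 0 * A.D + 1 * NN A)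
    (hS2 : 2 * S + A.q * T.x = A.q * A.w + (-1) * NN A) (h4 : 2 * th A T.t + 4 ≤ A.D)
    (nO : NN A + A.q + 2 * (A.q * T.x) = 2 * (A.q * A.w))
    (hs1 : NN A + A.q * T.x ≤ (A.q * A.w : ℤ) + A.q * A.h)
    (hs0 : (A.q * A.w : ℤ) + A.q * A.h ≤ NN A + A.q * T.x)
    (ra : NN A < 2 * (A.q * A.w : ℤ) + A.q * A.h)
    (hWH : (A.q * A.w : ℤ) ≤ A.q * A.h)
    (hDW : A.D < A.q * A.w)
    (t2 : θ + 1 ≤ A.D)
    (t1 : 1 ≤ θ) : False := by
  exact d.run hsg hep (J := [⟨[0, 0, 0, 0, 0, 0, 0, 0, 0, 0, 1], [0, 0, 0, 0, 0, 0, 0, 0, 0, 1], [0, 0, 0, 0, 0, 0, 0, 0, 1]⟩])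
    (g := hpA1m_g) (ne := [])
    (la := []) (r := [θ, S, U]) ⟨clN hc _, trivial⟩
    (And.intro (by unfold Pool.Agent.H78.SV.env; simp only [Pool.Agent.H81.AP.dot_cons, Pool.Agent.H81.AP.dot_nil]; linarith) (And.intro (by unfold Pool.Agent.H78.SV.env; simp only [Pool.Agent.H81.AP.dot_cons, Pool.Agent.H81.AP.dot_nil]; linarith) (And.intro (by unfold Pool.Agent.H78.SV.env; simp only [Pool.Agent.H81.AP.dot_cons, Pool.Agent.H81.AP.dot_nil]; linarith) (And.intro (by unfold Pool.Agent.H78.SV.env; simp only [Pool.Agent.H81.AP.dot_cons, Pool.Agent.H81.AP.dot_nil]; linarith) (And.intro (by unfold Pool.Agent.H78.SV.env; simp only [Pool.Agent.H81.AP.dot_cons, Pool.Agent.H81.AP.dot_nil]; linarith) (And.intro (by unfold Pool.Agent.H78.SV.env; simp only [Pool.Agent.H81.AP.dot_cons, Pool.Agent.H81.AP.dot_nil]; linarith) (And.intro (by unfold Pool.Agent.H78.SV.env; simp only [Pool.Agent.H81.AP.dot_cons, Pool.Agent.H81.AP.dot_nil];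 linarith) (And.intro (by unfold Pool.Agent.H78.SV.env; simp only [Pool.Agent.H81.AP.dot_cons, Pool.Agent.H81.AP.dot_nil]; linarith) (And.intro (by unfold Pool.Agent.H78.SV.env; simp only [Pool.Agent.H81.AP.dot_cons, Pool.Agent.H81.AP.dot_nil]; linarith) (And.intro (f_hs1 hs1 _) (And.intro (f_hs0 hs0 _) (And.intro (f_ra ra _) (And.intro (f_hWH hWH _) (And.intro (f_hDW hDW _) (And.intro (f_t2 t2 _) (And.intro (f_t1 t1 _) trivial))))))))))))))))
    (trivial)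
    (d.resN hsg hep hc (fnil)) hpA1m_k

noncomputable def hpB00_t : T := (.br 36308163167294457889 (.br 38632020574984083487 (.cl 17904 1048833 1114369 (.cl 17905 0x5030c030501020102 0x5010c010401030102 (.mv 1 0 0 0 9 false ⟨false, 8, 1, 0x2060001010105040602080202⟩ ⟨true, 8, 30082793729, 0x50105020001000102010101080102⟩ ⟨true, 8, 0x50105020001000102010101080102, 30082793729⟩ ⟨false, 7, 0x2060001010105040602080202, 1⟩ (.out 8 34376909058 0x2060202050406030002070102) (.out 7 0x2060202050406030102060102 257) (.diff 8 65793 0x50301020a0100010101050102 ⟨false, 7, 0x205000101010102030106010301040102, 0x501050200010003020101010201050204⟩ ⟨true, 8, 0x90102020501040204, 0x5030102030106010201050102⟩) (.out 8 0x5010502000300030201010101010102040204 0x2050001010101020301060200010101050102)))) (.br 38631743429351184414 (.br 36326459109483345952 (.ax 0 [65793, 257]) (.cl 17903 4311744769 0x5050c050401050102 (.cl 17904 1179905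 1245441 (.mv 1 0 1 9 8 false ⟨true, 8, 30082924801, 0x501050200010001020101010a0102⟩ ⟨false, 8, 30082924801, 0x30401010504040201010a0202⟩ ⟨false, 7, 0x20600010101050406020a0202, 1⟩ ⟨true, 8, 0x5020502000105010a0101, 1⟩ (.out 8 0x504050406030102080102 0x20208020701090102) (.out 8 34377040130 0x2060202050406030002090102) (.out 7 0x2060001010205040404010101020102060204 0x503010203010002050200010101070102) (.diff 8 0x901020205010302020404 0x50301020a0100010101070102 ⟨true, 8, 0x501050200010003020101010301060204, 0x304090303020301070204⟩ ⟨false, 7, 0x20602030504040201010302060204, 0x5030102030106010201070102⟩))))) (.cl 16943 0xb02060100020701000202 0x5030c030501030102 (.lf 0 2 true false false 21493055745 0 0xb02070104010202000202 1 true ⟨false, 8, 30082859265, 0x3040101050404020101090202⟩ ⟨true, 8, 1, 0x502050200010501090101⟩ ⟨false, 7, 8608350465, 0x50205020601090101⟩ ⟨true, 7, 852225, 0x502050203010201090101⟩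 (.out 8 0x504050406030002080102 0x20208020801070102) (.out 8 30082072834 0x2060202050406030102070102) (.diff 8 0x50301020a0100010101060102 0x901020205010302010404 ⟨true, 7, 0x206000101020504040201010202060204, 282600275247362⟩ ⟨false, 7, 0x20502020102030106010201060102, 0x90102020501050204⟩) (.out 8 0x503010203010002050200010101060102 0x2060001010205040404010101020102050204))))) (.cl 17904 983297 1048833 (.cl 17905 0x5030c030501010102 0x5010c010401020102 (.mv 1 0 5 0 9 false ⟨false, 8, 0x50301020a0100010101040102, 0x2060001010205040404010101020102030204⟩ ⟨true, 8, 0x5020c02010101010201000201, 0x50105020001000102010101070102⟩ ⟨true, 8, 0x509050a000300030201010100050102040204, 282583095050497⟩ ⟨false, 7, 0x2060001010105040602070202, 1⟩ (.out 8 0x9010202030101040202000404 0x2060202050406030002060102) (.out 7 0x2060202050406030102050102 0x901020205010202000404) (.diff 8 1409625480429825 1 ⟨false, 7, 0x205000101010102030106010301030102,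 0x5020704010100010102010201020201000402⟩ ⟨true, 8, 0x504050406010002060102, 0x9010202030101040202000404⟩) (.out 8 0x502050200010501070101 0x202000107010e0202)))))

noncomputable def hpB00_g : List LF := [[0, 0, 0, 0, 1, 0, 1, 0, -2], [0, 0, 0, 0, -1, 0, -1, 0, 2], [0, 0, 1, 0, 0, -1, 0, 0, 0, -2], [0, 0, -1, 0, 0, 1, 0, 0, 0, 2], [-1, 0, -1, 0, 1, 0, 0, 0, 0, 0, -2], [1, 0, 1, 0, -1, 0, 0, 0, 0, 0, 2], [-4, 0, 0, 0, 1, 0, -2], [0, -1, 2, 0, 0, -2, 0, -1], [0, 1, -2, 0, 0, 2, 0, 1], [0, -1, 1, 1, 0, -1], [0, 1, -1, -1, 0, 1], [-1, -1, 2, 1], [0, 0, -1, 1], [-1, 0, 1, 0, -1], [-1, 0, 0, 0, 1, 0, 0, 0, -1], [-1, 0, 0, 0, 0, 0, 0, 0, 1]]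

noncomputable def hpB00_d : Dat := mkS true false (-1) [⟨[0, 0, 0, 0, 0, 0, 0, 0, 0, 0, 1], [0, 0, 0, 0, 0, 0, 0, 0, 0, 1], [0, 0, 0, 0, 0, 0, 0, 0, 1]⟩] hpB00_g [] [[1, 0, -1, 0, 0, 0, 1, -1, 1, 0, -1]]

theorem hpB00_k : hpB00_d.chk hpB00_t = true := by decide +kernel

theorem hpB00_c {A : TAp} {T : A.Tie} {i U S θ : ℤ} (d : ST A T (-1))
    (hsg : A.sg = sgv true) (hep : T.ep = sgv false) (hc : IsC A i U S θ)
    (hθ2 : 2 * θ = th A T.t + 1 * A.D) (hU2 : 2 * U + A.q * A.w + (1) = 1 * A.D + 0 * NN A)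
    (hS2 : 2 * S + A.q * T.x = A.q * A.w + (0) * NN A) (h4 : 2 * th A T.t + 4 ≤ A.D)
    (nO : NN A + A.q + 2 * (A.q * T.x) = 2 * (A.q * A.w))
    (hs1 : NN A + A.q * T.x ≤ (A.q * A.w : ℤ) + A.q * A.h)
    (hs0 : (A.q * A.w : ℤ) + A.q * A.h ≤ NN A + A.q * T.x)
    (ra : NN A < 2 * (A.q * A.w : ℤ) + A.q * A.h)
    (hWH : (A.q * A.w : ℤ) ≤ A.q * A.h)
    (hDW : A.D < A.q * A.w)
    (t2 : θ + 1 ≤ A.D)
    (t1 : 1 ≤ θ) : False := by
  exact d.run hsg hep (J := [⟨[0, 0, 0, 0, 0, 0, 0, 0, 0, 0, 1], [0, 0, 0, 0, 0, 0, 0, 0, 0, 1], [0, 0, 0, 0, 0, 0, 0, 0, 1]⟩])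
    (g := hpB00_g) (ne := [])
    (la := [[1, 0, -1, 0, 0, 0, 1, -1, 1, 0, -1]]) (r := [θ, S, U]) ⟨clN hc _, trivial⟩
    (And.intro (by unfold Pool.Agent.H78.SV.env; simp only [Pool.Agent.H81.AP.dot_cons, Pool.Agent.H81.AP.dot_nil]; linarith) (And.intro (by unfold Pool.Agent.H78.SV.env; simp only [Pool.Agent.H81.AP.dot_cons, Pool.Agent.H81.AP.dot_nil]; linarith) (And.intro (by unfold Pool.Agent.H78.SV.env; simp only [Pool.Agent.H81.AP.dot_cons, Pool.Agent.H81.AP.dot_nil]; linarith) (And.intro (by unfold Pool.Agent.H78.SV.env; simp only [Pool.Agent.H81.AP.dot_cons, Pool.Agent.H81.AP.dot_nil]; linarith) (And.intro (by unfold Pool.Agent.H78.SV.env; simp only [Pool.Agent.H81.AP.dot_cons, Pool.Agent.H81.AP.dot_nil]; linarith) (And.intro (by unfold Pool.Agent.H78.SV.env; simp only [Pool.Agent.H81.AP.dot_cons, Pool.Agent.H81.AP.dot_nil]; linarith) (And.intro (by unfold Pool.Agent.H78.SV.env; simp only [Pool.Agent.H81.AP.dot_cons,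 Pool.Agent.H81.AP.dot_nil]; linarith) (And.intro (by unfold Pool.Agent.H78.SV.env; simp only [Pool.Agent.H81.AP.dot_cons, Pool.Agent.H81.AP.dot_nil]; linarith) (And.intro (by unfold Pool.Agent.H78.SV.env; simp only [Pool.Agent.H81.AP.dot_cons, Pool.Agent.H81.AP.dot_nil]; linarith) (And.intro (f_hs1 hs1 _) (And.intro (f_hs0 hs0 _) (And.intro (f_ra ra _) (And.intro (f_hWH hWH _) (And.intro (f_hDW hDW _) (And.intro (f_t2 t2 _) (And.intro (f_t1 t1 _) trivial))))))))))))))))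
    (trivial)
    (d.resN hsg hep hc (fcons (by simp only [Pool.Agent.H78.SV.res0, Pool.Agent.H78.SV.sgv, Pool.Agent.H81.AP.dot_cons, Pool.Agent.H81.AP.dot_nil]; ring) (fnil))) hpB00_k

noncomputable def hpB0m_t : T := (.br 36308163167294195745 (.br 38632020574984083487 (.cl 17904 1048833 1114369 (.cl 17905 0x5030c030501020102 0x5010c010401030102 (.mv 1 0 0 1 8 false ⟨true, 8, 1, 0x502050200010501080101⟩ ⟨false, 8, 30082793729, 0x3040101050404020101080202⟩ ⟨false, 7, 0x3040101050404020101080202, 30082793729⟩ ⟨true, 8, 0x502050200010501080101, 1⟩ (.out 8 34376909058 0x2060202050406030002070102) (.out 7 0x2060202050406030102060102 257) (.diff 8 65793 0x50206020201020100010101050102 ⟨false, 8, 0x20402010102030106010301040102, 0x20402010504040201010202050204⟩ ⟨true, 8, 0x302090302020501040204, 0x50205020001020102010201050102⟩) (.out 8 0x204020105040404010101020102040204 0x204020101020301060200010101050102)))) (.br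 8868833133725727 (.cl 16943 0x5010c010401040102 0x5030c030501030102 (.lf 0 2 true false false 21493055745 0 257 5 false ⟨false, 8, 30082859265, 0x3040101050404020101090202⟩ ⟨true, 9, 0x301090101010601050102, 0x204020105040002030401010202060204⟩ ⟨false, 7, 8608350465, 0x50205020601090101⟩ ⟨true, 8, 0x302090302020501050204, 0x50205020001020102010201060102⟩ (.out 8 0x504050406030002080102 0x20208020801070102) (.out 8 30082072834 0x2060202050406030102070102) (.out 7 0x204020101020301060200010101060102 0x204020105040404010101020102050204) (.diff 8 0x50206020201020100010101060102 0x3020903020205010302010404 ⟨true, 8, 0x50205020601090101, 1⟩ ⟨false, 7, 0x204020101020301000105020201060102, 0x302090302020501050204⟩))) (.br 36326459109483345952 (.ax 0 [257, 0xb02070104010202010202]) (.cl 17903 4311744769 0x5050c050401050102 (.cl 17904 1179905 1245441 (.mv 1 0 1 9 8 false ⟨true, 8, 30082924801, 0x501050200010001020101010a0102⟩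 ⟨false, 8, 30082924801, 0x30401010504040201010a0202⟩ ⟨false, 7, 0x20600010101050406020a0202, 1⟩ ⟨true, 8, 0x5020502000105010a0101, 1⟩ (.out 8 0x504050406030102080102 0x20208020701090102) (.out 8 34377040130 0x2060202050406030002090102) (.diff 8 0x3020903020205010302020404 0x50206020201020100010101070102 ⟨true, 8, 0x20402010504040201010302060204, 0x301090101010501070102⟩ ⟨false, 7, 0x208000301020504040201010302060204, 0x50205020001020102010201070102⟩) (.out 8 0x204020105040404010101020102060204 0x204020101020301060200010101070102))))))) (.cl 16943 0x5010c010401020102 0x5030c030501010102 (.mv 0 2 2 0 8 false ⟨true, 9, 282583095050497, 0x20c0201050c0404010100060102040204⟩ ⟨false, 8, 0x30301010c02010101010201000201, 0x3040101050404020101070202⟩ ⟨false, 8, 0x3040101050404020101010201020202000202, 0x304010101020a0100010101040102⟩ ⟨true, 8, 0x502050200010501070101, 1⟩ (.out 8 0x3020903020205010202000404 0x2060202050406030102050102)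 (.out 7 0x2060202050406030002060102 0x30209030202030101040202000404) (.diff 8 1 1409625480429825 ⟨false, 7, 0x20402010102030106010201040102, 0x3040101050404010101010201010202000202⟩ ⟨true, 8, 0x30209030202030101040202000404, 0x504050406010002060102⟩) (.out 8 0x3040101050404020101010201020202000402 0x2060001010105040602070202))))

noncomputable def hpB0m_g : List LF := [[0, 0, 0, 0, 1, 0, 1, 0, -2], [0, 0, 0, 0, -1, 0, -1, 0, 2], [0, -1, 1, 0, 0, -1, 0, 0, 0, -2], [0, 1, -1, 0, 0, 1, 0, 0, 0, 2], [-1, 0, -1, 0, 1, 0, 0, 0, 0, 0, -2], [1, 0, 1, 0, -1, 0, 0, 0, 0, 0, 2], [-4, 0, 0, 0, 1, 0, -2], [0, -1, 2, 0, 0, -2, 0, -1], [0, 1, -2, 0, 0, 2, 0, 1], [0, -1, 1, 1, 0, -1], [0, 1, -1, -1, 0, 1], [-1, -1, 2, 1], [0, 0, -1, 1], [-1, 0, 1, 0, -1], [-1, 0, 0, 0, 1, 0, 0, 0, -1], [-1, 0, 0, 0, 0, 0, 0, 0, 1]]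

noncomputable def hpB0m_d : Dat := mkS true false (-1) [⟨[0, 0, 0, 0, 0, 0, 0, 0, 0, 0, 1], [0, 0, 0, 0, 0, 0, 0, 0, 0, 1], [0, 0, 0, 0, 0, 0, 0, 0, 1]⟩] hpB0m_g [] [[-1, 0, 1, 0, 0, 0, -1, 0, -1, 0, 1]]

theorem hpB0m_k : hpB0m_d.chk hpB0m_t = true := by decide +kernel

theorem hpB0m_c {A : TAp} {T : A.Tie} {i U S θ : ℤ} (d : ST A T (-1))
    (hsg : A.sg = sgv true) (hep : T.ep = sgv false) (hc : IsC A i U S θ)
    (hθ2 : 2 * θ = th A T.t + 1 * A.D) (hU2 : 2 * U + A.q * A.w + (1) = 1 * A.D + 0 * NN A)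
    (hS2 : 2 * S + A.q * T.x = A.q * A.w + (-1) * NN A) (h4 : 2 * th A T.t + 4 ≤ A.D)
    (nO : NN A + A.q + 2 * (A.q * T.x) = 2 * (A.q * A.w))
    (hs1 : NN A + A.q * T.x ≤ (A.q * A.w : ℤ) + A.q * A.h)
    (hs0 : (A.q * A.w : ℤ) + A.q * A.h ≤ NN A + A.q * T.x)
    (ra : NN A < 2 * (A.q * A.w : ℤ) + A.q * A.h)
    (hWH : (A.q * A.w : ℤ) ≤ A.q * A.h)
    (hDW : A.D < A.q * A.w)
    (t2 : θ + 1 ≤ A.D)
    (t1 : 1 ≤ θ) : False := by
  exact d.run hsg hep (J := [⟨[0, 0, 0, 0, 0, 0, 0, 0, 0, 0, 1], [0, 0, 0, 0, 0, 0, 0, 0, 0, 1], [0, 0, 0, 0, 0, 0, 0, 0, 1]⟩])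
    (g := hpB0m_g) (ne := [])
    (la := [[-1, 0, 1, 0, 0, 0, -1, 0, -1, 0, 1]]) (r := [θ, S, U]) ⟨clN hc _, trivial⟩
    (And.intro (by unfold Pool.Agent.H78.SV.env; simp only [Pool.Agent.H81.AP.dot_cons, Pool.Agent.H81.AP.dot_nil]; linarith) (And.intro (by unfold Pool.Agent.H78.SV.env; simp only [Pool.Agent.H81.AP.dot_cons, Pool.Agent.H81.AP.dot_nil]; linarith) (And.intro (by unfold Pool.Agent.H78.SV.env; simp only [Pool.Agent.H81.AP.dot_cons, Pool.Agent.H81.AP.dot_nil]; linarith) (And.intro (by unfold Pool.Agent.H78.SV.env; simp only [Pool.Agent.H81.AP.dot_cons, Pool.Agent.H81.AP.dot_nil]; linarith) (And.intro (by unfold Pool.Agent.H78.SV.env; simp only [Pool.Agent.H81.AP.dot_cons, Pool.Agent.H81.AP.dot_nil]; linarith) (And.intro (by unfold Pool.Agent.H78.SV.env; simp only [Pool.Agent.H81.AP.dot_cons, Pool.Agent.H81.AP.dot_nil]; linarith) (And.intro (by unfold Pool.Agent.H78.SV.env; simp only [Pool.Agent.H81.AP.dot_cons,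 Pool.Agent.H81.AP.dot_nil]; linarith) (And.intro (by unfold Pool.Agent.H78.SV.env; simp only [Pool.Agent.H81.AP.dot_cons, Pool.Agent.H81.AP.dot_nil]; linarith) (And.intro (by unfold Pool.Agent.H78.SV.env; simp only [Pool.Agent.H81.AP.dot_cons, Pool.Agent.H81.AP.dot_nil]; linarith) (And.intro (f_hs1 hs1 _) (And.intro (f_hs0 hs0 _) (And.intro (f_ra ra _) (And.intro (f_hWH hWH _) (And.intro (f_hDW hDW _) (And.intro (f_t2 t2 _) (And.intro (f_t1 t1 _) trivial))))))))))))))))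
    (trivial)
    (d.resN hsg hep hc (fcons (by simp only [Pool.Agent.H78.SV.res0, Pool.Agent.H78.SV.sgv, Pool.Agent.H81.AP.dot_cons, Pool.Agent.H81.AP.dot_nil]; ring) (fnil))) hpB0m_k

noncomputable def hpB10_t : T := (.br 38650034974583818273 (.cl 17904 983297 1048833 (.cl 17905 0x5030c030501010102 0x5010c010401020102 (.mv 1 0 1 8 1 true ⟨false, 8, 30082728193, 0x3040101050404020101070202⟩ ⟨true, 8, 1, 0x502050200010501070101⟩ ⟨true, 8, 0x502050200010501070101, 1⟩ ⟨false, 7, 0x3040101050404020101070202, 30082728193⟩ (.out 7 0x2050201050406030102050102 0x20108010701060102) (.out 7 0x20108010801050102 0x2050201050406030002060102) (.out 7 0x204020101020301060201010101030102 0x204020105040404010100020102040204) (.diff 8 0x50206020201020101010101030102 257 ⟨true, 8, 0x90102020501030204, 0x5030102030106010201040102⟩ ⟨false, 8, 0x50301020301000105020301030102, 0x206000101020504040201010202040204⟩)))) (.cl 16943 0x5010c010401020102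 0x5030c030501010102 (.mv 0 2 2 0 0 true ⟨true, 8, 257, 0x20c0201050c0404010100060102040204⟩ ⟨false, 8, 1, 0x2060001010105040602070202⟩ ⟨false, 7, 0x30401010504040201010602000202, 0x304010101020a0100010101040102⟩ ⟨true, 8, 0x5040506010202010102000301010301000203, 0x30301010c02000101010301000201⟩ (.out 8 0x2050201050406030002060102 0x3050102050404010101000201010302000402) (.out 8 0x3050102050404010101000201030302000402 0x2050201050406030102050102) (.diff 8 1 1409625480429825 ⟨true, 8, 0x90102020401040204, 0x5030102030106010301030102⟩ ⟨false, 7, 0x3050102050404010101000201010302000402, 0x2050201050406010002060102⟩) (.out 8 0x3040101050404020101000201020302000402 0x2060001010105040602070202))))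

noncomputable def hpB10_g : List LF := [[0, 0, 0, 0, 1, 0, 1, 0, -2], [0, 0, 0, 0, -1, 0, -1, 0, 2], [0, 0, 1, 0, 0, -1, 0, 0, 0, -2], [0, 0, -1, 0, 0, 1, 0, 0, 0, 2], [-1, 1, -1, 0, 1, 0, 0, 0, 0, 0, -2], [1, -1, 1, 0, -1, 0, 0, 0, 0, 0, 2], [-4, 0, 0, 0, 1, 0, -2], [0, -1, 2, 0, 0, -2, 0, -1], [0, 1, -2, 0, 0, 2, 0, 1], [0, -1, 1, 1, 0, -1], [0, 1, -1, -1, 0, 1], [-1, -1, 2, 1], [0, 0, -1, 1], [-1, 0, 1, 0, -1], [-1, 0, 0, 0, 1, 0, 0, 0, -1], [-1, 0, 0, 0, 0, 0, 0, 0, 1]]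

noncomputable def hpB10_d : Dat := mkS true false (-1) [⟨[0, 0, 0, 0, 0, 0, 0, 0, 0, 0, 1], [0, 0, 0, 0, 0, 0, 0, 0, 0, 1], [0, 0, 0, 0, 0, 0, 0, 0, 1]⟩] hpB10_g [] []

theorem hpB10_k : hpB10_d.chk hpB10_t = true := by decide +kernel

theorem hpB10_c {A : TAp} {T : A.Tie} {i U S θ : ℤ} (d : ST A T (-1))
    (hsg : A.sg = sgv true) (hep : T.ep = sgv false) (hc : IsC A i U S θ)
    (hθ2 : 2 * θ = th A T.t + 1 * A.D) (hU2 : 2 * U + A.q * A.w + (1) = 1 * A.D + 1 * NN A)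
    (hS2 : 2 * S + A.q * T.x = A.q * A.w + (0) * NN A) (h4 : 2 * th A T.t + 4 ≤ A.D)
    (nO : NN A + A.q + 2 * (A.q * T.x) = 2 * (A.q * A.w))
    (hs1 : NN A + A.q * T.x ≤ (A.q * A.w : ℤ) + A.q * A.h)
    (hs0 : (A.q * A.w : ℤ) + A.q * A.h ≤ NN A + A.q * T.x)
    (ra : NN A < 2 * (A.q * A.w : ℤ) + A.q * A.h)
    (hWH : (A.q * A.w : ℤ) ≤ A.q * A.h)
    (hDW : A.D < A.q * A.w)
    (t2 : θ + 1 ≤ A.D)
    (t1 : 1 ≤ θ) : False := by
  exact d.run hsg hep (J := [⟨[0, 0, 0, 0, 0, 0, 0, 0, 0, 0, 1], [0, 0, 0, 0, 0, 0, 0, 0, 0, 1], [0, 0, 0, 0, 0, 0, 0, 0, 1]⟩])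
    (g := hpB10_g) (ne := [])
    (la := []) (r := [θ, S, U]) ⟨clN hc _, trivial⟩
    (And.intro (by unfold Pool.Agent.H78.SV.env; simp only [Pool.Agent.H81.AP.dot_cons, Pool.Agent.H81.AP.dot_nil]; linarith) (And.intro (by unfold Pool.Agent.H78.SV.env; simp only [Pool.Agent.H81.AP.dot_cons, Pool.Agent.H81.AP.dot_nil]; linarith) (And.intro (by unfold Pool.Agent.H78.SV.env; simp only [Pool.Agent.H81.AP.dot_cons, Pool.Agent.H81.AP.dot_nil]; linarith) (And.intro (by unfold Pool.Agent.H78.SV.env; simp only [Pool.Agent.H81.AP.dot_cons, Pool.Agent.H81.AP.dot_nil]; linarith) (And.intro (by unfold Pool.Agent.H78.SV.env; simp only [Pool.Agent.H81.AP.dot_cons, Pool.Agent.H81.AP.dot_nil]; linarith) (And.intro (by unfold Pool.Agent.H78.SV.env; simp only [Pool.Agent.H81.AP.dot_cons, Pool.Agent.H81.AP.dot_nil]; linarith) (And.intro (by unfold Pool.Agent.H78.SV.env; simp only [Pool.Agent.H81.AP.dot_cons, Pool.Agent.H81.AP.dot_nil];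 linarith) (And.intro (by unfold Pool.Agent.H78.SV.env; simp only [Pool.Agent.H81.AP.dot_cons, Pool.Agent.H81.AP.dot_nil]; linarith) (And.intro (by unfold Pool.Agent.H78.SV.env; simp only [Pool.Agent.H81.AP.dot_cons, Pool.Agent.H81.AP.dot_nil]; linarith) (And.intro (f_hs1 hs1 _) (And.intro (f_hs0 hs0 _) (And.intro (f_ra ra _) (And.intro (f_hWH hWH _) (And.intro (f_hDW hDW _) (And.intro (f_t2 t2 _) (And.intro (f_t1 t1 _) trivial))))))))))))))))
    (trivial)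
    (d.resN hsg hep hc (fnil)) hpB10_k

noncomputable def hpB1m_t : T := (.br 38650034974584080417 (.cl 17904 983297 1048833 (.cl 17905 0x5030c030501010102 0x5010c010401020102 (.mv 1 0 1 9 8 false ⟨true, 8, 30082728193, 0x50105020001000102010101070102⟩ ⟨false, 8, 30082728193, 0x3040101050404020101070202⟩ ⟨false, 7, 0x2060001010105040602070202, 1⟩ ⟨true, 8, 0x502050200010501070101, 1⟩ (.out 7 0x2050201050406030102050102 0x20108010701060102) (.out 7 0x20108010801050102 0x2050201050406030002060102) (.out 7 0x2050001010101020301060201010101030102 0x5010502000300030201010100010102040204) (.diff 8 0x50301020a0101010101030102 257 ⟨true, 9, 0x50205020001020102010301030102, 0x302090302020401040204⟩ ⟨false, 8, 0x20402010102030106010301030102, 0x20402010504040201010202040204⟩)))) (.cl 17904 983297 1048833 (.cl 17905 0x5030c030501010102 0x5010c010401020102 (.mv 1 0 5 0 1 true ⟨false, 8, 0x50301020a0100010101040102, 0x2060001010205040404010101020102030204⟩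 ⟨true, 8, 1, 0x502050200010501070101⟩ ⟨true, 8, 0x509050a000300030201010100050102040204, 257⟩ ⟨false, 7, 0x3040101050404020101070202, 30082728193⟩ (.out 7 0x2050201050406030102050102 0x503050404010101000201030302000402) (.out 7 0x503050404010101000201010302000402 0x2050201050406030002060102) (.diff 8 1409625480429825 1 ⟨true, 8, 0x302090302020501030204, 0x50205020001020102010201040102⟩ ⟨false, 8, 0x2050201050406010002060102, 0x503050404010101000201010302000402⟩) (.out 8 0x502050200010501070101 0x202000107010e0202)))))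

noncomputable def hpB1m_g : List LF := [[0, 0, 0, 0, 1, 0, 1, 0, -2], [0, 0, 0, 0, -1, 0, -1, 0, 2], [0, -1, 1, 0, 0, -1, 0, 0, 0, -2], [0, 1, -1, 0, 0, 1, 0, 0, 0, 2], [-1, 1, -1, 0, 1, 0, 0, 0, 0, 0, -2], [1, -1, 1, 0, -1, 0, 0, 0, 0, 0, 2], [-4, 0, 0, 0, 1, 0, -2], [0, -1, 2, 0, 0, -2, 0, -1], [0, 1, -2, 0, 0, 2, 0, 1], [0, -1, 1, 1, 0, -1], [0, 1, -1, -1, 0, 1], [-1, -1, 2, 1], [0, 0, -1, 1], [-1, 0, 1, 0, -1], [-1, 0, 0, 0, 1, 0, 0, 0, -1], [-1, 0, 0, 0, 0, 0, 0, 0, 1]]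

noncomputable def hpB1m_d : Dat := mkS true false (-1) [⟨[0, 0, 0, 0, 0, 0, 0, 0, 0, 0, 1], [0, 0, 0, 0, 0, 0, 0, 0, 0, 1], [0, 0, 0, 0, 0, 0, 0, 0, 1]⟩] hpB1m_g [] []

theorem hpB1m_k : hpB1m_d.chk hpB1m_t = true := by decide +kernel

theorem hpB1m_c {A : TAp} {T : A.Tie} {i U S θ : ℤ} (d : ST A T (-1))
    (hsg : A.sg = sgv true) (hep : T.ep = sgv false) (hc : IsC A i U S θ)
    (hθ2 : 2 * θ = th A T.t + 1 * A.D) (hU2 : 2 * U + A.q * A.w + (1) = 1 * A.D + 1 * NN A)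
    (hS2 : 2 * S + A.q * T.x = A.q * A.w + (-1) * NN A) (h4 : 2 * th A T.t + 4 ≤ A.D)
    (nO : NN A + A.q + 2 * (A.q * T.x) = 2 * (A.q * A.w))
    (hs1 : NN A + A.q * T.x ≤ (A.q * A.w : ℤ) + A.q * A.h)
    (hs0 : (A.q * A.w : ℤ) + A.q * A.h ≤ NN A + A.q * T.x)
    (ra : NN A < 2 * (A.q * A.w : ℤ) + A.q * A.h)
    (hWH : (A.q * A.w : ℤ) ≤ A.q * A.h)
    (hDW : A.D < A.q * A.w)
    (t2 : θ + 1 ≤ A.D)
    (t1 : 1 ≤ θ) : False := by
  exact d.run hsg hep (J := [⟨[0, 0, 0, 0, 0, 0, 0, 0, 0, 0, 1], [0, 0, 0, 0, 0, 0, 0, 0, 0, 1], [0, 0, 0, 0, 0, 0, 0, 0, 1]⟩])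
    (g := hpB1m_g) (ne := [])
    (la := []) (r := [θ, S, U]) ⟨clN hc _, trivial⟩
    (And.intro (by unfold Pool.Agent.H78.SV.env; simp only [Pool.Agent.H81.AP.dot_cons, Pool.Agent.H81.AP.dot_nil]; linarith) (And.intro (by unfold Pool.Agent.H78.SV.env; simp only [Pool.Agent.H81.AP.dot_cons, Pool.Agent.H81.AP.dot_nil]; linarith) (And.intro (by unfold Pool.Agent.H78.SV.env; simp only [Pool.Agent.H81.AP.dot_cons, Pool.Agent.H81.AP.dot_nil]; linarith) (And.intro (by unfold Pool.Agent.H78.SV.env; simp only [Pool.Agent.H81.AP.dot_cons, Pool.Agent.H81.AP.dot_nil]; linarith) (And.intro (by unfold Pool.Agent.H78.SV.env; simp only [Pool.Agent.H81.AP.dot_cons, Pool.Agent.H81.AP.dot_nil]; linarith) (And.intro (by unfold Pool.Agent.H78.SV.env; simp only [Pool.Agent.H81.AP.dot_cons, Pool.Agent.H81.AP.dot_nil]; linarith) (And.intro (by unfold Pool.Agent.H78.SV.env; simp only [Pool.Agent.H81.AP.dot_cons, Pool.Agent.H81.AP.dot_nil];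 linarith) (And.intro (by unfold Pool.Agent.H78.SV.env; simp only [Pool.Agent.H81.AP.dot_cons, Pool.Agent.H81.AP.dot_nil]; linarith) (And.intro (by unfold Pool.Agent.H78.SV.env; simp only [Pool.Agent.H81.AP.dot_cons, Pool.Agent.H81.AP.dot_nil]; linarith) (And.intro (f_hs1 hs1 _) (And.intro (f_hs0 hs0 _) (And.intro (f_ra ra _) (And.intro (f_hWH hWH _) (And.intro (f_hDW hDW _) (And.intro (f_t2 t2 _) (And.intro (f_t1 t1 _) trivial))))))))))))))))
    (trivial)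
    (d.resN hsg hep hc (fnil)) hpB1m_k


theorem osl {A : TAp} {T : A.Tie} (d : ST A T (-1)) {sp : Bool} (hsg : A.sg = sgv sp)
    (hep : T.ep = sgv false) (hDW : A.D < A.q * A.w) (hWH : (A.q * A.w : ℤ) ≤ A.q * A.h)
    (ra : NN A < 2 * (A.q * A.w : ℤ) + A.q * A.h) (nh : NN A + A.q * T.x = A.q * A.w + A.q * A.h)
    (nO : NN A + A.q + 2 * (A.q * T.x) = 2 * (A.q * A.w)) (h4 : 2 * th A T.t + 4 ≤ A.D) :
    False := by
  have hp := A.p_pos'
  have hq := A.q_pos'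
  have hN := NN_pos A
  have hD := D_pos A
  have e0 : (A.q : ℤ) * (A.p + 1 + 2 * T.x - 2 * A.w) = A.q * 0 := by
    unfold NN at nO
    linear_combination nO
  have e1 := mul_left_cancel₀ hq.ne' e0
  obtain ⟨j, U, S, ee, he, hc, hθ2, hUd, U0, U1, s, hs, hsd, s0, s1⟩ :=
    half_class d hep (by omega)
  have hs0 := nh.ge
  have hs1 := nh.le
  have t1 := th_pos A hc.2.1
  have t2 := th_ltD A hc.2.2
  have t1 : 1 ≤ th A j := by omega
  have t2 : th A j + 1 ≤ A.D := by omega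
  have hNW := NW A
  have hW2 := W2 A
  -- the row
  have hS2 : 2 * S + A.q * T.x = A.q * A.w + 0 * NN A ∨
      2 * S + A.q * T.x = A.q * A.w + (-1) * NN A := by
    obtain ⟨z, hz⟩ := hsd
    have z0 : -2 < z := by
      by_contra hc
      have : (A.p : ℤ) * z ≤ A.p * (-2) := mul_le_mul_of_nonneg_left (by omega) hp.le
      omega
    have z1 : z < 1 := by
      by_contra hc
      have : (A.p : ℤ) * 1 ≤ A.p * z := mul_le_mul_of_nonneg_left (by omega) hp.le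
      omega
    have : z = 0 ∨ z = -1 := by omega
    rcases this with h | h <;> rw [h] at hz
    · left
      rw [hs]; linear_combination (A.q : ℤ) * hz
    · right
      rw [hs]; unfold NN; linear_combination (A.q : ℤ) * hz
  cases sp
  · have hsg' : A.sg = -1 := hsg
    rcases he with rfl | rfl
    · have hU2 : 2 * U + A.q * A.w + (-1) = 0 * A.D + 0 * NN A ∨
          2 * U + A.q * A.w + (-1) = 0 * A.D + 1 * NN A := by
        rw [hsg'] at hUd
        rcases NN_cases hUd (by omega) (by omega) with h | h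
        · left; linarith
        · right; linarith
      rcases hU2 with hU2 | hU2
      · rcases hS2 with hS2 | hS2
        · exact hmA00_c d hsg hep hc hθ2 hU2 hS2 h4 nO hs1 hs0 ra hWH hDW t2 t1
        · exact hmA0m_c d hsg hep hc hθ2 hU2 hS2 h4 nO hs1 hs0 ra hWH hDW t2 t1
      · rcases hS2 with hS2 | hS2
        · exact hmA10_c d hsg hep hc hθ2 hU2 hS2 h4 nO hs1 hs0 ra hWH hDW t2 t1
        · exact hmA1m_c d hsg hep hc hθ2 hU2 hS2 h4 nO hs1 hs0 ra hWH hDW t2 t1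
    · have hU2 : 2 * U + A.q * A.w + (-1) = 1 * A.D + 0 * NN A ∨
          2 * U + A.q * A.w + (-1) = 1 * A.D + 1 * NN A := by
        rw [hsg'] at hUd
        rcases NN_cases hUd (by omega) (by omega) with h | h
        · left; linarith
        · right; linarith
      rcases hU2 with hU2 | hU2
      · rcases hS2 with hS2 | hS2
        · exact hmB00_c d hsg hep hc hθ2 hU2 hS2 h4 nO hs1 hs0 ra hWH hDW t2 t1
        · exact hmB0m_c d hsg hep hc hθ2 hU2 hS2 h4 nO hs1 hs0 ra hWH hDW t2 t1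
      · rcases hS2 with hS2 | hS2
        · exact hmB10_c d hsg hep hc hθ2 hU2 hS2 h4 nO hs1 hs0 ra hWH hDW t2 t1
        · exact hmB1m_c d hsg hep hc hθ2 hU2 hS2 h4 nO hs1 hs0 ra hWH hDW t2 t1
  · have hsg' : A.sg = 1 := hsg
    rcases he with rfl | rfl
    · have hU2 : 2 * U + A.q * A.w + (1) = 0 * A.D + 0 * NN A ∨
          2 * U + A.q * A.w + (1) = 0 * A.D + 1 * NN A := by
        rw [hsg'] at hUd
        rcases NN_cases hUd (by omega) (by omega) with h | h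
        · left; linarith
        · right; linarith
      rcases hU2 with hU2 | hU2
      · rcases hS2 with hS2 | hS2
        · exact hpA00_c d hsg hep hc hθ2 hU2 hS2 h4 nO hs1 hs0 ra hWH hDW t2 t1
        · exact hpA0m_c d hsg hep hc hθ2 hU2 hS2 h4 nO hs1 hs0 ra hWH hDW t2 t1
      · rcases hS2 with hS2 | hS2
        · exact hpA10_c d hsg hep hc hθ2 hU2 hS2 h4 nO hs1 hs0 ra hWH hDW t2 t1
        · exact hpA1m_c d hsg hep hc hθ2 hU2 hS2 h4 nO hs1 hs0 ra hWH hDW t2 t1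
    · have hU2 : 2 * U + A.q * A.w + (1) = 1 * A.D + 0 * NN A ∨
          2 * U + A.q * A.w + (1) = 1 * A.D + 1 * NN A := by
        rw [hsg'] at hUd
        rcases NN_cases hUd (by omega) (by omega) with h | h
        · left; linarith
        · right; linarith
      rcases hU2 with hU2 | hU2
      · rcases hS2 with hS2 | hS2
        · exact hpB00_c d hsg hep hc hθ2 hU2 hS2 h4 nO hs1 hs0 ra hWH hDW t2 t1
        · exact hpB0m_c d hsg hep hc hθ2 hU2 hS2 h4 nO hs1 hs0 ra hWH hDW t2 t1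
      · rcases hS2 with hS2 | hS2
        · exact hpB10_c d hsg hep hc hθ2 hU2 hS2 h4 nO hs1 hs0 ra hWH hDW t2 t1
        · exact hpB1m_c d hsg hep hc hθ2 hU2 hS2 h4 nO hs1 hs0 ra hWH hDW t2 t1

end Pool.Agent.H78.SV
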