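import Pool.Agent.H78.SV.Hf
import Pool.Agent.H78.SV.C.C0
import Pool.Agent.H78.SV.C.C1
import Pool.Agent.H78.SV.C.C2
import Pool.Agent.H78.SV.C.C3
import Pool.Agent.H78.SV.C.C4
import Pool.Agent.H78.SV.C.C5
import Pool.Agent.H78.SV.C.C6

set_option linter.all false

namespace Pool.Agent.H78.SV

open Pool.Agent.H78.RT
open Pool.Agent.H78.Tie

theorem A_spppp {A : TAp} {T : A.Tie} {i U S θ : ℤ} (d : ST A T (1))
    (hsg : A.sg = sgv true) (hep : T.ep = sgv true) (o : OC A T i U S θ)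
    (hDW : A.D < A.q * A.w) (hWH : (A.q * A.w : ℤ) ≤ A.q * A.h)
    (hUm : U + 2 ≤ 0) (hUW : U + A.q * A.w + 2 ≤ A.D) (hVp : 2 ≤ U + S)
    (nP : θ + th A T.t ≠ A.D) : False := by
  exact spppp_c d hsg hep o hVp hWH hDW hUW hUm nP

theorem A_spppm {A : TAp} {T : A.Tie} {i U S θ : ℤ} (d : ST A T (1))
    (hsg : A.sg = sgv true) (hep : T.ep = sgv true) (o : OC A T i U S θ)
    (hDW : A.D < A.q * A.w) (hWH : (A.q * A.w : ℤ) ≤ A.q * A.h)
    (hUm : U + 2 ≤ 0) (hUW : U + A.q * A.w + 2 ≤ A.D) (hVm : U + S + 2 ≤ 0)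
    (nP : θ + th A T.t ≠ A.D) : False := by
  exact spppm_c d hsg hep o hVm hWH hDW hUW hUm nP

theorem A_spppb {A : TAp} {T : A.Tie} {i U S θ : ℤ} (d : ST A T (1))
    (hsg : A.sg = sgv true) (hep : T.ep = sgv true) (o : OC A T i U S θ)
    (hDW : A.D < A.q * A.w) (hWH : (A.q * A.w : ℤ) ≤ A.q * A.h)
    (hUp : 2 ≤ U) (hUD : U + 2 ≤ A.D)
    (nP : θ + th A T.t ≠ A.D) : False := by
  exact spppb_c d hsg hep o hWH hDW hUD hUp nP

theorem A_spppc {A : TAp} {T : A.Tie} {i U S θ : ℤ} (d : ST A T (1))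
    (hsg : A.sg = sgv true) (hep : T.ep = sgv true) (o : OC A T i U S θ)
    (hDW : A.D < A.q * A.w) (hWH : (A.q * A.w : ℤ) ≤ A.q * A.h)
    (hDU : A.D + 2 ≤ U) (hVD : U + S + A.q * A.h + 2 ≤ A.D)
    (nP : θ + th A T.t ≠ A.D) : False := by
  exact spppc_c d hsg hep o hWH hDW hVD hDU nP

theorem A_sppmp {A : TAp} {T : A.Tie} {i U S θ : ℤ} (d : ST A T (-1))
    (hsg : A.sg = sgv true) (hep : T.ep = sgv true) (o : OC A T i U S θ)
    (hDW : A.D < A.q * A.w) (hWH : (A.q * A.w : ℤ) ≤ A.q * A.h)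
    (hUm : U + 2 ≤ 0) (hUW : U + A.q * A.w + 2 ≤ A.D) (hVp : 2 ≤ U + S)
    (nP : θ + th A T.t ≠ A.D) : False := by
  exact sppmp_c d hsg hep o hVp hWH hDW hUW hUm nP

theorem A_sppmm {A : TAp} {T : A.Tie} {i U S θ : ℤ} (d : ST A T (-1))
    (hsg : A.sg = sgv true) (hep : T.ep = sgv true) (o : OC A T i U S θ)
    (hDW : A.D < A.q * A.w) (hWH : (A.q * A.w : ℤ) ≤ A.q * A.h)
    (hUm : U + 2 ≤ 0) (hUW : U + A.q * A.w + 2 ≤ A.D) (hVm : U + S + 2 ≤ 0)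
    (nP : θ + th A T.t ≠ A.D) : False := by
  exact sppmm_c d hsg hep o hVm hWH hDW hUW hUm nP

theorem A_sppmb {A : TAp} {T : A.Tie} {i U S θ : ℤ} (d : ST A T (-1))
    (hsg : A.sg = sgv true) (hep : T.ep = sgv true) (o : OC A T i U S θ)
    (hDW : A.D < A.q * A.w) (hWH : (A.q * A.w : ℤ) ≤ A.q * A.h)
    (hUp : 2 ≤ U) (hUD : U + 2 ≤ A.D)
    (nP : θ + th A T.t ≠ A.D) : False := by
  exact sppmb_c d hsg hep o hWH hDW hUD hUp nP

theorem A_sppmc {A : TAp} {T : A.Tie} {i U S θ : ℤ} (d : ST A T (-1))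
    (hsg : A.sg = sgv true) (hep : T.ep = sgv true) (o : OC A T i U S θ)
    (hDW : A.D < A.q * A.w) (hWH : (A.q * A.w : ℤ) ≤ A.q * A.h)
    (hDU : A.D + 2 ≤ U) (hVD : U + S + A.q * A.h + 2 ≤ A.D)
    (nP : θ + th A T.t ≠ A.D) : False := by
  exact sppmc_c d hsg hep o hWH hDW hVD hDU nP

theorem A_spmpp {A : TAp} {T : A.Tie} {i U S θ : ℤ} (d : ST A T (1))
    (hsg : A.sg = sgv false) (hep : T.ep = sgv true) (o : OC A T i U S θ)
    (hDW : A.D < A.q * A.w) (hWH : (A.q * A.w : ℤ) ≤ A.q * A.h)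
    (hUm : U + 2 ≤ 0) (hUW : U + A.q * A.w + 2 ≤ A.D) (hVp : 2 ≤ U + S)
    (nP : θ + th A T.t ≠ A.D) : False := by
  exact spmpp_c d hsg hep o hVp hWH hDW hUW hUm nP

theorem A_spmpm {A : TAp} {T : A.Tie} {i U S θ : ℤ} (d : ST A T (1))
    (hsg : A.sg = sgv false) (hep : T.ep = sgv true) (o : OC A T i U S θ)
    (hDW : A.D < A.q * A.w) (hWH : (A.q * A.w : ℤ) ≤ A.q * A.h)
    (hUm : U + 2 ≤ 0) (hUW : U + A.q * A.w + 2 ≤ A.D) (hVm : U + S + 2 ≤ 0)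
    (nP : θ + th A T.t ≠ A.D) : False := by
  exact spmpm_c d hsg hep o hVm hWH hDW hUW hUm nP

theorem A_spmpb {A : TAp} {T : A.Tie} {i U S θ : ℤ} (d : ST A T (1))
    (hsg : A.sg = sgv false) (hep : T.ep = sgv true) (o : OC A T i U S θ)
    (hDW : A.D < A.q * A.w) (hWH : (A.q * A.w : ℤ) ≤ A.q * A.h)
    (hUp : 2 ≤ U) (hUD : U + 2 ≤ A.D)
    (nP : θ + th A T.t ≠ A.D) : False := by
  exact spmpb_c d hsg hep o hWH hDW hUD hUp nP

theorem A_spmpc {A : TAp} {T : A.Tie} {i U S θ : ℤ} (d : ST A T (1))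
    (hsg : A.sg = sgv false) (hep : T.ep = sgv true) (o : OC A T i U S θ)
    (hDW : A.D < A.q * A.w) (hWH : (A.q * A.w : ℤ) ≤ A.q * A.h)
    (hDU : A.D + 2 ≤ U) (hVD : U + S + A.q * A.h + 2 ≤ A.D)
    (nP : θ + th A T.t ≠ A.D) : False := by
  exact spmpc_c d hsg hep o hWH hDW hVD hDU nP

theorem A_spmmp {A : TAp} {T : A.Tie} {i U S θ : ℤ} (d : ST A T (-1))
    (hsg : A.sg = sgv false) (hep : T.ep = sgv true) (o : OC A T i U S θ)
    (hDW : A.D < A.q * A.w) (hWH : (A.q * A.w : ℤ) ≤ A.q * A.h)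
    (hUm : U + 2 ≤ 0) (hUW : U + A.q * A.w + 2 ≤ A.D) (hVp : 2 ≤ U + S)
    (nP : θ + th A T.t ≠ A.D) : False := by
  exact spmmp_c d hsg hep o hVp hWH hDW hUW hUm nP

theorem A_spmmm {A : TAp} {T : A.Tie} {i U S θ : ℤ} (d : ST A T (-1))
    (hsg : A.sg = sgv false) (hep : T.ep = sgv true) (o : OC A T i U S θ)
    (hDW : A.D < A.q * A.w) (hWH : (A.q * A.w : ℤ) ≤ A.q * A.h)
    (hUm : U + 2 ≤ 0) (hUW : U + A.q * A.w + 2 ≤ A.D) (hVm : U + S + 2 ≤ 0)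
    (nP : θ + th A T.t ≠ A.D) : False := by
  exact spmmm_c d hsg hep o hVm hWH hDW hUW hUm nP

theorem A_spmmb {A : TAp} {T : A.Tie} {i U S θ : ℤ} (d : ST A T (-1))
    (hsg : A.sg = sgv false) (hep : T.ep = sgv true) (o : OC A T i U S θ)
    (hDW : A.D < A.q * A.w) (hWH : (A.q * A.w : ℤ) ≤ A.q * A.h)
    (hUp : 2 ≤ U) (hUD : U + 2 ≤ A.D)
    (nP : θ + th A T.t ≠ A.D) : False := by
  exact spmmb_c d hsg hep o hWH hDW hUD hUp nP

theorem A_spmmc {A : TAp} {T : A.Tie} {i U S θ : ℤ} (d : ST A T (-1))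
    (hsg : A.sg = sgv false) (hep : T.ep = sgv true) (o : OC A T i U S θ)
    (hDW : A.D < A.q * A.w) (hWH : (A.q * A.w : ℤ) ≤ A.q * A.h)
    (hDU : A.D + 2 ≤ U) (hVD : U + S + A.q * A.h + 2 ≤ A.D)
    (nP : θ + th A T.t ≠ A.D) : False := by
  exact spmmc_c d hsg hep o hWH hDW hVD hDU nP

theorem A_smppp {A : TAp} {T : A.Tie} {i U S θ : ℤ} (d : ST A T (1))
    (hsg : A.sg = sgv true) (hep : T.ep = sgv false) (o : OC A T i U S θ)
    (hDW : A.D < A.q * A.w) (hWH : (A.q * A.w : ℤ) ≤ A.q * A.h)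
    (hUm : U + 2 ≤ 0) (hUW : U + A.q * A.w + 2 ≤ A.D) (hVp : 2 ≤ U + S)
    (nP : θ + th A T.t ≠ A.D) (n2 : 2 * θ ≠ th A T.t) : False := by
  rcases o.t0 with ht0 | ht1
  · rcases o.t1.resolve_left nP with hd0 | hd1
    · exact smppp00_c d hsg hep o hVp hWH hDW hUW hUm hd0 ht0 nP n2
    · exact smppp01_c d hsg hep o hVp hWH hDW hUW hUm hd1 ht0 nP n2
  · rcases o.t1.resolve_left nP with hd0 | hd1
    · rcases le_or_gt (2 * (A.q * A.w : ℤ) + A.q * A.h) (NN A) with rA | ra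
      · exact smppp10A_c d hsg hep o hVp rA hWH hDW hUW hUm hd0 ht1 nP n2
      · exact smppp10Z_c d hsg hep o hVp ra hWH hDW hUW hUm hd0 ht1 nP n2
    · exact smppp11_c d hsg hep o hVp hWH hDW hUW hUm hd1 ht1 nP n2

theorem A_smppn {A : TAp} {T : A.Tie} {i U S θ : ℤ} (d : ST A T (1))
    (hsg : A.sg = sgv true) (hep : T.ep = sgv false) (o : OC A T i U S θ)
    (hDW : A.D < A.q * A.w) (hWH : (A.q * A.w : ℤ) ≤ A.q * A.h)
    (hUm : U + 2 ≤ 0) (hUW : U + A.q * A.w + 2 ≤ A.D) (hVm : U + S + 2 ≤ 0)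
    (sN : (A.q * A.w : ℤ) - A.q * A.h + A.q ≤ S)
    (nP : θ + th A T.t ≠ A.D) (n2 : 2 * θ ≠ th A T.t) : False := by
  rcases o.t0 with ht0 | ht1
  · rcases o.t1.resolve_left nP with hd0 | hd1
    · exact smppn00_c d hsg hep o sN hVm hWH hDW hUW hUm hd0 ht0 nP n2
    · exact smppn01_c d hsg hep o sN hVm hWH hDW hUW hUm hd1 ht0 nP n2
  · rcases o.t1.resolve_left nP with hd0 | hd1
    · rcases le_or_gt (2 * (A.q * A.w : ℤ) + A.q * A.h) (NN A) with rA | ra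
      · exact smppn10A_c d hsg hep o sN hVm rA hWH hDW hUW hUm hd0 ht1 nP n2
      · exact smppn10Z_c d hsg hep o sN hVm ra hWH hDW hUW hUm hd0 ht1 nP n2
    · exact smppn11_c d hsg hep o sN hVm hWH hDW hUW hUm hd1 ht1 nP n2

theorem A_smppF {A : TAp} {T : A.Tie} {i U S θ : ℤ} (d : ST A T (1))
    (hsg : A.sg = sgv true) (hep : T.ep = sgv false) (o : OC A T i U S θ)
    (hDW : A.D < A.q * A.w) (hWH : (A.q * A.w : ℤ) ≤ A.q * A.h)
    (hUm : U + 2 ≤ 0) (hUW : U + A.q * A.w + 2 ≤ A.D) (hVm : U + S + 2 ≤ 0)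
    (sF : S + A.q * A.h + A.q ≤ A.q * A.w)
    (nP : θ + th A T.t ≠ A.D) (n2 : 2 * θ ≠ th A T.t) : False := by
  rcases o.t0 with ht0 | ht1
  · rcases o.t1.resolve_left nP with hd0 | hd1
    · exact smppF00_c d hsg hep o sF hVm hWH hDW hUW hUm hd0 ht0 nP n2
    · exact smppF01_c d hsg hep o sF hVm hWH hDW hUW hUm hd1 ht0 nP n2
  · rcases o.t1.resolve_left nP with hd0 | hd1
    · rcases le_or_gt (2 * (A.q * A.w : ℤ) + A.q * A.h) (NN A) with rA | ra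
      · exact smppF10A_c d hsg hep o sF hVm rA hWH hDW hUW hUm hd0 ht1 nP n2
      · exact smppF10Z_c d hsg hep o sF hVm ra hWH hDW hUW hUm hd0 ht1 nP n2
    · exact smppF11_c d hsg hep o sF hVm hWH hDW hUW hUm hd1 ht1 nP n2

theorem A_smppe {A : TAp} {T : A.Tie} {i U S θ : ℤ} (d : ST A T (1))
    (hsg : A.sg = sgv true) (hep : T.ep = sgv false) (o : OC A T i U S θ)
    (hDW : A.D < A.q * A.w) (hWH : (A.q * A.w : ℤ) ≤ A.q * A.h)
    (hUm : U + 2 ≤ 0) (hUW : U + A.q * A.w + 2 ≤ A.D) (hVm : U + S + 2 ≤ 0)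
    (sE0 : (A.q * A.w : ℤ) - A.q * A.h ≤ S) (sE1 : S + A.q * A.h ≤ A.q * A.w)
    (nP : θ + th A T.t ≠ A.D) (n2 : 2 * θ ≠ th A T.t) : False := by
  rcases o.t0 with ht0 | ht1
  · rcases o.t1.resolve_left nP with hd0 | hd1
    · exact smppe00_c d hsg hep o sE0 sE1 hVm hWH hDW hUW hUm hd0 ht0 nP n2
    · exact smppe01_c d hsg hep o sE0 sE1 hVm hWH hDW hUW hUm hd1 ht0 nP n2
  · rcases o.t1.resolve_left nP with hd0 | hd1
    · exact smppe10_c d hsg hep o sE0 sE1 hVm hWH hDW hUW hUm hd0 ht1 nP n2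
    · exact smppe11_c d hsg hep o sE0 sE1 hVm hWH hDW hUW hUm hd1 ht1 nP n2

theorem A_smppB {A : TAp} {T : A.Tie} {i U S θ : ℤ} (d : ST A T (1))
    (hsg : A.sg = sgv true) (hep : T.ep = sgv false) (o : OC A T i U S θ)
    (hDW : A.D < A.q * A.w) (hWH : (A.q * A.w : ℤ) ≤ A.q * A.h)
    (hUp : 2 ≤ U) (hUD : U + 2 ≤ A.D) (hVp : 2 ≤ U + S)
    (nP : θ + th A T.t ≠ A.D) (n2 : 2 * θ ≠ th A T.t) : False := by
  rcases o.t0 with ht0 | ht1
  · rcases o.t1.resolve_left nP with hd0 | hd1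
    · exact smppB00_c d hsg hep o hVp hWH hDW hUD hUp hd0 ht0 nP n2
    · exact smppB01_c d hsg hep o hVp hWH hDW hUD hUp hd1 ht0 nP n2
  · rcases o.t1.resolve_left nP with hd0 | hd1
    · rcases le_or_gt (2 * (A.q * A.w : ℤ) + A.q * A.h) (NN A) with rA | ra
      · exact smppB10A_c d hsg hep o hVp rA hWH hDW hUD hUp hd0 ht1 nP n2
      · exact smppB10Z_c d hsg hep o hVp ra hWH hDW hUD hUp hd0 ht1 nP n2
    · exact smppB11_c d hsg hep o hVp hWH hDW hUD hUp hd1 ht1 nP n2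

theorem A_smppD {A : TAp} {T : A.Tie} {i U S θ : ℤ} (d : ST A T (1))
    (hsg : A.sg = sgv true) (hep : T.ep = sgv false) (o : OC A T i U S θ)
    (hDW : A.D < A.q * A.w) (hWH : (A.q * A.w : ℤ) ≤ A.q * A.h)
    (hUp : 2 ≤ U) (hUD : U + 2 ≤ A.D) (hVm : U + S + 2 ≤ 0)
    (nP : θ + th A T.t ≠ A.D) (n2 : 2 * θ ≠ th A T.t) : False := by
  rcases o.t0 with ht0 | ht1
  · rcases o.t1.resolve_left nP with hd0 | hd1
    · exact smppD00_c d hsg hep o hVm hWH hDW hUD hUp hd0 ht0 nP n2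
    · rcases le_or_gt (2 * (A.q * A.w : ℤ) + A.q * A.h) (NN A) with rA | ra
      · exact smppD01A_c d hsg hep o hVm rA hWH hDW hUD hUp hd1 ht0 nP n2
      · exact smppD01Z_c d hsg hep o hVm ra hWH hDW hUD hUp hd1 ht0 nP n2
  · rcases o.t1.resolve_left nP with hd0 | hd1
    · rcases le_or_gt (2 * (A.q * A.w : ℤ) + A.q * A.h) (NN A) with rA | ra
      · exact smppD10A_c d hsg hep o hVm rA hWH hDW hUD hUp hd0 ht1 nP n2
      · exact smppD10Z_c d hsg hep o hVm ra hWH hDW hUD hUp hd0 ht1 nP n2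
    · exact smppD11_c d hsg hep o hVm hWH hDW hUD hUp hd1 ht1 nP n2

theorem A_smppc {A : TAp} {T : A.Tie} {i U S θ : ℤ} (d : ST A T (1))
    (hsg : A.sg = sgv true) (hep : T.ep = sgv false) (o : OC A T i U S θ)
    (hDW : A.D < A.q * A.w) (hWH : (A.q * A.w : ℤ) ≤ A.q * A.h)
    (hDU : A.D + 2 ≤ U) (hVD : U + S + A.q * A.h + 2 ≤ A.D)
    (nP : θ + th A T.t ≠ A.D) (n2 : 2 * θ ≠ th A T.t) : False := by
  rcases o.t0 with ht0 | ht1
  · rcases o.t1.resolve_left nP with hd0 | hd1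
    · exact smppc00_c d hsg hep o hWH hDW hVD hDU hd0 ht0 nP n2
    · rcases le_or_gt (2 * (A.q * A.w : ℤ) + A.q * A.h) (NN A) with rA | ra
      · exact smppc01A_c d hsg hep o rA hWH hDW hVD hDU hd1 ht0 nP n2
      · exact smppc01Z_c d hsg hep o ra hWH hDW hVD hDU hd1 ht0 nP n2
  · rcases o.t1.resolve_left nP with hd0 | hd1
    · exact smppc10_c d hsg hep o hWH hDW hVD hDU hd0 ht1 nP n2
    · rcases le_or_gt (2 * (A.q * A.w : ℤ) + A.q * A.h) (NN A) with rA | ra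
      · exact smppc11A_c d hsg hep o rA hWH hDW hVD hDU hd1 ht1 nP n2
      · exact smppc11Z_c d hsg hep o ra hWH hDW hVD hDU hd1 ht1 nP n2

theorem A_smpmp {A : TAp} {T : A.Tie} {i U S θ : ℤ} (d : ST A T (-1))
    (hsg : A.sg = sgv true) (hep : T.ep = sgv false) (o : OC A T i U S θ)
    (hDW : A.D < A.q * A.w) (hWH : (A.q * A.w : ℤ) ≤ A.q * A.h)
    (hUm : U + 2 ≤ 0) (hUW : U + A.q * A.w + 2 ≤ A.D) (hVp : 2 ≤ U + S)
    (nP : θ + th A T.t ≠ A.D) (n2 : 2 * θ ≠ th A T.t) : False := by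
  rcases o.t0 with ht0 | ht1
  · rcases o.t1.resolve_left nP with hd0 | hd1
    · exact smpmp00_c d hsg hep o hVp hWH hDW hUW hUm hd0 ht0 nP n2
    · exact smpmp01_c d hsg hep o hVp hWH hDW hUW hUm hd1 ht0 nP n2
  · rcases o.t1.resolve_left nP with hd0 | hd1
    · rcases le_or_gt (2 * (A.q * A.w : ℤ) + A.q * A.h) (NN A) with rA | ra
      · exact smpmp10A_c d hsg hep o hVp rA hWH hDW hUW hUm hd0 ht1 nP n2
      · by_cases nh : NN A + A.q * T.x ≠ A.q * A.w + A.q * A.h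
        · exact smpmp10Znh_c d hsg hep o hVp ra hWH hDW hUW hUm hd0 ht1 nP n2 nh
        · push Not at nh
          have hs0 := nh.ge
          have hs1 := nh.le
          by_cases nO : NN A + A.q + 2 * (A.q * T.x) ≠ 2 * (A.q * A.w)
          · exact smpmp10ZHn1_c d hsg hep o hs1 hs0 hVp ra hWH hDW hUW hUm hd0 ht1 nP n2 nO
          · push Not at nO
            exact osl d hsg hep hDW hWH ra nh nO (by have := hd0; have := ht1; linarith)
    · exact smpmp11_c d hsg hep o hVp hWH hDW hUW hUm hd1 ht1 nP n2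

theorem A_smpmn {A : TAp} {T : A.Tie} {i U S θ : ℤ} (d : ST A T (-1))
    (hsg : A.sg = sgv true) (hep : T.ep = sgv false) (o : OC A T i U S θ)
    (hDW : A.D < A.q * A.w) (hWH : (A.q * A.w : ℤ) ≤ A.q * A.h)
    (hUm : U + 2 ≤ 0) (hUW : U + A.q * A.w + 2 ≤ A.D) (hVm : U + S + 2 ≤ 0)
    (sN : (A.q * A.w : ℤ) - A.q * A.h + A.q ≤ S)
    (nP : θ + th A T.t ≠ A.D) (n2 : 2 * θ ≠ th A T.t) : False := by
  rcases o.t0 with ht0 | ht1
  · rcases o.t1.resolve_left nP with hd0 | hd1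
    · exact smpmn00_c d hsg hep o sN hVm hWH hDW hUW hUm hd0 ht0 nP n2
    · exact smpmn01_c d hsg hep o sN hVm hWH hDW hUW hUm hd1 ht0 nP n2
  · rcases o.t1.resolve_left nP with hd0 | hd1
    · rcases le_or_gt (2 * (A.q * A.w : ℤ) + A.q * A.h) (NN A) with rA | ra
      · exact smpmn10A_c d hsg hep o sN hVm rA hWH hDW hUW hUm hd0 ht1 nP n2
      · by_cases nh : NN A + A.q * T.x ≠ A.q * A.w + A.q * A.h
        · exact smpmn10Znh_c d hsg hep o sN hVm ra hWH hDW hUW hUm hd0 ht1 nP n2 nh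
        · push Not at nh
          have hs0 := nh.ge
          have hs1 := nh.le
          by_cases nO : NN A + A.q + 2 * (A.q * T.x) ≠ 2 * (A.q * A.w)
          · exact smpmn10ZHn1_c d hsg hep o hs1 hs0 sN hVm ra hWH hDW hUW hUm hd0 ht1 nP n2 nO
          · push Not at nO
            exact osl d hsg hep hDW hWH ra nh nO (by have := hd0; have := ht1; linarith)
    · exact smpmn11_c d hsg hep o sN hVm hWH hDW hUW hUm hd1 ht1 nP n2

theorem A_smpmF {A : TAp} {T : A.Tie} {i U S θ : ℤ} (d : ST A T (-1))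
    (hsg : A.sg = sgv true) (hep : T.ep = sgv false) (o : OC A T i U S θ)
    (hDW : A.D < A.q * A.w) (hWH : (A.q * A.w : ℤ) ≤ A.q * A.h)
    (hUm : U + 2 ≤ 0) (hUW : U + A.q * A.w + 2 ≤ A.D) (hVm : U + S + 2 ≤ 0)
    (sF : S + A.q * A.h + A.q ≤ A.q * A.w)
    (nP : θ + th A T.t ≠ A.D) (n2 : 2 * θ ≠ th A T.t) : False := by
  rcases o.t0 with ht0 | ht1
  · rcases o.t1.resolve_left nP with hd0 | hd1
    · exact smpmF00_c d hsg hep o sF hVm hWH hDW hUW hUm hd0 ht0 nP n2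
    · rcases le_or_gt (2 * (A.q * A.w : ℤ) + A.q * A.h) (NN A) with rA | ra
      · rcases xi_gen d o.c o.it o.iq with hx | hx
        · have x1p : -(A.q * T.x) ≤ U + A.q * A.w := by linarith
          exact smpmF01Ag_c d hsg hep o x1p sF hVm rA hWH hDW hUW hUm hd1 ht0 nP n2
        · have x2p : U + A.q * A.w + 2 ≤ -(A.q * T.x) := by linarith
          obtain ⟨j, e, b, a, hj, k0, k1, ⟨gU, gSF, gV⟩ | ⟨gUl, gSFl, gVl⟩⟩ :=
            triSF d hep o hUm hUW hVm hWH (by have h1 : A.sg = 1 := hsg; omega) sF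
          · exact smpmF01u_c d hsg hep o hj k0 k1 gV gSF gU x2p sF hVm hWH hDW hUW hUm hd1 ht0 nP n2
          · exact smpmF01Al_c d hsg hep o hj k0 k1 gVl gSFl gUl x2p sF hVm rA hWH hDW hUW hUm hd1 ht0 nP n2
      · exact smpmF01Z_c d hsg hep o sF hVm ra hWH hDW hUW hUm hd1 ht0 nP n2
  · rcases o.t1.resolve_left nP with hd0 | hd1
    · rcases le_or_gt (2 * (A.q * A.w : ℤ) + A.q * A.h) (NN A) with rA | ra
      · exact smpmF10A_c d hsg hep o sF hVm rA hWH hDW hUW hUm hd0 ht1 nP n2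
      · by_cases nh : NN A + A.q * T.x ≠ A.q * A.w + A.q * A.h
        · exact smpmF10Znh_c d hsg hep o sF hVm ra hWH hDW hUW hUm hd0 ht1 nP n2 nh
        · push Not at nh
          have hs0 := nh.ge
          have hs1 := nh.le
          by_cases nO : NN A + A.q + 2 * (A.q * T.x) ≠ 2 * (A.q * A.w)
          · exact smpmF10ZHn1_c d hsg hep o hs1 hs0 sF hVm ra hWH hDW hUW hUm hd0 ht1 nP n2 nO
          · push Not at nO
            exact osl d hsg hep hDW hWH ra nh nO (by have := hd0; have := ht1; linarith)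
    · exact smpmF11_c d hsg hep o sF hVm hWH hDW hUW hUm hd1 ht1 nP n2

theorem A_smpme {A : TAp} {T : A.Tie} {i U S θ : ℤ} (d : ST A T (-1))
    (hsg : A.sg = sgv true) (hep : T.ep = sgv false) (o : OC A T i U S θ)
    (hDW : A.D < A.q * A.w) (hWH : (A.q * A.w : ℤ) ≤ A.q * A.h)
    (hUm : U + 2 ≤ 0) (hUW : U + A.q * A.w + 2 ≤ A.D) (hVm : U + S + 2 ≤ 0)
    (sE0 : (A.q * A.w : ℤ) - A.q * A.h ≤ S) (sE1 : S + A.q * A.h ≤ A.q * A.w)
    (nP : θ + th A T.t ≠ A.D) (n2 : 2 * θ ≠ th A T.t) : False := by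
  rcases o.t0 with ht0 | ht1
  · rcases o.t1.resolve_left nP with hd0 | hd1
    · exact smpme00_c d hsg hep o sE0 sE1 hVm hWH hDW hUW hUm hd0 ht0 nP n2
    · rcases le_or_gt (2 * (A.q * A.w : ℤ) + A.q * A.h) (NN A) with rA | ra
      · rcases xi_gen d o.c o.it o.iq with hx | hx
        · have x1p : -(A.q * T.x) ≤ U + A.q * A.w := by linarith
          exact smpme01Ag_c d hsg hep o x1p sE0 sE1 hVm rA hWH hDW hUW hUm hd1 ht0 nP n2
        · have x2p : U + A.q * A.w + 2 ≤ -(A.q * T.x) := by linarith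
          obtain ⟨j, e, b, a, hj, k0, k1, ⟨gU, gSe, gV⟩ | ⟨gUl, gSel, gVl⟩⟩ :=
            triSe d hep o hUm hUW hVm hWH (by have h1 : A.sg = 1 := hsg; omega) sE0 sE1
          · exact smpme01Au_c d hsg hep o hj k0 k1 gV gSe gU x2p sE0 sE1 hVm rA hWH hDW hUW hUm hd1 ht0 nP n2
          · exact smpme01Al_c d hsg hep o hj k0 k1 gVl gSel gUl x2p sE0 sE1 hVm rA hWH hDW hUW hUm hd1 ht0 nP n2
      · exact smpme01Z_c d hsg hep o sE0 sE1 hVm ra hWH hDW hUW hUm hd1 ht0 nP n2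
  · rcases o.t1.resolve_left nP with hd0 | hd1
    · exact smpme10_c d hsg hep o sE0 sE1 hVm hWH hDW hUW hUm hd0 ht1 nP n2
    · exact smpme11_c d hsg hep o sE0 sE1 hVm hWH hDW hUW hUm hd1 ht1 nP n2

theorem A_smpmB {A : TAp} {T : A.Tie} {i U S θ : ℤ} (d : ST A T (-1))
    (hsg : A.sg = sgv true) (hep : T.ep = sgv false) (o : OC A T i U S θ)
    (hDW : A.D < A.q * A.w) (hWH : (A.q * A.w : ℤ) ≤ A.q * A.h)
    (hUp : 2 ≤ U) (hUD : U + 2 ≤ A.D) (hVp : 2 ≤ U + S)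
    (nP : θ + th A T.t ≠ A.D) (n2 : 2 * θ ≠ th A T.t) : False := by
  rcases o.t0 with ht0 | ht1
  · rcases o.t1.resolve_left nP with hd0 | hd1
    · exact smpmB00_c d hsg hep o hVp hWH hDW hUD hUp hd0 ht0 nP n2
    · exact smpmB01_c d hsg hep o hVp hWH hDW hUD hUp hd1 ht0 nP n2
  · rcases o.t1.resolve_left nP with hd0 | hd1
    · rcases le_or_gt (2 * (A.q * A.w : ℤ) + A.q * A.h) (NN A) with rA | ra
      · exact smpmB10A_c d hsg hep o hVp rA hWH hDW hUD hUp hd0 ht1 nP n2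
      · by_cases nh : NN A + A.q * T.x ≠ A.q * A.w + A.q * A.h
        · exact smpmB10Znh_c d hsg hep o hVp ra hWH hDW hUD hUp hd0 ht1 nP n2 nh
        · push Not at nh
          have hs0 := nh.ge
          have hs1 := nh.le
          by_cases nO : NN A + A.q + 2 * (A.q * T.x) ≠ 2 * (A.q * A.w)
          · exact smpmB10ZHn1_c d hsg hep o hs1 hs0 hVp ra hWH hDW hUD hUp hd0 ht1 nP n2 nO
          · push Not at nO
            exact osl d hsg hep hDW hWH ra nh nO (by have := hd0; have := ht1; linarith)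
    · exact smpmB11_c d hsg hep o hVp hWH hDW hUD hUp hd1 ht1 nP n2

theorem A_smpmD {A : TAp} {T : A.Tie} {i U S θ : ℤ} (d : ST A T (-1))
    (hsg : A.sg = sgv true) (hep : T.ep = sgv false) (o : OC A T i U S θ)
    (hDW : A.D < A.q * A.w) (hWH : (A.q * A.w : ℤ) ≤ A.q * A.h)
    (hUp : 2 ≤ U) (hUD : U + 2 ≤ A.D) (hVm : U + S + 2 ≤ 0)
    (nP : θ + th A T.t ≠ A.D) (n2 : 2 * θ ≠ th A T.t) : False := by
  rcases o.t0 with ht0 | ht1
  · rcases o.t1.resolve_left nP with hd0 | hd1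
    · exact smpmD00_c d hsg hep o hVm hWH hDW hUD hUp hd0 ht0 nP n2
    · rcases le_or_gt (2 * (A.q * A.w : ℤ) + A.q * A.h) (NN A) with rA | ra
      · exact smpmD01A_c d hsg hep o hVm rA hWH hDW hUD hUp hd1 ht0 nP n2
      · exact smpmD01Z_c d hsg hep o hVm ra hWH hDW hUD hUp hd1 ht0 nP n2
  · rcases o.t1.resolve_left nP with hd0 | hd1
    · rcases le_or_gt (2 * (A.q * A.w : ℤ) + A.q * A.h) (NN A) with rA | ra
      · exact smpmD10A_c d hsg hep o hVm rA hWH hDW hUD hUp hd0 ht1 nP n2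
      · by_cases nh : NN A + A.q * T.x ≠ A.q * A.w + A.q * A.h
        · exact smpmD10Znh_c d hsg hep o hVm ra hWH hDW hUD hUp hd0 ht1 nP n2 nh
        · push Not at nh
          have hs0 := nh.ge
          have hs1 := nh.le
          by_cases nO : NN A + A.q + 2 * (A.q * T.x) ≠ 2 * (A.q * A.w)
          · exact smpmD10ZHn1_c d hsg hep o hs1 hs0 hVm ra hWH hDW hUD hUp hd0 ht1 nP n2 nO
          · push Not at nO
            exact osl d hsg hep hDW hWH ra nh nO (by have := hd0; have := ht1; linarith)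
    · rcases le_or_gt (2 * (A.q * A.w : ℤ) + A.q * A.h) (NN A) with rA | ra
      · exact smpmD11A_c d hsg hep o hVm rA hWH hDW hUD hUp hd1 ht1 nP n2
      · exact smpmD11Z_c d hsg hep o hVm ra hWH hDW hUD hUp hd1 ht1 nP n2

theorem A_smpmc {A : TAp} {T : A.Tie} {i U S θ : ℤ} (d : ST A T (-1))
    (hsg : A.sg = sgv true) (hep : T.ep = sgv false) (o : OC A T i U S θ)
    (hDW : A.D < A.q * A.w) (hWH : (A.q * A.w : ℤ) ≤ A.q * A.h)
    (hDU : A.D + 2 ≤ U) (hVD : U + S + A.q * A.h + 2 ≤ A.D)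
    (nP : θ + th A T.t ≠ A.D) (n2 : 2 * θ ≠ th A T.t) : False := by
  rcases o.t0 with ht0 | ht1
  · rcases o.t1.resolve_left nP with hd0 | hd1
    · exact smpmc00_c d hsg hep o hWH hDW hVD hDU hd0 ht0 nP n2
    · rcases le_or_gt (2 * (A.q * A.w : ℤ) + A.q * A.h) (NN A) with rA | ra
      · exact smpmc01A_c d hsg hep o rA hWH hDW hVD hDU hd1 ht0 nP n2
      · exact smpmc01Z_c d hsg hep o ra hWH hDW hVD hDU hd1 ht0 nP n2
  · rcases o.t1.resolve_left nP with hd0 | hd1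
    · exact smpmc10_c d hsg hep o hWH hDW hVD hDU hd0 ht1 nP n2
    · exact smpmc11_c d hsg hep o hWH hDW hVD hDU hd1 ht1 nP n2

theorem A_smmpp {A : TAp} {T : A.Tie} {i U S θ : ℤ} (d : ST A T (1))
    (hsg : A.sg = sgv false) (hep : T.ep = sgv false) (o : OC A T i U S θ)
    (hDW : A.D < A.q * A.w) (hWH : (A.q * A.w : ℤ) ≤ A.q * A.h)
    (hUm : U + 2 ≤ 0) (hUW : U + A.q * A.w + 2 ≤ A.D) (hVp : 2 ≤ U + S)
    (nP : θ + th A T.t ≠ A.D) (n2 : 2 * θ ≠ th A T.t) : False := by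
  rcases o.t0 with ht0 | ht1
  · rcases o.t1.resolve_left nP with hd0 | hd1
    · exact smmpp00_c d hsg hep o hVp hWH hDW hUW hUm hd0 ht0 nP n2
    · exact smmpp01_c d hsg hep o hVp hWH hDW hUW hUm hd1 ht0 nP n2
  · rcases o.t1.resolve_left nP with hd0 | hd1
    · rcases le_or_gt (2 * (A.q * A.w : ℤ) + A.q * A.h) (NN A) with rA | ra
      · exact smmpp10A_c d hsg hep o hVp rA hWH hDW hUW hUm hd0 ht1 nP n2
      · exact smmpp10Z_c d hsg hep o hVp ra hWH hDW hUW hUm hd0 ht1 nP n2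
    · exact smmpp11_c d hsg hep o hVp hWH hDW hUW hUm hd1 ht1 nP n2

theorem A_smmpn {A : TAp} {T : A.Tie} {i U S θ : ℤ} (d : ST A T (1))
    (hsg : A.sg = sgv false) (hep : T.ep = sgv false) (o : OC A T i U S θ)
    (hDW : A.D < A.q * A.w) (hWH : (A.q * A.w : ℤ) ≤ A.q * A.h)
    (hUm : U + 2 ≤ 0) (hUW : U + A.q * A.w + 2 ≤ A.D) (hVm : U + S + 2 ≤ 0)
    (sN : (A.q * A.w : ℤ) - A.q * A.h + A.q ≤ S)
    (nP : θ + th A T.t ≠ A.D) (n2 : 2 * θ ≠ th A T.t) : False := by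
  rcases o.t0 with ht0 | ht1
  · rcases o.t1.resolve_left nP with hd0 | hd1
    · exact smmpn00_c d hsg hep o sN hVm hWH hDW hUW hUm hd0 ht0 nP n2
    · exact smmpn01_c d hsg hep o sN hVm hWH hDW hUW hUm hd1 ht0 nP n2
  · rcases o.t1.resolve_left nP with hd0 | hd1
    · rcases le_or_gt (2 * (A.q * A.w : ℤ) + A.q * A.h) (NN A) with rA | ra
      · exact smmpn10A_c d hsg hep o sN hVm rA hWH hDW hUW hUm hd0 ht1 nP n2
      · exact smmpn10Z_c d hsg hep o sN hVm ra hWH hDW hUW hUm hd0 ht1 nP n2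
    · exact smmpn11_c d hsg hep o sN hVm hWH hDW hUW hUm hd1 ht1 nP n2

theorem A_smmpF {A : TAp} {T : A.Tie} {i U S θ : ℤ} (d : ST A T (1))
    (hsg : A.sg = sgv false) (hep : T.ep = sgv false) (o : OC A T i U S θ)
    (hDW : A.D < A.q * A.w) (hWH : (A.q * A.w : ℤ) ≤ A.q * A.h)
    (hUm : U + 2 ≤ 0) (hUW : U + A.q * A.w + 2 ≤ A.D) (hVm : U + S + 2 ≤ 0)
    (sF : S + A.q * A.h + A.q ≤ A.q * A.w)
    (nP : θ + th A T.t ≠ A.D) (n2 : 2 * θ ≠ th A T.t) : False := by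
  rcases o.t0 with ht0 | ht1
  · rcases o.t1.resolve_left nP with hd0 | hd1
    · exact smmpF00_c d hsg hep o sF hVm hWH hDW hUW hUm hd0 ht0 nP n2
    · exact smmpF01_c d hsg hep o sF hVm hWH hDW hUW hUm hd1 ht0 nP n2
  · rcases o.t1.resolve_left nP with hd0 | hd1
    · rcases le_or_gt (2 * (A.q * A.w : ℤ) + A.q * A.h) (NN A) with rA | ra
      · exact smmpF10A_c d hsg hep o sF hVm rA hWH hDW hUW hUm hd0 ht1 nP n2
      · exact smmpF10Z_c d hsg hep o sF hVm ra hWH hDW hUW hUm hd0 ht1 nP n2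
    · exact smmpF11_c d hsg hep o sF hVm hWH hDW hUW hUm hd1 ht1 nP n2

theorem A_smmpe {A : TAp} {T : A.Tie} {i U S θ : ℤ} (d : ST A T (1))
    (hsg : A.sg = sgv false) (hep : T.ep = sgv false) (o : OC A T i U S θ)
    (hDW : A.D < A.q * A.w) (hWH : (A.q * A.w : ℤ) ≤ A.q * A.h)
    (hUm : U + 2 ≤ 0) (hUW : U + A.q * A.w + 2 ≤ A.D) (hVm : U + S + 2 ≤ 0)
    (sE0 : (A.q * A.w : ℤ) - A.q * A.h ≤ S) (sE1 : S + A.q * A.h ≤ A.q * A.w)
    (nP : θ + th A T.t ≠ A.D) (n2 : 2 * θ ≠ th A T.t) : False := by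
  rcases o.t0 with ht0 | ht1
  · rcases o.t1.resolve_left nP with hd0 | hd1
    · exact smmpe00_c d hsg hep o sE0 sE1 hVm hWH hDW hUW hUm hd0 ht0 nP n2
    · exact smmpe01_c d hsg hep o sE0 sE1 hVm hWH hDW hUW hUm hd1 ht0 nP n2
  · rcases o.t1.resolve_left nP with hd0 | hd1
    · exact smmpe10_c d hsg hep o sE0 sE1 hVm hWH hDW hUW hUm hd0 ht1 nP n2
    · exact smmpe11_c d hsg hep o sE0 sE1 hVm hWH hDW hUW hUm hd1 ht1 nP n2

theorem A_smmpB {A : TAp} {T : A.Tie} {i U S θ : ℤ} (d : ST A T (1))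
    (hsg : A.sg = sgv false) (hep : T.ep = sgv false) (o : OC A T i U S θ)
    (hDW : A.D < A.q * A.w) (hWH : (A.q * A.w : ℤ) ≤ A.q * A.h)
    (hUp : 2 ≤ U) (hUD : U + 2 ≤ A.D) (hVp : 2 ≤ U + S)
    (nP : θ + th A T.t ≠ A.D) (n2 : 2 * θ ≠ th A T.t) : False := by
  rcases o.t0 with ht0 | ht1
  · rcases o.t1.resolve_left nP with hd0 | hd1
    · exact smmpB00_c d hsg hep o hVp hWH hDW hUD hUp hd0 ht0 nP n2
    · exact smmpB01_c d hsg hep o hVp hWH hDW hUD hUp hd1 ht0 nP n2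
  · rcases o.t1.resolve_left nP with hd0 | hd1
    · rcases le_or_gt (2 * (A.q * A.w : ℤ) + A.q * A.h) (NN A) with rA | ra
      · exact smmpB10A_c d hsg hep o hVp rA hWH hDW hUD hUp hd0 ht1 nP n2
      · exact smmpB10Z_c d hsg hep o hVp ra hWH hDW hUD hUp hd0 ht1 nP n2
    · exact smmpB11_c d hsg hep o hVp hWH hDW hUD hUp hd1 ht1 nP n2

theorem A_smmpD {A : TAp} {T : A.Tie} {i U S θ : ℤ} (d : ST A T (1))
    (hsg : A.sg = sgv false) (hep : T.ep = sgv false) (o : OC A T i U S θ)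
    (hDW : A.D < A.q * A.w) (hWH : (A.q * A.w : ℤ) ≤ A.q * A.h)
    (hUp : 2 ≤ U) (hUD : U + 2 ≤ A.D) (hVm : U + S + 2 ≤ 0)
    (nP : θ + th A T.t ≠ A.D) (n2 : 2 * θ ≠ th A T.t) : False := by
  rcases o.t0 with ht0 | ht1
  · rcases o.t1.resolve_left nP with hd0 | hd1
    · exact smmpD00_c d hsg hep o hVm hWH hDW hUD hUp hd0 ht0 nP n2
    · rcases le_or_gt (2 * (A.q * A.w : ℤ) + A.q * A.h) (NN A) with rA | ra
      · exact smmpD01A_c d hsg hep o hVm rA hWH hDW hUD hUp hd1 ht0 nP n2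
      · exact smmpD01Z_c d hsg hep o hVm ra hWH hDW hUD hUp hd1 ht0 nP n2
  · rcases o.t1.resolve_left nP with hd0 | hd1
    · rcases le_or_gt (2 * (A.q * A.w : ℤ) + A.q * A.h) (NN A) with rA | ra
      · exact smmpD10A_c d hsg hep o hVm rA hWH hDW hUD hUp hd0 ht1 nP n2
      · exact smmpD10Z_c d hsg hep o hVm ra hWH hDW hUD hUp hd0 ht1 nP n2
    · exact smmpD11_c d hsg hep o hVm hWH hDW hUD hUp hd1 ht1 nP n2

theorem A_smmpc {A : TAp} {T : A.Tie} {i U S θ : ℤ} (d : ST A T (1))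
    (hsg : A.sg = sgv false) (hep : T.ep = sgv false) (o : OC A T i U S θ)
    (hDW : A.D < A.q * A.w) (hWH : (A.q * A.w : ℤ) ≤ A.q * A.h)
    (hDU : A.D + 2 ≤ U) (hVD : U + S + A.q * A.h + 2 ≤ A.D)
    (nP : θ + th A T.t ≠ A.D) (n2 : 2 * θ ≠ th A T.t) : False := by
  rcases o.t0 with ht0 | ht1
  · rcases o.t1.resolve_left nP with hd0 | hd1
    · exact smmpc00_c d hsg hep o hWH hDW hVD hDU hd0 ht0 nP n2
    · rcases le_or_gt (2 * (A.q * A.w : ℤ) + A.q * A.h) (NN A) with rA | ra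
      · exact smmpc01A_c d hsg hep o rA hWH hDW hVD hDU hd1 ht0 nP n2
      · exact smmpc01Z_c d hsg hep o ra hWH hDW hVD hDU hd1 ht0 nP n2
  · rcases o.t1.resolve_left nP with hd0 | hd1
    · exact smmpc10_c d hsg hep o hWH hDW hVD hDU hd0 ht1 nP n2
    · rcases le_or_gt (2 * (A.q * A.w : ℤ) + A.q * A.h) (NN A) with rA | ra
      · exact smmpc11A_c d hsg hep o rA hWH hDW hVD hDU hd1 ht1 nP n2
      · exact smmpc11Z_c d hsg hep o ra hWH hDW hVD hDU hd1 ht1 nP n2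

theorem A_smmmp {A : TAp} {T : A.Tie} {i U S θ : ℤ} (d : ST A T (-1))
    (hsg : A.sg = sgv false) (hep : T.ep = sgv false) (o : OC A T i U S θ)
    (hDW : A.D < A.q * A.w) (hWH : (A.q * A.w : ℤ) ≤ A.q * A.h)
    (hUm : U + 2 ≤ 0) (hUW : U + A.q * A.w + 2 ≤ A.D) (hVp : 2 ≤ U + S)
    (nP : θ + th A T.t ≠ A.D) (n2 : 2 * θ ≠ th A T.t) : False := by
  rcases o.t0 with ht0 | ht1
  · rcases o.t1.resolve_left nP with hd0 | hd1
    · exact smmmp00_c d hsg hep o hVp hWH hDW hUW hUm hd0 ht0 nP n2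
    · exact smmmp01_c d hsg hep o hVp hWH hDW hUW hUm hd1 ht0 nP n2
  · rcases o.t1.resolve_left nP with hd0 | hd1
    · rcases le_or_gt (2 * (A.q * A.w : ℤ) + A.q * A.h) (NN A) with rA | ra
      · exact smmmp10A_c d hsg hep o hVp rA hWH hDW hUW hUm hd0 ht1 nP n2
      · by_cases nh : NN A + A.q * T.x ≠ A.q * A.w + A.q * A.h
        · exact smmmp10Znh_c d hsg hep o hVp ra hWH hDW hUW hUm hd0 ht1 nP n2 nh
        · push Not at nh
          have hs0 := nh.ge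
          have hs1 := nh.le
          by_cases nO : NN A + A.q + 2 * (A.q * T.x) ≠ 2 * (A.q * A.w)
          · exact smmmp10ZHn1_c d hsg hep o hs1 hs0 hVp ra hWH hDW hUW hUm hd0 ht1 nP n2 nO
          · push Not at nO
            exact osl d hsg hep hDW hWH ra nh nO (by have := hd0; have := ht1; linarith)
    · exact smmmp11_c d hsg hep o hVp hWH hDW hUW hUm hd1 ht1 nP n2

theorem A_smmmn {A : TAp} {T : A.Tie} {i U S θ : ℤ} (d : ST A T (-1))
    (hsg : A.sg = sgv false) (hep : T.ep = sgv false) (o : OC A T i U S θ)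
    (hDW : A.D < A.q * A.w) (hWH : (A.q * A.w : ℤ) ≤ A.q * A.h)
    (hUm : U + 2 ≤ 0) (hUW : U + A.q * A.w + 2 ≤ A.D) (hVm : U + S + 2 ≤ 0)
    (sN : (A.q * A.w : ℤ) - A.q * A.h + A.q ≤ S)
    (nP : θ + th A T.t ≠ A.D) (n2 : 2 * θ ≠ th A T.t) : False := by
  rcases o.t0 with ht0 | ht1
  · rcases o.t1.resolve_left nP with hd0 | hd1
    · exact smmmn00_c d hsg hep o sN hVm hWH hDW hUW hUm hd0 ht0 nP n2
    · exact smmmn01_c d hsg hep o sN hVm hWH hDW hUW hUm hd1 ht0 nP n2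
  · rcases o.t1.resolve_left nP with hd0 | hd1
    · rcases le_or_gt (2 * (A.q * A.w : ℤ) + A.q * A.h) (NN A) with rA | ra
      · exact smmmn10A_c d hsg hep o sN hVm rA hWH hDW hUW hUm hd0 ht1 nP n2
      · by_cases nh : NN A + A.q * T.x ≠ A.q * A.w + A.q * A.h
        · exact smmmn10Znh_c d hsg hep o sN hVm ra hWH hDW hUW hUm hd0 ht1 nP n2 nh
        · push Not at nh
          have hs0 := nh.ge
          have hs1 := nh.le
          by_cases nO : NN A + A.q + 2 * (A.q * T.x) ≠ 2 * (A.q * A.w)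
          · exact smmmn10ZHn1_c d hsg hep o hs1 hs0 sN hVm ra hWH hDW hUW hUm hd0 ht1 nP n2 nO
          · push Not at nO
            exact osl d hsg hep hDW hWH ra nh nO (by have := hd0; have := ht1; linarith)
    · exact smmmn11_c d hsg hep o sN hVm hWH hDW hUW hUm hd1 ht1 nP n2

theorem A_smmmF {A : TAp} {T : A.Tie} {i U S θ : ℤ} (d : ST A T (-1))
    (hsg : A.sg = sgv false) (hep : T.ep = sgv false) (o : OC A T i U S θ)
    (hDW : A.D < A.q * A.w) (hWH : (A.q * A.w : ℤ) ≤ A.q * A.h)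
    (hUm : U + 2 ≤ 0) (hUW : U + A.q * A.w + 2 ≤ A.D) (hVm : U + S + 2 ≤ 0)
    (sF : S + A.q * A.h + A.q ≤ A.q * A.w)
    (nP : θ + th A T.t ≠ A.D) (n2 : 2 * θ ≠ th A T.t) : False := by
  rcases o.t0 with ht0 | ht1
  · rcases o.t1.resolve_left nP with hd0 | hd1
    · exact smmmF00_c d hsg hep o sF hVm hWH hDW hUW hUm hd0 ht0 nP n2
    · rcases le_or_gt (2 * (A.q * A.w : ℤ) + A.q * A.h) (NN A) with rA | ra
      · rcases xi_gen d o.c o.it o.iq with hx | hx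
        · have x1m : -(A.q * T.x) + 2 ≤ U + A.q * A.w := by linarith
          exact smmmF01Ag_c d hsg hep o x1m sF hVm rA hWH hDW hUW hUm hd1 ht0 nP n2
        · have x2m : U + A.q * A.w ≤ -(A.q * T.x) := by linarith
          obtain ⟨j, e, b, a, hj, k0, k1, ⟨gU, gSF, gV⟩ | ⟨gUl, gSFl, gVl⟩⟩ :=
            triSF d hep o hUm hUW hVm hWH (by have h1 : A.sg = -1 := hsg; omega) sF
          · exact smmmF01Au_c d hsg hep o hj k0 k1 gV gSF gU x2m sF hVm rA hWH hDW hUW hUm hd1 ht0 nP n2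
          · exact smmmF01Al_c d hsg hep o hj k0 k1 gVl gSFl gUl x2m sF hVm rA hWH hDW hUW hUm hd1 ht0 nP n2
      · exact smmmF01Z_c d hsg hep o sF hVm ra hWH hDW hUW hUm hd1 ht0 nP n2
  · rcases o.t1.resolve_left nP with hd0 | hd1
    · rcases le_or_gt (2 * (A.q * A.w : ℤ) + A.q * A.h) (NN A) with rA | ra
      · exact smmmF10A_c d hsg hep o sF hVm rA hWH hDW hUW hUm hd0 ht1 nP n2
      · by_cases nh : NN A + A.q * T.x ≠ A.q * A.w + A.q * A.h
        · exact smmmF10Znh_c d hsg hep o sF hVm ra hWH hDW hUW hUm hd0 ht1 nP n2 nh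
        · push Not at nh
          have hs0 := nh.ge
          have hs1 := nh.le
          by_cases nO : NN A + A.q + 2 * (A.q * T.x) ≠ 2 * (A.q * A.w)
          · exact smmmF10ZHn1_c d hsg hep o hs1 hs0 sF hVm ra hWH hDW hUW hUm hd0 ht1 nP n2 nO
          · push Not at nO
            exact osl d hsg hep hDW hWH ra nh nO (by have := hd0; have := ht1; linarith)
    · exact smmmF11_c d hsg hep o sF hVm hWH hDW hUW hUm hd1 ht1 nP n2

theorem A_smmme {A : TAp} {T : A.Tie} {i U S θ : ℤ} (d : ST A T (-1))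
    (hsg : A.sg = sgv false) (hep : T.ep = sgv false) (o : OC A T i U S θ)
    (hDW : A.D < A.q * A.w) (hWH : (A.q * A.w : ℤ) ≤ A.q * A.h)
    (hUm : U + 2 ≤ 0) (hUW : U + A.q * A.w + 2 ≤ A.D) (hVm : U + S + 2 ≤ 0)
    (sE0 : (A.q * A.w : ℤ) - A.q * A.h ≤ S) (sE1 : S + A.q * A.h ≤ A.q * A.w)
    (nP : θ + th A T.t ≠ A.D) (n2 : 2 * θ ≠ th A T.t) : False := by
  rcases o.t0 with ht0 | ht1
  · rcases o.t1.resolve_left nP with hd0 | hd1
    · exact smmme00_c d hsg hep o sE0 sE1 hVm hWH hDW hUW hUm hd0 ht0 nP n2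
    · rcases le_or_gt (2 * (A.q * A.w : ℤ) + A.q * A.h) (NN A) with rA | ra
      · rcases xi_gen d o.c o.it o.iq with hx | hx
        · have x1m : -(A.q * T.x) + 2 ≤ U + A.q * A.w := by linarith
          exact smmme01Ag_c d hsg hep o x1m sE0 sE1 hVm rA hWH hDW hUW hUm hd1 ht0 nP n2
        · have x2m : U + A.q * A.w ≤ -(A.q * T.x) := by linarith
          obtain ⟨j, e, b, a, hj, k0, k1, ⟨gU, gSe, gV⟩ | ⟨gUl, gSel, gVl⟩⟩ :=
            triSe d hep o hUm hUW hVm hWH (by have h1 : A.sg = -1 := hsg; omega) sE0 sE1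
          · exact smmme01u_c d hsg hep o hj k0 k1 gV gSe gU x2m sE0 sE1 hVm hWH hDW hUW hUm hd1 ht0 nP n2
          · exact smmme01l_c d hsg hep o hj k0 k1 gVl gSel gUl x2m sE0 sE1 hVm hWH hDW hUW hUm hd1 ht0 nP n2
      · exact smmme01Z_c d hsg hep o sE0 sE1 hVm ra hWH hDW hUW hUm hd1 ht0 nP n2
  · rcases o.t1.resolve_left nP with hd0 | hd1
    · exact smmme10_c d hsg hep o sE0 sE1 hVm hWH hDW hUW hUm hd0 ht1 nP n2
    · exact smmme11_c d hsg hep o sE0 sE1 hVm hWH hDW hUW hUm hd1 ht1 nP n2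

theorem A_smmmB {A : TAp} {T : A.Tie} {i U S θ : ℤ} (d : ST A T (-1))
    (hsg : A.sg = sgv false) (hep : T.ep = sgv false) (o : OC A T i U S θ)
    (hDW : A.D < A.q * A.w) (hWH : (A.q * A.w : ℤ) ≤ A.q * A.h)
    (hUp : 2 ≤ U) (hUD : U + 2 ≤ A.D) (hVp : 2 ≤ U + S)
    (nP : θ + th A T.t ≠ A.D) (n2 : 2 * θ ≠ th A T.t) : False := by
  rcases o.t0 with ht0 | ht1
  · rcases o.t1.resolve_left nP with hd0 | hd1
    · exact smmmB00_c d hsg hep o hVp hWH hDW hUD hUp hd0 ht0 nP n2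
    · exact smmmB01_c d hsg hep o hVp hWH hDW hUD hUp hd1 ht0 nP n2
  · rcases o.t1.resolve_left nP with hd0 | hd1
    · rcases le_or_gt (2 * (A.q * A.w : ℤ) + A.q * A.h) (NN A) with rA | ra
      · exact smmmB10A_c d hsg hep o hVp rA hWH hDW hUD hUp hd0 ht1 nP n2
      · by_cases nh : NN A + A.q * T.x ≠ A.q * A.w + A.q * A.h
        · exact smmmB10Znh_c d hsg hep o hVp ra hWH hDW hUD hUp hd0 ht1 nP n2 nh
        · push Not at nh
          have hs0 := nh.ge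
          have hs1 := nh.le
          by_cases nO : NN A + A.q + 2 * (A.q * T.x) ≠ 2 * (A.q * A.w)
          · exact smmmB10ZHn1_c d hsg hep o hs1 hs0 hVp ra hWH hDW hUD hUp hd0 ht1 nP n2 nO
          · push Not at nO
            exact osl d hsg hep hDW hWH ra nh nO (by have := hd0; have := ht1; linarith)
    · exact smmmB11_c d hsg hep o hVp hWH hDW hUD hUp hd1 ht1 nP n2

theorem A_smmmD {A : TAp} {T : A.Tie} {i U S θ : ℤ} (d : ST A T (-1))
    (hsg : A.sg = sgv false) (hep : T.ep = sgv false) (o : OC A T i U S θ)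
    (hDW : A.D < A.q * A.w) (hWH : (A.q * A.w : ℤ) ≤ A.q * A.h)
    (hUp : 2 ≤ U) (hUD : U + 2 ≤ A.D) (hVm : U + S + 2 ≤ 0)
    (nP : θ + th A T.t ≠ A.D) (n2 : 2 * θ ≠ th A T.t) : False := by
  rcases o.t0 with ht0 | ht1
  · rcases o.t1.resolve_left nP with hd0 | hd1
    · exact smmmD00_c d hsg hep o hVm hWH hDW hUD hUp hd0 ht0 nP n2
    · rcases le_or_gt (2 * (A.q * A.w : ℤ) + A.q * A.h) (NN A) with rA | ra
      · exact smmmD01A_c d hsg hep o hVm rA hWH hDW hUD hUp hd1 ht0 nP n2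
      · exact smmmD01Z_c d hsg hep o hVm ra hWH hDW hUD hUp hd1 ht0 nP n2
  · rcases o.t1.resolve_left nP with hd0 | hd1
    · rcases le_or_gt (2 * (A.q * A.w : ℤ) + A.q * A.h) (NN A) with rA | ra
      · exact smmmD10A_c d hsg hep o hVm rA hWH hDW hUD hUp hd0 ht1 nP n2
      · by_cases nh : NN A + A.q * T.x ≠ A.q * A.w + A.q * A.h
        · exact smmmD10Znh_c d hsg hep o hVm ra hWH hDW hUD hUp hd0 ht1 nP n2 nh
        · push Not at nh
          have hs0 := nh.ge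
          have hs1 := nh.le
          by_cases nO : NN A + A.q + 2 * (A.q * T.x) ≠ 2 * (A.q * A.w)
          · exact smmmD10ZHn1_c d hsg hep o hs1 hs0 hVm ra hWH hDW hUD hUp hd0 ht1 nP n2 nO
          · push Not at nO
            exact osl d hsg hep hDW hWH ra nh nO (by have := hd0; have := ht1; linarith)
    · rcases le_or_gt (2 * (A.q * A.w : ℤ) + A.q * A.h) (NN A) with rA | ra
      · exact smmmD11A_c d hsg hep o hVm rA hWH hDW hUD hUp hd1 ht1 nP n2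
      · exact smmmD11Z_c d hsg hep o hVm ra hWH hDW hUD hUp hd1 ht1 nP n2

theorem A_smmmc {A : TAp} {T : A.Tie} {i U S θ : ℤ} (d : ST A T (-1))
    (hsg : A.sg = sgv false) (hep : T.ep = sgv false) (o : OC A T i U S θ)
    (hDW : A.D < A.q * A.w) (hWH : (A.q * A.w : ℤ) ≤ A.q * A.h)
    (hDU : A.D + 2 ≤ U) (hVD : U + S + A.q * A.h + 2 ≤ A.D)
    (nP : θ + th A T.t ≠ A.D) (n2 : 2 * θ ≠ th A T.t) : False := by
  rcases o.t0 with ht0 | ht1
  · rcases o.t1.resolve_left nP with hd0 | hd1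
    · exact smmmc00_c d hsg hep o hWH hDW hVD hDU hd0 ht0 nP n2
    · rcases le_or_gt (2 * (A.q * A.w : ℤ) + A.q * A.h) (NN A) with rA | ra
      · exact smmmc01A_c d hsg hep o rA hWH hDW hVD hDU hd1 ht0 nP n2
      · exact smmmc01Z_c d hsg hep o ra hWH hDW hVD hDU hd1 ht0 nP n2
  · rcases o.t1.resolve_left nP with hd0 | hd1
    · exact smmmc10_c d hsg hep o hWH hDW hVD hDU hd0 ht1 nP n2
    · exact smmmc11_c d hsg hep o hWH hDW hVD hDU hd1 ht1 nP n2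

end Pool.Agent.H78.SV
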