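import Pool.Agent.H78.SV.Vf

/-!
# Single ties: existence of auxiliary classes, their records, divisibility of forms
-/

namespace Pool.Agent.H78.SV

open Pool.Agent.H78.RT
open Pool.Agent.H78.Tie
open Pool.Agent.H78.Tie.TAp
open Pool.Agent.H81.AP (LF dot dot_nil dot_nil' dot_cons AllNn AllNe)
open Pool.Agent.H23.DT (exists_rep)

/-- the class of a given row -/
theorem exK (A : TAp) {k : ℤ} (hk : ¬ (A.p : ℤ) ∣ k) :
    ∃ j U, IsC A j U (A.q * k) (th A j) ∧ 1 ≤ th A j ∧ th A j + 1 ≤ A.D ∧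
      2 * U ≤ NN A ∧ -NN A ≤ 2 * U := by
  obtain ⟨j, j0, j1, hj⟩ := idx_of A k
  have jn : j ≠ 0 := by
    rintro rfl
    apply hk
    rwa [mul_zero, zero_sub, dvd_neg] at hj
  obtain ⟨U, hU, U0, U1⟩ := exists_rep (NN_pos A) (A.a * j)
  have h1 := th_pos A (show 0 < j by omega)
  have h2 := th_ltD A j1
  exact ⟨j, U, ⟨Rec.of hU hj, by omega, j1⟩, by omega, by omega, U1, U0⟩

theorem p_nd_one (A : TAp) : ¬ (A.p : ℤ) ∣ 1 := fun h => by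
  have := Int.le_of_dvd (by norm_num) h
  have := A.w2; have := A.hw; omega

theorem p_nd_neg_one (A : TAp) : ¬ (A.p : ℤ) ∣ -1 := fun h => p_nd_one A (by rwa [dvd_neg] at h)

theorem p_nd_h (A : TAp) : ¬ (A.p : ℤ) ∣ A.h := fun h => by
  have h1 := A.h2; have := A.hh
  have := Int.le_of_dvd (by omega) h
  omega

theorem p_nd_w (A : TAp) : ¬ (A.p : ℤ) ∣ A.w := fun h => by
  have h1 := A.w2; have := A.hw
  have := Int.le_of_dvd (by omega) h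
  omega

theorem p_nd_neg_w (A : TAp) : ¬ (A.p : ℤ) ∣ -A.w := fun h => p_nd_w A (by rwa [dvd_neg] at h)

theorem p_nd_two (A : TAp) : ¬ (A.p : ℤ) ∣ 2 := fun h => by
  have := Int.le_of_dvd (by norm_num) h
  have := A.w2; have := A.hw; omega

theorem p_nd_neg_two (A : TAp) : ¬ (A.p : ℤ) ∣ -2 := fun h => p_nd_two A (by rwa [dvd_neg] at h)

theorem p_nd_neg_h (A : TAp) : ¬ (A.p : ℤ) ∣ -A.h := fun h => p_nd_h A (by rwa [dvd_neg] at h)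

section
variable {A : TAp} {T : A.Tie}

theorem clN {i U S θ : ℤ} (h : IsC A i U S θ) (r : List ℤ) :
    ∃ i, LR.Cl A (env A T (θ :: S :: U :: r)) ⟨[0, 0, 0, 0, 0, 0, 0, 0, 0, 0, 1],
      [0, 0, 0, 0, 0, 0, 0, 0, 0, 1], [0, 0, 0, 0, 0, 0, 0, 0, 1]⟩ i := by
  refine ⟨i, ?_⟩
  unfold LR.Cl env
  simp only [dot_cons, dot_nil]
  convert h using 1 <;> ring

theorem clK1 {U S θ j a b : ℤ} (h : IsC A j b (A.q * 1) a) (r : List ℤ) :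
    ∃ i, LR.Cl A (env A T (θ :: S :: U :: a :: b :: r)) ⟨[0, 0, 0, 0, 0, 0, 0, 0, 0, 0, 0, 0, 1],
      [0, 0, 0, 0, 0, 0, 0, 1], [0, 0, 0, 0, 0, 0, 0, 0, 0, 0, 0, 1]⟩ i := by
  refine ⟨j, ?_⟩
  unfold LR.Cl env
  simp only [dot_cons, dot_nil]
  convert h using 1 <;> ring

theorem clKm1 {U S θ j a b : ℤ} (h : IsC A j b (A.q * (-1)) a) (r : List ℤ) :
    ∃ i, LR.Cl A (env A T (θ :: S :: U :: a :: b :: r)) ⟨[0, 0, 0, 0, 0, 0, 0, 0, 0, 0, 0, 0, 1],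
      [0, 0, 0, 0, 0, 0, 0, -1], [0, 0, 0, 0, 0, 0, 0, 0, 0, 0, 0, 1]⟩ i := by
  refine ⟨j, ?_⟩
  unfold LR.Cl env
  simp only [dot_cons, dot_nil]
  convert h using 1 <;> ring

theorem clKh {U S θ j a b : ℤ} (h : IsC A j b (A.q * A.h) a) (r : List ℤ) :
    ∃ i, LR.Cl A (env A T (θ :: S :: U :: a :: b :: r)) ⟨[0, 0, 0, 0, 0, 0, 0, 0, 0, 0, 0, 0, 1],
      [0, 0, 0, 1], [0, 0, 0, 0, 0, 0, 0, 0, 0, 0, 0, 1]⟩ i := by
  refine ⟨j, ?_⟩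
  unfold LR.Cl env
  simp only [dot_cons, dot_nil]
  convert h using 1 <;> ring

theorem clKmh {U S θ j a b : ℤ} (h : IsC A j b (A.q * (-A.h)) a) (r : List ℤ) :
    ∃ i, LR.Cl A (env A T (θ :: S :: U :: a :: b :: r)) ⟨[0, 0, 0, 0, 0, 0, 0, 0, 0, 0, 0, 0, 1],
      [0, 0, 0, -1], [0, 0, 0, 0, 0, 0, 0, 0, 0, 0, 0, 1]⟩ i := by
  refine ⟨j, ?_⟩
  unfold LR.Cl env
  simp only [dot_cons, dot_nil]
  convert h using 1 <;> ring

theorem clQK1 {j a b : ℤ} (h : IsC A j b (A.q * 1) a) (r : List ℤ) :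
    ∃ i, LR.Cl A (env A T (a :: b :: r)) ⟨[0, 0, 0, 0, 0, 0, 0, 0, 0, 1],
      [0, 0, 0, 0, 0, 0, 0, 1], [0, 0, 0, 0, 0, 0, 0, 0, 1]⟩ i := by
  refine ⟨j, ?_⟩
  unfold LR.Cl env
  simp only [dot_cons, dot_nil]
  convert h using 1 <;> ring

theorem clQKm1 {j a b : ℤ} (h : IsC A j b (A.q * (-1)) a) (r : List ℤ) :
    ∃ i, LR.Cl A (env A T (a :: b :: r)) ⟨[0, 0, 0, 0, 0, 0, 0, 0, 0, 1],
      [0, 0, 0, 0, 0, 0, 0, -1], [0, 0, 0, 0, 0, 0, 0, 0, 1]⟩ i := by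
  refine ⟨j, ?_⟩
  unfold LR.Cl env
  simp only [dot_cons, dot_nil]
  convert h using 1 <;> ring

theorem clQKh {j a b : ℤ} (h : IsC A j b (A.q * A.h) a) (r : List ℤ) :
    ∃ i, LR.Cl A (env A T (a :: b :: r)) ⟨[0, 0, 0, 0, 0, 0, 0, 0, 0, 1],
      [0, 0, 0, 1], [0, 0, 0, 0, 0, 0, 0, 0, 1]⟩ i := by
  refine ⟨j, ?_⟩
  unfold LR.Cl env
  simp only [dot_cons, dot_nil]
  convert h using 1 <;> ring

theorem clQKmh {j a b : ℤ} (h : IsC A j b (A.q * (-A.h)) a) (r : List ℤ) :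
    ∃ i, LR.Cl A (env A T (a :: b :: r)) ⟨[0, 0, 0, 0, 0, 0, 0, 0, 0, 1],
      [0, 0, 0, -1], [0, 0, 0, 0, 0, 0, 0, 0, 1]⟩ i := by
  refine ⟨j, ?_⟩
  unfold LR.Cl env
  simp only [dot_cons, dot_nil]
  convert h using 1 <;> ring

theorem clQKw {j a b : ℤ} (h : IsC A j b (A.q * A.w) a) (r : List ℤ) :
    ∃ i, LR.Cl A (env A T (a :: b :: r)) ⟨[0, 0, 0, 0, 0, 0, 0, 0, 0, 1],
      [0, 0, 1], [0, 0, 0, 0, 0, 0, 0, 0, 1]⟩ i := by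
  refine ⟨j, ?_⟩
  unfold LR.Cl env
  simp only [dot_cons, dot_nil]
  convert h using 1 <;> ring

theorem clQKmw {j a b : ℤ} (h : IsC A j b (A.q * (-A.w)) a) (r : List ℤ) :
    ∃ i, LR.Cl A (env A T (a :: b :: r)) ⟨[0, 0, 0, 0, 0, 0, 0, 0, 0, 1],
      [0, 0, -1], [0, 0, 0, 0, 0, 0, 0, 0, 1]⟩ i := by
  refine ⟨j, ?_⟩
  unfold LR.Cl env
  simp only [dot_cons, dot_nil]
  convert h using 1 <;> ring

theorem clKw {U S θ j a b : ℤ} (h : IsC A j b (A.q * A.w) a) (r : List ℤ) :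
    ∃ i, LR.Cl A (env A T (θ :: S :: U :: a :: b :: r)) ⟨[0, 0, 0, 0, 0, 0, 0, 0, 0, 0, 0, 0, 1],
      [0, 0, 1], [0, 0, 0, 0, 0, 0, 0, 0, 0, 0, 0, 1]⟩ i := by
  refine ⟨j, ?_⟩
  unfold LR.Cl env
  simp only [dot_cons, dot_nil]
  convert h using 1 <;> ring

theorem clKmw {U S θ j a b : ℤ} (h : IsC A j b (A.q * (-A.w)) a) (r : List ℤ) :
    ∃ i, LR.Cl A (env A T (θ :: S :: U :: a :: b :: r)) ⟨[0, 0, 0, 0, 0, 0, 0, 0, 0, 0, 0, 0, 1],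
      [0, 0, -1], [0, 0, 0, 0, 0, 0, 0, 0, 0, 0, 0, 1]⟩ i := by
  refine ⟨j, ?_⟩
  unfold LR.Cl env
  simp only [dot_cons, dot_nil]
  convert h using 1 <;> ring

theorem clKx {U S θ j a b : ℤ} (h : IsC A j b (A.q * T.x) a) (r : List ℤ) :
    ∃ i, LR.Cl A (env A T (θ :: S :: U :: a :: b :: r)) ⟨[0, 0, 0, 0, 0, 0, 0, 0, 0, 0, 0, 0, 1],
      [0, 0, 0, 0, 0, 1], [0, 0, 0, 0, 0, 0, 0, 0, 0, 0, 0, 1]⟩ i := by
  refine ⟨j, ?_⟩
  unfold LR.Cl env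
  simp only [dot_cons, dot_nil]
  convert h using 1 <;> ring

theorem clKmx {U S θ j a b : ℤ} (h : IsC A j b (A.q * (-T.x)) a) (r : List ℤ) :
    ∃ i, LR.Cl A (env A T (θ :: S :: U :: a :: b :: r)) ⟨[0, 0, 0, 0, 0, 0, 0, 0, 0, 0, 0, 0, 1],
      [0, 0, 0, 0, 0, -1], [0, 0, 0, 0, 0, 0, 0, 0, 0, 0, 0, 1]⟩ i := by
  refine ⟨j, ?_⟩
  unfold LR.Cl env
  simp only [dot_cons, dot_nil]
  convert h using 1 <;> ring

theorem clK2 {U S θ j a b : ℤ} (h : IsC A j b (A.q * 2) a) (r : List ℤ) :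
    ∃ i, LR.Cl A (env A T (θ :: S :: U :: a :: b :: r)) ⟨[0, 0, 0, 0, 0, 0, 0, 0, 0, 0, 0, 0, 1],
      [0, 0, 0, 0, 0, 0, 0, 2], [0, 0, 0, 0, 0, 0, 0, 0, 0, 0, 0, 1]⟩ i := by
  refine ⟨j, ?_⟩
  unfold LR.Cl env
  simp only [dot_cons, dot_nil]
  convert h using 1 <;> ring

theorem clKm2 {U S θ j a b : ℤ} (h : IsC A j b (A.q * (-2)) a) (r : List ℤ) :
    ∃ i, LR.Cl A (env A T (θ :: S :: U :: a :: b :: r)) ⟨[0, 0, 0, 0, 0, 0, 0, 0, 0, 0, 0, 0, 1],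
      [0, 0, 0, 0, 0, 0, 0, -2], [0, 0, 0, 0, 0, 0, 0, 0, 0, 0, 0, 1]⟩ i := by
  refine ⟨j, ?_⟩
  unfold LR.Cl env
  simp only [dot_cons, dot_nil]
  convert h using 1 <;> ring

theorem clV0 {U S θ j a b : ℤ} (h : IsC A j a b a) (r : List ℤ) :
    ∃ i, LR.Cl A (env A T (θ :: S :: U :: a :: b :: r)) ⟨[0, 0, 0, 0, 0, 0, 0, 0, 0, 0, 0, 1],
      [0, 0, 0, 0, 0, 0, 0, 0, 0, 0, 0, 0, 1], [0, 0, 0, 0, 0, 0, 0, 0, 0, 0, 0, 1]⟩ i := by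
  refine ⟨j, ?_⟩
  unfold LR.Cl env
  simp only [dot_cons, dot_nil]
  convert h using 1 <;> ring

theorem clVw {U S θ j a b : ℤ} (h : IsC A j (a - A.q * A.w) b a) (r : List ℤ) :
    ∃ i, LR.Cl A (env A T (θ :: S :: U :: a :: b :: r)) ⟨[0, 0, -1, 0, 0, 0, 0, 0, 0, 0, 0, 1],
      [0, 0, 0, 0, 0, 0, 0, 0, 0, 0, 0, 0, 1], [0, 0, 0, 0, 0, 0, 0, 0, 0, 0, 0, 1]⟩ i := by
  refine ⟨j, ?_⟩
  unfold LR.Cl env
  simp only [dot_cons, dot_nil]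
  convert h using 1 <;> ring

theorem clVh {U S θ j a b : ℤ} (h : IsC A j (a - A.q * A.h) b a) (r : List ℤ) :
    ∃ i, LR.Cl A (env A T (θ :: S :: U :: a :: b :: r)) ⟨[0, 0, 0, -1, 0, 0, 0, 0, 0, 0, 0, 1],
      [0, 0, 0, 0, 0, 0, 0, 0, 0, 0, 0, 0, 1], [0, 0, 0, 0, 0, 0, 0, 0, 0, 0, 0, 1]⟩ i := by
  refine ⟨j, ?_⟩
  unfold LR.Cl env
  simp only [dot_cons, dot_nil]
  convert h using 1 <;> ring

theorem clV1 {U S θ j a b : ℤ} (h : IsC A j (a - A.q) b a) (r : List ℤ) :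
    ∃ i, LR.Cl A (env A T (θ :: S :: U :: a :: b :: r)) ⟨[0, 0, 0, 0, 0, 0, 0, -1, 0, 0, 0, 1],
      [0, 0, 0, 0, 0, 0, 0, 0, 0, 0, 0, 0, 1], [0, 0, 0, 0, 0, 0, 0, 0, 0, 0, 0, 1]⟩ i := by
  refine ⟨j, ?_⟩
  unfold LR.Cl env
  simp only [dot_cons, dot_nil]
  convert h using 1 <;> ring

theorem clG {U S θ j a b d : ℤ} (h : IsC A j d b a) (r : List ℤ) :
    ∃ i, LR.Cl A (env A T (θ :: S :: U :: a :: b :: d :: r))
      ⟨[0, 0, 0, 0, 0, 0, 0, 0, 0, 0, 0, 0, 0, 1], [0, 0, 0, 0, 0, 0, 0, 0, 0, 0, 0, 0, 1],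
      [0, 0, 0, 0, 0, 0, 0, 0, 0, 0, 0, 1]⟩ i := by
  refine ⟨j, ?_⟩
  unfold LR.Cl env
  simp only [dot_cons, dot_nil]
  convert h using 1 <;> ring

end

/-! ### divisibility -/

theorem dot_dvd {q : ℤ} : ∀ {F v v' : List ℤ}, List.Forall₂ (fun a b => q ∣ a - b) v v' →
    q ∣ dot F v - dot F v'
  | [], v, v', _ => by rw [dot_nil, dot_nil]; simp
  | _ :: _, [], [], _ => by rw [dot_nil']; simp
  | c :: F, x :: v, y :: v', h => by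
    cases h with
    | cons h1 h2 =>
      rw [dot_cons, dot_cons]
      have := dvd_add (h1.mul_left c) (dot_dvd (F := F) h2)
      rwa [show c * (x - y) + (dot F v - dot F v') = c * x + dot F v - (c * y + dot F v') by ring]
        at this

theorem dvd_of_res {q : ℤ} {v v' : List ℤ} {la : List LF}
    (h : List.Forall₂ (fun a b => q ∣ a - b) v v') (h0 : ∀ F ∈ la, dot F v' = 0) :
    ∀ F ∈ la, q ∣ dot F v := by
  intro F hF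
  have := dot_dvd (F := F) h
  rwa [h0 F hF, sub_zero] at this

/-- residues of the environment -/
def res0 (es D : ℤ) (r : List ℤ) : List ℤ := 1 :: 0 :: 0 :: 0 :: D :: 0 :: es :: 0 :: r

variable {A : TAp} {T : A.Tie} {sx : ℤ}

theorem ST.res0 (d : ST A T sx) {sp ep : Bool} (hsg : A.sg = sgv sp) (hep : T.ep = sgv ep)
    {r r' : List ℤ} (h : List.Forall₂ (fun a b => (A.q : ℤ) ∣ a - b) r r') :
    List.Forall₂ (fun a b => (A.q : ℤ) ∣ a - b) (1 :: env A T r)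
      (SV.res0 (sgv ep * sgv sp) A.D r') := by
  have h1 := d.q_th
  rw [hsg, hep] at h1
  unfold env SV.res0
  refine .cons (by simp) (.cons (by rw [sub_zero]; exact dvd_mul_left _ _)
    (.cons (by simp) (.cons (by simp) (.cons (by simp) (.cons (by simp) (.cons h1
    (.cons (by simp) h)))))))

/-- residues, no class -/
theorem ST.resQ0 (d : ST A T sx) {sp ep : Bool} (hsg : A.sg = sgv sp) (hep : T.ep = sgv ep)
    {la : List LF} (h0 : ∀ F ∈ la, dot F (SV.res0 (sgv ep * sgv sp) A.D []) = 0) :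
    ∀ F ∈ la, (A.q : ℤ) ∣ dot F (1 :: env A T []) :=
  dvd_of_res (d.res0 hsg hep .nil) h0

/-- residues, a class of given row only -/
theorem ST.resQK (d : ST A T sx) {sp ep : Bool} (hsg : A.sg = sgv sp) (hep : T.ep = sgv ep)
    {j a b k : ℤ} (hj : IsC A j b k a) {la : List LF}
    (h0 : ∀ F ∈ la, dot F (SV.res0 (sgv ep * sgv sp) A.D [a, a]) = 0) :
    ∀ F ∈ la, (A.q : ℤ) ∣ dot F (1 :: env A T [a, b]) :=
  dvd_of_res (d.res0 hsg hep (.cons (by simp) (.cons hj.1.mod .nil))) h0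

/-- residues, class `n` only -/
theorem ST.resN (d : ST A T sx) {sp ep : Bool} (hsg : A.sg = sgv sp) (hep : T.ep = sgv ep)
    {i U S θ : ℤ} (o : IsC A i U S θ) {la : List LF}
    (h0 : ∀ F ∈ la, dot F (SV.res0 (sgv ep * sgv sp) A.D [θ, 0, θ]) = 0) :
    ∀ F ∈ la, (A.q : ℤ) ∣ dot F (1 :: env A T [θ, S, U]) := by
  obtain ⟨s, hs, -⟩ := o.1.2.1
  exact dvd_of_res (d.res0 hsg hep (.cons (by simp) (.cons ⟨s, by rw [hs]; ring⟩
    (.cons o.1.mod .nil)))) h0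

/-- residues, a class of given row -/
theorem ST.resK (d : ST A T sx) {sp ep : Bool} (hsg : A.sg = sgv sp) (hep : T.ep = sgv ep)
    {i U S θ j a b k : ℤ} (o : IsC A i U S θ) (hj : IsC A j b k a) {la : List LF}
    (h0 : ∀ F ∈ la, dot F (SV.res0 (sgv ep * sgv sp) A.D [θ, 0, θ, a, a]) = 0) :
    ∀ F ∈ la, (A.q : ℤ) ∣ dot F (1 :: env A T [θ, S, U, a, b]) := by
  obtain ⟨s, hs, -⟩ := o.1.2.1
  exact dvd_of_res (d.res0 hsg hep (.cons (by simp) (.cons ⟨s, by rw [hs]; ring⟩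
    (.cons o.1.mod (.cons (by simp) (.cons hj.1.mod .nil)))))) h0

/-- residues, a class with free row -/
theorem ST.resV (d : ST A T sx) {sp ep : Bool} (hsg : A.sg = sgv sp) (hep : T.ep = sgv ep)
    {i U S θ j a b e : ℤ} (o : IsC A i U S θ) (hj : IsC A j e b a) {la : List LF}
    (h0 : ∀ F ∈ la, dot F (SV.res0 (sgv ep * sgv sp) A.D [θ, 0, θ, a, 0]) = 0) :
    ∀ F ∈ la, (A.q : ℤ) ∣ dot F (1 :: env A T [θ, S, U, a, b]) := by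
  obtain ⟨s, hs, -⟩ := o.1.2.1
  obtain ⟨s', hs', -⟩ := hj.1.2.1
  exact dvd_of_res (d.res0 hsg hep (.cons (by simp) (.cons ⟨s, by rw [hs]; ring⟩
    (.cons o.1.mod (.cons (by simp) (.cons ⟨s', by rw [hs']; ring⟩ .nil)))))) h0

/-- residues, a general class -/
theorem ST.resG (d : ST A T sx) {sp ep : Bool} (hsg : A.sg = sgv sp) (hep : T.ep = sgv ep)
    {i U S θ j a b e : ℤ} (o : IsC A i U S θ) (hj : IsC A j e b a) {la : List LF}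
    (h0 : ∀ F ∈ la, dot F (SV.res0 (sgv ep * sgv sp) A.D [θ, 0, θ, a, 0, a]) = 0) :
    ∀ F ∈ la, (A.q : ℤ) ∣ dot F (1 :: env A T [θ, S, U, a, b, e]) := by
  obtain ⟨s, hs, -⟩ := o.1.2.1
  obtain ⟨s', hs', -⟩ := hj.1.2.1
  exact dvd_of_res (d.res0 hsg hep (.cons (by simp) (.cons ⟨s, by rw [hs]; ring⟩
    (.cons o.1.mod (.cons (by simp) (.cons ⟨s', by rw [hs']; ring⟩ (.cons hj.1.mod .nil))))))) h0

theorem fnil {v : List ℤ} : ∀ F ∈ ([] : List LF), dot F v = 0 := by simp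

theorem fcons {v : List ℤ} {F : LF} {la : List LF} (h : dot F v = 0) (t : ∀ G ∈ la, dot G v = 0) :
    ∀ G ∈ F :: la, dot G v = 0 := by
  intro G hG
  rcases List.mem_cons.1 hG with rfl | hG
  · exact h
  · exact t G hG

end Pool.Agent.H78.SV
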