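import Pool.Agent.H78.SV.Rec

/-!
# Single ties: the triangle class, splits
-/

namespace Pool.Agent.H78.SV

open Pool.Agent.H78.RT
open Pool.Agent.H78.Tie
open Pool.Agent.H78.Tie.TAp
open Pool.Agent.H81.AP (LF dot dot_nil dot_nil' dot_cons AllNn AllNe)

variable {A : TAp} {T : A.Tie} {sx : ℤ} {i U S θ : ℤ}

/-- genericity of `U + W + X` -/
theorem xi_gen (d : ST A T sx) (c : IsC A i U S θ) (h1 : i ≠ T.t) (h2 : i ≠ A.q - T.t) :
    2 ≤ U + A.q * A.w + A.q * T.x ∨ U + A.q * A.w + A.q * T.x + 2 ≤ 0 := by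
  have := d.Ugen c h1 h2 (-A.w - T.x)
  rw [mul_sub, mul_neg] at this
  omega

/-- the class `t` is not in the triangle -/
theorem t_no (hep : T.ep = -1) {j U' S' : ℤ} (hI : Idx A j U' S')
    (hU : U' = -(A.q * A.w) - A.sg) (hx : |T.x| < A.h) (hS : 0 < S') :
    ∃ z, 0 ≤ z ∧ S' = A.q * A.w - A.q * T.x + z * NN A := by
  obtain ⟨j0, j1, h1, s, hs, h2⟩ := hI
  have hp := A.p_pos'
  have hq := A.q_pos'
  have pq : (A.p : ℤ) < A.q := by exact_mod_cast A.pq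
  have ht := T.tie
  have hr := T.row
  rw [hep] at ht hr
  have h3 := dvd_sub h1 ht
  rw [hU, show A.a * j - (-(A.q * A.w) - A.sg) - (A.a * T.t - -1 * (A.q * A.w + A.sg))
    = A.a * (j - T.t) by ring] at h3
  have h4 := Pool.Agent.H23.DT.dvd_of A ((dvd_mul_left (A.q : ℤ) A.p).trans h3)
  have t0 := T.t0
  have tp := T.tp
  have hj : j = T.t := by
    rcases lt_trichotomy j T.t with h | h | h
    · exact absurd (show (A.q : ℤ) ∣ T.t - j by rw [← dvd_neg, neg_sub]; exact h4)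
        (Pool.Agent.H23.DT.not_dvd_small (by omega) (by omega))
    · exact h
    · exact absurd h4 (Pool.Agent.H23.DT.not_dvd_small (by omega) (by omega))
  rw [hj] at h2
  have h5 := dvd_sub hr h2
  rw [show A.e * T.t - -1 * (T.x - A.w) - (A.e * T.t - s) = s - (A.w - T.x) by ring] at h5
  obtain ⟨z, hz⟩ := h5
  refine ⟨z, ?_, ?_⟩
  · by_contra hc
    have : (A.p : ℤ) * z ≤ A.p * (-1) := mul_le_mul_of_nonneg_left (by omega) hp.le
    have hs1 : s ≤ 0 := by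
      have h2' := A.h2
      have w2 := A.w2
      rw [abs_lt] at hx
      omega
    have : (A.q : ℤ) * s ≤ A.q * 0 := mul_le_mul_of_nonneg_left hs1 hq.le
    omega
  · rw [hs, show s = A.w - T.x + A.p * z by linarith]
    unfold NN
    ring

theorem ST.absx (d : ST A T sx) (h : sx = 1 ∨ sx = -1) : |T.x| < A.h := by
  have x0 := d.x0
  have x1 := d.x1
  rw [abs_lt]
  rcases h with h | h <;> rw [h] at x0 x1 <;> constructor <;> omega

/-- the triangle class, `S = W - H` -/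
theorem triSe (d : ST A T (-1)) (hep : T.ep = -1) (o : OC A T i U S θ) (hUm : U + 2 ≤ 0)
    (hUW : U + A.q * A.w + 2 ≤ A.D) (hVm : U + S + 2 ≤ 0) (hWH : (A.q * A.w : ℤ) ≤ A.q * A.h)
    (hx : U + A.q * A.w + A.sg < -(A.q * T.x))
    (sE0 : (A.q * A.w : ℤ) - A.q * A.h ≤ S) (sE1 : S + A.q * A.h ≤ A.q * A.w) :
    ∃ j e b a, IsC A j e b a ∧ 1 ≤ a ∧ a + 1 ≤ A.D ∧
      ((2 ≤ e ∧ -(A.q * A.h : ℤ) ≤ b ∧ e + b ≤ U + S) ∨
      (1 ≤ e + A.q * A.w ∧ (A.q * A.w : ℤ) ≤ b ∧ e + b ≤ U + S + A.q * A.h)) := by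
  obtain ⟨f1, f2, f3, f4, f5, f6, f7, f8, f9, f10⟩ := d.facts
  have u0 := o.u0
  have v0 := o.v0
  have e1 : (A.q : ℤ) * (-A.h) = -(A.q * A.h) := by ring
  obtain ⟨j, U', S', hj, h⟩ := triE d.F (Y := -A.h) o.c (by omega) (by omega) (by omega)
    (by rw [e1]) (by rw [e1]; omega) (by rw [e1]; omega) (by rw [e1]; omega) (by
      intro j U' S' hI hU h1 h2
      rw [e1] at h1
      obtain ⟨z, z0, hz⟩ := t_no hep hI hU (d.absx (Or.inr rfl)) (by omega)
      have : 0 ≤ z * NN A := mul_nonneg z0 (NN_pos A).le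
      omega)
  rw [e1] at h
  have a0 := th_pos A hj.2.1
  have a1 := th_ltD A hj.2.2
  refine ⟨j, U', S', th A j, hj, by omega, by omega, ?_⟩
  omega

/-- the triangle class, `S < W - H` -/
theorem triSF (d : ST A T (-1)) (hep : T.ep = -1) (o : OC A T i U S θ) (hUm : U + 2 ≤ 0)
    (hUW : U + A.q * A.w + 2 ≤ A.D) (hVm : U + S + 2 ≤ 0) (hWH : (A.q * A.w : ℤ) ≤ A.q * A.h)
    (hx : U + A.q * A.w + A.sg < -(A.q * T.x)) (sF : S + A.q * A.h + A.q ≤ A.q * A.w) :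
    ∃ j e b a, IsC A j e b a ∧ 1 ≤ a ∧ a + 1 ≤ A.D ∧
      ((2 ≤ e ∧ S - A.q * A.w ≤ b ∧ e + b ≤ U + S) ∨
      (1 ≤ e + A.q * A.w ∧ S + A.q * A.h ≤ b ∧ e + b ≤ U + S + A.q * A.h)) := by
  obtain ⟨f1, f2, f3, f4, f5, f6, f7, f8, f9, f10⟩ := d.facts
  have u0 := o.u0
  have v0 := o.v0
  obtain ⟨s, hs⟩ := o.qS
  have e1 : (A.q : ℤ) * (s - A.w) = S - A.q * A.w := by rw [mul_sub, ← hs]
  obtain ⟨j, U', S', hj, h⟩ := triE d.F (Y := s - A.w) o.c (by omega) (by omega) (by omega)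
    (by rw [e1]; omega) (by rw [e1]) (by rw [e1]; omega) (by rw [e1]; omega) (by
      intro j U' S' hI hU h1 h2
      rw [e1] at h1
      obtain ⟨z, z0, hz⟩ := t_no hep hI hU (d.absx (Or.inr rfl)) (by omega)
      have : 0 ≤ z * NN A := mul_nonneg z0 (NN_pos A).le
      omega)
  rw [e1] at h
  have a0 := th_pos A hj.2.1
  have a1 := th_ltD A hj.2.2
  refine ⟨j, U', S', th A j, hj, by omega, by omega, ?_⟩
  rcases h with ⟨h1, h2, h3⟩ | ⟨h1, h2, h3⟩
  · left; exact ⟨h1, h2, h3⟩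
  · right; exact ⟨h1, by linarith, h3⟩

/-- the values of `S` compared with `W - H` -/
theorem S_split {S : ℤ} (hS : (A.q : ℤ) ∣ S) :
    (A.q * A.w : ℤ) - A.q * A.h + A.q ≤ S ∨ S + A.q * A.h + A.q ≤ A.q * A.w ∨
      S = A.q * A.w - A.q * A.h := by
  obtain ⟨s, hs⟩ := hS
  have hq := A.q_pos'
  rcases lt_trichotomy s (A.w - A.h) with h | h | h
  · right; left
    have : A.q * (s + 1) ≤ A.q * (A.w - A.h : ℤ) := mul_le_mul_of_nonneg_left (by omega) hq.le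
    rw [mul_add, mul_sub, ← hs, mul_one] at this
    omega
  · right; right
    rw [hs, h, mul_sub]
  · left
    have : A.q * (A.w - A.h + 1 : ℤ) ≤ A.q * s := mul_le_mul_of_nonneg_left (by omega) hq.le
    rw [mul_add, mul_sub, ← hs, mul_one] at this
    omega

/-- a representative with `- n < 2 x ≤ n` -/
theorem exists_rep' {n : ℤ} (hn : 0 < n) (s : ℤ) : ∃ s', n ∣ s - s' ∧ -n < 2 * s' ∧ 2 * s' ≤ n := by
  have h0 := Int.emod_nonneg s hn.ne'
  have h1 := Int.emod_lt_of_pos s hn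
  have he := Int.emod_add_mul_ediv s n
  by_cases c : 2 * (s % n) ≤ n
  · exact ⟨s % n, ⟨s / n, by linarith⟩, by omega, c⟩
  · refine ⟨s % n - n, ⟨s / n + 1, ?_⟩, by omega, by omega⟩
    rw [mul_add, mul_one]; linarith

/-- the class of half of `t` : `2 j = t` or `2 j = t + p` -/
theorem half_class (_d : ST A T sx) (hep : T.ep = -1) (hodd : (A.p : ℤ) % 2 = 1) :
    ∃ j U S ee, (ee = 0 ∨ ee = 1) ∧ IsC A j U S (th A j) ∧ 2 * th A j = th A T.t + ee * A.D ∧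
      NN A ∣ 2 * U + (A.q * A.w + A.sg) - ee * A.D ∧ -NN A < 2 * U ∧ 2 * U ≤ NN A ∧
      (∃ s, S = A.q * s ∧ (A.p : ℤ) ∣ 2 * s - (A.w - T.x) ∧ -A.p < 2 * s ∧ 2 * s ≤ A.p) := by
  have t0 := T.t0
  have tp := T.tp
  have hp := A.p_pos'
  obtain ⟨j, ee, he, hj⟩ : ∃ j ee, (ee = 0 ∨ ee = 1) ∧ 2 * j = T.t + ee * A.p := by
    rcases Int.emod_two_eq_zero_or_one T.t with h | h
    · exact ⟨T.t / 2, 0, Or.inl rfl, by omega⟩
    · exact ⟨(T.t + A.p) / 2, 1, Or.inr rfl, by omega⟩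
  have j0 : 0 < j := by rcases he with h | h <;> rw [h] at hj <;> omega
  have j1 : j < A.p := by rcases he with h | h <;> rw [h] at hj <;> omega
  obtain ⟨U, hU, U0, U1⟩ := exists_rep' (NN_pos A) (A.a * j)
  obtain ⟨s, hs, s0, s1⟩ := exists_rep' hp (A.e * j)
  refine ⟨j, U, A.q * s, ee, he, ⟨Rec.of hU hs, j0, j1⟩, ?_, ?_, U0, U1, s, rfl, ?_, s0, s1⟩
  · rw [← th_mul, hj, th_add, th_mul, th_p]
  · have h1 := T.tie
    rw [hep] at h1
    have h2 := A.hd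
    have h3 := dvd_add (dvd_sub h1 (hU.mul_left 2)) (h2.mul_left ee)
    have e : A.a * T.t - -1 * (A.q * A.w + A.sg) - 2 * (A.a * j - U)
      + ee * (A.a * A.p - (A.q * A.md + A.fd)) = 2 * U + (A.q * A.w + A.sg) - ee * A.D := by
      unfold TAp.D
      linear_combination (-A.a) * hj
    rwa [e] at h3
  · have h1 := T.row
    rw [hep] at h1
    have h3 := dvd_sub h1 (hs.mul_left 2)
    have h4 := dvd_add h3 (show (A.p : ℤ) ∣ A.e * ee * A.p from dvd_mul_left _ _)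
    have e : A.e * T.t - -1 * (T.x - A.w) - 2 * (A.e * j - s) + A.e * ee * A.p
      = 2 * s - (A.w - T.x) := by
      linear_combination (-A.e) * hj
    rwa [e] at h4

end Pool.Agent.H78.SV
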