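import Pool.Agent.H78.SV.Oc

/-!
# Single ties: the hypotheses of the cells as values of forms
-/

set_option linter.all false

namespace Pool.Agent.H78.SV

open Pool.Agent.H78.RT
open Pool.Agent.H78.Tie
open Pool.Agent.H78.Tie.TAp
open Pool.Agent.H81.AP (LF dot dot_nil dot_nil' dot_cons AllNn AllNe)

theorem f_v1 {A : TAp} {T : A.Tie} {θ S U : ℤ}
    (h : U + S + 2 ≤ A.q * A.h) (r : List ℤ) :
    0 ≤ dot [-2, 0, 0, 1, 0, 0, 0, 0, 0, -1, -1] (1 :: env A T (θ :: S :: U :: r)) := by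
  unfold env; simp only [dot_cons, dot_nil]; linarith

theorem f_v0 {A : TAp} {T : A.Tie} {θ S U : ℤ}
    (h : -(A.q * A.h : ℤ) + 2 ≤ U + S) (r : List ℤ) :
    0 ≤ dot [-2, 0, 0, 1, 0, 0, 0, 0, 0, 1, 1] (1 :: env A T (θ :: S :: U :: r)) := by
  unfold env; simp only [dot_cons, dot_nil]; linarith

theorem f_u1 {A : TAp} {T : A.Tie} {θ S U : ℤ}
    (h : U + 2 ≤ A.q * A.w) (r : List ℤ) :
    0 ≤ dot [-2, 0, 1, 0, 0, 0, 0, 0, 0, 0, -1] (1 :: env A T (θ :: S :: U :: r)) := by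
  unfold env; simp only [dot_cons, dot_nil]; linarith

theorem f_u0 {A : TAp} {T : A.Tie} {θ S U : ℤ}
    (h : -(A.q * A.w : ℤ) + 2 ≤ U) (r : List ℤ) :
    0 ≤ dot [-2, 0, 1, 0, 0, 0, 0, 0, 0, 0, 1] (1 :: env A T (θ :: S :: U :: r)) := by
  unfold env; simp only [dot_cons, dot_nil]; linarith

theorem f_n0 {A : TAp} {T : A.Tie} {θ S U : ℤ}
    (h : 2 ≤ θ) (r : List ℤ) :
    0 ≤ dot [-2, 0, 0, 0, 0, 0, 0, 0, 1] (1 :: env A T (θ :: S :: U :: r)) := by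
  unfold env; simp only [dot_cons, dot_nil]; linarith

theorem f_n1 {A : TAp} {T : A.Tie} {θ S U : ℤ}
    (h : θ + 2 ≤ A.D) (r : List ℤ) :
    0 ≤ dot [-2, 0, 0, 0, 1, 0, 0, 0, -1] (1 :: env A T (θ :: S :: U :: r)) := by
  unfold env; simp only [dot_cons, dot_nil]; linarith

theorem f_t1 {A : TAp} {T : A.Tie} {θ S U : ℤ}
    (h : 1 ≤ θ) (r : List ℤ) :
    0 ≤ dot [-1, 0, 0, 0, 0, 0, 0, 0, 1] (1 :: env A T (θ :: S :: U :: r)) := by
  unfold env; simp only [dot_cons, dot_nil]; linarith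

theorem f_t2 {A : TAp} {T : A.Tie} {θ S U : ℤ}
    (h : θ + 1 ≤ A.D) (r : List ℤ) :
    0 ≤ dot [-1, 0, 0, 0, 1, 0, 0, 0, -1] (1 :: env A T (θ :: S :: U :: r)) := by
  unfold env; simp only [dot_cons, dot_nil]; linarith

theorem f_hDW {A : TAp} {T : A.Tie}
    (h : A.D < A.q * A.w) (r : List ℤ) :
    0 ≤ dot [-1, 0, 1, 0, -1] (1 :: env A T r) := by
  unfold env; simp only [dot_cons, dot_nil]; linarith

theorem f_hWH {A : TAp} {T : A.Tie}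
    (h : (A.q * A.w : ℤ) ≤ A.q * A.h) (r : List ℤ) :
    0 ≤ dot [0, 0, -1, 1] (1 :: env A T r) := by
  unfold env; simp only [dot_cons, dot_nil]; linarith

theorem f_hUW {A : TAp} {T : A.Tie} {θ S U : ℤ}
    (h : U + A.q * A.w + 2 ≤ A.D) (r : List ℤ) :
    0 ≤ dot [-2, 0, -1, 0, 1, 0, 0, 0, 0, 0, -1] (1 :: env A T (θ :: S :: U :: r)) := by
  unfold env; simp only [dot_cons, dot_nil]; linarith

theorem f_hUm {A : TAp} {T : A.Tie} {θ S U : ℤ}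
    (h : U + 2 ≤ 0) (r : List ℤ) :
    0 ≤ dot [-2, 0, 0, 0, 0, 0, 0, 0, 0, 0, -1] (1 :: env A T (θ :: S :: U :: r)) := by
  unfold env; simp only [dot_cons, dot_nil]; linarith

theorem f_hUp {A : TAp} {T : A.Tie} {θ S U : ℤ}
    (h : 2 ≤ U) (r : List ℤ) :
    0 ≤ dot [-2, 0, 0, 0, 0, 0, 0, 0, 0, 0, 1] (1 :: env A T (θ :: S :: U :: r)) := by
  unfold env; simp only [dot_cons, dot_nil]; linarith

theorem f_hUD {A : TAp} {T : A.Tie} {θ S U : ℤ}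
    (h : U + 2 ≤ A.D) (r : List ℤ) :
    0 ≤ dot [-2, 0, 0, 0, 1, 0, 0, 0, 0, 0, -1] (1 :: env A T (θ :: S :: U :: r)) := by
  unfold env; simp only [dot_cons, dot_nil]; linarith

theorem f_hVp {A : TAp} {T : A.Tie} {θ S U : ℤ}
    (h : 2 ≤ U + S) (r : List ℤ) :
    0 ≤ dot [-2, 0, 0, 0, 0, 0, 0, 0, 0, 1, 1] (1 :: env A T (θ :: S :: U :: r)) := by
  unfold env; simp only [dot_cons, dot_nil]; linarith

theorem f_hVm {A : TAp} {T : A.Tie} {θ S U : ℤ}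
    (h : U + S + 2 ≤ 0) (r : List ℤ) :
    0 ≤ dot [-2, 0, 0, 0, 0, 0, 0, 0, 0, -1, -1] (1 :: env A T (θ :: S :: U :: r)) := by
  unfold env; simp only [dot_cons, dot_nil]; linarith

theorem f_hDU {A : TAp} {T : A.Tie} {θ S U : ℤ}
    (h : A.D + 2 ≤ U) (r : List ℤ) :
    0 ≤ dot [-2, 0, 0, 0, -1, 0, 0, 0, 0, 0, 1] (1 :: env A T (θ :: S :: U :: r)) := by
  unfold env; simp only [dot_cons, dot_nil]; linarith

theorem f_hVD {A : TAp} {T : A.Tie} {θ S U : ℤ}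
    (h : U + S + A.q * A.h + 2 ≤ A.D) (r : List ℤ) :
    0 ≤ dot [-2, 0, 0, -1, 1, 0, 0, 0, 0, -1, -1] (1 :: env A T (θ :: S :: U :: r)) := by
  unfold env; simp only [dot_cons, dot_nil]; linarith

theorem f_ht0 {A : TAp} {T : A.Tie} {θ S U : ℤ}
    (h : θ + 2 ≤ th A T.t) (r : List ℤ) :
    0 ≤ dot [-2, 0, 0, 0, 0, 0, 1, 0, -1] (1 :: env A T (θ :: S :: U :: r)) := by
  unfold env; simp only [dot_cons, dot_nil]; linarith

theorem f_ht1 {A : TAp} {T : A.Tie} {θ S U : ℤ}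
    (h : th A T.t + 2 ≤ θ) (r : List ℤ) :
    0 ≤ dot [-2, 0, 0, 0, 0, 0, -1, 0, 1] (1 :: env A T (θ :: S :: U :: r)) := by
  unfold env; simp only [dot_cons, dot_nil]; linarith

theorem f_hd0 {A : TAp} {T : A.Tie} {θ S U : ℤ}
    (h : θ + th A T.t + 2 ≤ A.D) (r : List ℤ) :
    0 ≤ dot [-2, 0, 0, 0, 1, 0, -1, 0, -1] (1 :: env A T (θ :: S :: U :: r)) := by
  unfold env; simp only [dot_cons, dot_nil]; linarith

theorem f_hd1 {A : TAp} {T : A.Tie} {θ S U : ℤ}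
    (h : A.D + 2 ≤ θ + th A T.t) (r : List ℤ) :
    0 ≤ dot [-2, 0, 0, 0, -1, 0, 1, 0, 1] (1 :: env A T (θ :: S :: U :: r)) := by
  unfold env; simp only [dot_cons, dot_nil]; linarith

theorem f_rA {A : TAp} {T : A.Tie}
    (h : 2 * (A.q * A.w : ℤ) + A.q * A.h ≤ NN A) (r : List ℤ) :
    0 ≤ dot [0, 1, -2, -1] (1 :: env A T r) := by
  unfold env; simp only [dot_cons, dot_nil]; linarith

theorem f_ra {A : TAp} {T : A.Tie}
    (h : NN A < 2 * (A.q * A.w : ℤ) + A.q * A.h) (r : List ℤ) :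
    0 ≤ dot [-1, -1, 2, 1] (1 :: env A T r) := by
  unfold env; simp only [dot_cons, dot_nil]; linarith

theorem f_sN {A : TAp} {T : A.Tie} {θ S U : ℤ}
    (h : (A.q * A.w : ℤ) - A.q * A.h + A.q ≤ S) (r : List ℤ) :
    0 ≤ dot [0, 0, -1, 1, 0, 0, 0, -1, 0, 1] (1 :: env A T (θ :: S :: U :: r)) := by
  unfold env; simp only [dot_cons, dot_nil]; linarith

theorem f_sF {A : TAp} {T : A.Tie} {θ S U : ℤ}
    (h : S + A.q * A.h + A.q ≤ A.q * A.w) (r : List ℤ) :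
    0 ≤ dot [0, 0, 1, -1, 0, 0, 0, -1, 0, -1] (1 :: env A T (θ :: S :: U :: r)) := by
  unfold env; simp only [dot_cons, dot_nil]; linarith

theorem f_sE0 {A : TAp} {T : A.Tie} {θ S U : ℤ}
    (h : (A.q * A.w : ℤ) - A.q * A.h ≤ S) (r : List ℤ) :
    0 ≤ dot [0, 0, -1, 1, 0, 0, 0, 0, 0, 1] (1 :: env A T (θ :: S :: U :: r)) := by
  unfold env; simp only [dot_cons, dot_nil]; linarith

theorem f_sE1 {A : TAp} {T : A.Tie} {θ S U : ℤ}
    (h : S + A.q * A.h ≤ A.q * A.w) (r : List ℤ) :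
    0 ≤ dot [0, 0, 1, -1, 0, 0, 0, 0, 0, -1] (1 :: env A T (θ :: S :: U :: r)) := by
  unfold env; simp only [dot_cons, dot_nil]; linarith

theorem f_k0 {A : TAp} {T : A.Tie} {θ S U a b : ℤ}
    (h : 1 ≤ a) (r : List ℤ) :
    0 ≤ dot [-1, 0, 0, 0, 0, 0, 0, 0, 0, 0, 0, 1] (1 :: env A T (θ :: S :: U :: a :: b :: r)) := by
  unfold env; simp only [dot_cons, dot_nil]; linarith

theorem f_k1 {A : TAp} {T : A.Tie} {θ S U a b : ℤ}
    (h : a + 1 ≤ A.D) (r : List ℤ) :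
    0 ≤ dot [-1, 0, 0, 0, 1, 0, 0, 0, 0, 0, 0, -1] (1 :: env A T (θ :: S :: U :: a :: b :: r)) := by
  unfold env; simp only [dot_cons, dot_nil]; linarith

theorem f_k2 {A : TAp} {T : A.Tie} {θ S U a b : ℤ}
    (h : 2 * b ≤ NN A) (r : List ℤ) :
    0 ≤ dot [0, 1, 0, 0, 0, 0, 0, 0, 0, 0, 0, 0, -2] (1 :: env A T (θ :: S :: U :: a :: b :: r)) := by
  unfold env; simp only [dot_cons, dot_nil]; linarith

theorem f_k3 {A : TAp} {T : A.Tie} {θ S U a b : ℤ}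
    (h : -NN A ≤ 2 * b) (r : List ℤ) :
    0 ≤ dot [0, 1, 0, 0, 0, 0, 0, 0, 0, 0, 0, 0, 2] (1 :: env A T (θ :: S :: U :: a :: b :: r)) := by
  unfold env; simp only [dot_cons, dot_nil]; linarith

theorem f_gU {A : TAp} {T : A.Tie} {θ S U a b d : ℤ}
    (h : 2 ≤ d) (r : List ℤ) :
    0 ≤ dot [-2, 0, 0, 0, 0, 0, 0, 0, 0, 0, 0, 0, 0, 1] (1 :: env A T (θ :: S :: U :: a :: b :: d :: r)) := by
  unfold env; simp only [dot_cons, dot_nil]; linarith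

theorem f_gSe {A : TAp} {T : A.Tie} {θ S U a b : ℤ}
    (h : -(A.q * A.h : ℤ) ≤ b) (r : List ℤ) :
    0 ≤ dot [0, 0, 0, 1, 0, 0, 0, 0, 0, 0, 0, 0, 1] (1 :: env A T (θ :: S :: U :: a :: b :: r)) := by
  unfold env; simp only [dot_cons, dot_nil]; linarith

theorem f_gSF {A : TAp} {T : A.Tie} {θ S U a b : ℤ}
    (h : S - A.q * A.w ≤ b) (r : List ℤ) :
    0 ≤ dot [0, 0, 1, 0, 0, 0, 0, 0, 0, -1, 0, 0, 1] (1 :: env A T (θ :: S :: U :: a :: b :: r)) := by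
  unfold env; simp only [dot_cons, dot_nil]; linarith

theorem f_gV {A : TAp} {T : A.Tie} {θ S U a b d : ℤ}
    (h : d + b ≤ U + S) (r : List ℤ) :
    0 ≤ dot [0, 0, 0, 0, 0, 0, 0, 0, 0, 1, 1, 0, -1, -1] (1 :: env A T (θ :: S :: U :: a :: b :: d :: r)) := by
  unfold env; simp only [dot_cons, dot_nil]; linarith

theorem f_gUl {A : TAp} {T : A.Tie} {θ S U a b d : ℤ}
    (h : 1 ≤ d + A.q * A.w) (r : List ℤ) :
    0 ≤ dot [-1, 0, 1, 0, 0, 0, 0, 0, 0, 0, 0, 0, 0, 1] (1 :: env A T (θ :: S :: U :: a :: b :: d :: r)) := by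
  unfold env; simp only [dot_cons, dot_nil]; linarith

theorem f_gSel {A : TAp} {T : A.Tie} {θ S U a b : ℤ}
    (h : A.q * A.w ≤ b) (r : List ℤ) :
    0 ≤ dot [0, 0, -1, 0, 0, 0, 0, 0, 0, 0, 0, 0, 1] (1 :: env A T (θ :: S :: U :: a :: b :: r)) := by
  unfold env; simp only [dot_cons, dot_nil]; linarith

theorem f_gSFl {A : TAp} {T : A.Tie} {θ S U a b : ℤ}
    (h : S + A.q * A.h ≤ b) (r : List ℤ) :
    0 ≤ dot [0, 0, 0, -1, 0, 0, 0, 0, 0, -1, 0, 0, 1] (1 :: env A T (θ :: S :: U :: a :: b :: r)) := by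
  unfold env; simp only [dot_cons, dot_nil]; linarith

theorem f_gVl {A : TAp} {T : A.Tie} {θ S U a b d : ℤ}
    (h : d + b ≤ U + S + A.q * A.h) (r : List ℤ) :
    0 ≤ dot [0, 0, 0, 1, 0, 0, 0, 0, 0, 1, 1, 0, -1, -1] (1 :: env A T (θ :: S :: U :: a :: b :: d :: r)) := by
  unfold env; simp only [dot_cons, dot_nil]; linarith

theorem f_x1p {A : TAp} {T : A.Tie} {θ S U : ℤ}
    (h : -(A.q * T.x) ≤ U + A.q * A.w) (r : List ℤ) :
    0 ≤ dot [0, 0, 1, 0, 0, 1, 0, 0, 0, 0, 1] (1 :: env A T (θ :: S :: U :: r)) := by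
  unfold env; simp only [dot_cons, dot_nil]; linarith

theorem f_x1m {A : TAp} {T : A.Tie} {θ S U : ℤ}
    (h : -(A.q * T.x) + 2 ≤ U + A.q * A.w) (r : List ℤ) :
    0 ≤ dot [-2, 0, 1, 0, 0, 1, 0, 0, 0, 0, 1] (1 :: env A T (θ :: S :: U :: r)) := by
  unfold env; simp only [dot_cons, dot_nil]; linarith

theorem f_x2p {A : TAp} {T : A.Tie} {θ S U : ℤ}
    (h : U + A.q * A.w + 2 ≤ -(A.q * T.x)) (r : List ℤ) :
    0 ≤ dot [-2, 0, -1, 0, 0, -1, 0, 0, 0, 0, -1] (1 :: env A T (θ :: S :: U :: r)) := by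
  unfold env; simp only [dot_cons, dot_nil]; linarith

theorem f_x2m {A : TAp} {T : A.Tie} {θ S U : ℤ}
    (h : U + A.q * A.w ≤ -(A.q * T.x)) (r : List ℤ) :
    0 ≤ dot [0, 0, -1, 0, 0, -1, 0, 0, 0, 0, -1] (1 :: env A T (θ :: S :: U :: r)) := by
  unfold env; simp only [dot_cons, dot_nil]; linarith

theorem f_hs0 {A : TAp} {T : A.Tie}
    (h : (A.q * A.w : ℤ) + A.q * A.h ≤ NN A + A.q * T.x) (r : List ℤ) :
    0 ≤ dot [0, 1, -1, -1, 0, 1] (1 :: env A T r) := by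
  unfold env; simp only [dot_cons, dot_nil]; linarith

theorem f_hs1 {A : TAp} {T : A.Tie}
    (h : NN A + A.q * T.x ≤ (A.q * A.w : ℤ) + A.q * A.h) (r : List ℤ) :
    0 ≤ dot [0, -1, 1, 1, 0, -1] (1 :: env A T r) := by
  unfold env; simp only [dot_cons, dot_nil]; linarith

theorem e_nT {A : TAp} {T : A.Tie} {θ S U : ℤ}
    (h : θ ≠ th A T.t) (r : List ℤ) :
    dot [0, 0, 0, 0, 0, 0, -1, 0, 1] (1 :: env A T (θ :: S :: U :: r)) ≠ 0 := by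
  unfold env; simp only [dot_cons, dot_nil]; intro h0; apply h; linarith

theorem e_nP {A : TAp} {T : A.Tie} {θ S U : ℤ}
    (h : θ + th A T.t ≠ A.D) (r : List ℤ) :
    dot [0, 0, 0, 0, -1, 0, 1, 0, 1] (1 :: env A T (θ :: S :: U :: r)) ≠ 0 := by
  unfold env; simp only [dot_cons, dot_nil]; intro h0; apply h; linarith

theorem e_n2 {A : TAp} {T : A.Tie} {θ S U : ℤ}
    (h : 2 * θ ≠ th A T.t) (r : List ℤ) :
    dot [0, 0, 0, 0, 0, 0, -1, 0, 2] (1 :: env A T (θ :: S :: U :: r)) ≠ 0 := by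
  unfold env; simp only [dot_cons, dot_nil]; intro h0; apply h; linarith

theorem e_nh {A : TAp} {T : A.Tie}
    (h : NN A + A.q * T.x ≠ A.q * A.w + A.q * A.h) (r : List ℤ) :
    dot [0, 1, -1, -1, 0, 1] (1 :: env A T r) ≠ 0 := by
  unfold env; simp only [dot_cons, dot_nil]; intro h0; apply h; linarith

theorem e_nO {A : TAp} {T : A.Tie}
    (h : NN A + A.q + 2 * (A.q * T.x) ≠ 2 * (A.q * A.w)) (r : List ℤ) :
    dot [0, 1, -2, 0, 0, 2, 0, 1] (1 :: env A T r) ≠ 0 := by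
  unfold env; simp only [dot_cons, dot_nil]; intro h0; apply h; linarith

end Pool.Agent.H78.SV
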